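import Pool.Agent.Run7.h442.HD.DX
import Pool.Agent.Run7.h842.HD.LOW
import Pool.Agent.Run7.h842.HD.MOM
import Pool.Agent.Run7.h842.HD.GRID
import Pool.Agent.Run7.h216.HD_WJ
import Pool.Agent.Run7.h216.HD_FREE
import Pool.Agent.Run7.h216.HD_ASY
import Pool.Agent.Run7.h304.HD_FEJ
import Pool.Agent.Run7.h108.HD.CC
import Pool.Agent.Run7.h973.HD_ZM
import Pool.Agent.Run7.h651.HD_LAD
import Pool.Agent.Run7.h376.HD.Loc

/-! High dimension, coupling of order one: all pieces together. -/

set_option autoImplicit false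

namespace Run7.h442.HD

theorem all_free : S_FREE := Run7.h216.HDFREE.main Run7.h216.HDWJ.main

theorem all_tor : S_TOR :=
  tor (apr Run7.h842.HD.mom Run7.h108.HD.main
    (dx Run7.h842.HD.low (Run7.h304.HD.main Run7.h216.HDWJ.main) all_free Run7.h842.HD.grid))
    (Run7.h651.HD.LAD.main all_free (Run7.h216.HDASY.main Run7.h216.HDWJ.main))

/-- quantum diffusion in high dimension -/
theorem qd : S_QD := Run7.h973.HD_ZM.main all_tor

/-- localization length in high dimension -/
theorem loc : S_LOC := Run7.h376.HD.t_LOC all_tor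

end Run7.h442.HD
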