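import Pool.Agent.Run7.h442.HD.Vf

/-! The a priori estimates on the torus and the limit of the ladder, high dimension. -/

set_option autoImplicit false
set_option linter.unusedSectionVars false

open scoped BigOperators Matrix ComplexConjugate
open MeasureTheory

namespace Run7.h442.HD

open Pool.Agent.Run7.h47 hiding mm mf ze V1 V2 ff
open Pool.Agent.W788.MFP.Four Pool.Agent.W788.BK
open Pool.Agent.W788.MFP.Form
open Run7.h108.GL (Law Γ gz mm mf ze V1 V2 ff ww a0)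
open Run7.h108.GL.HD

/-- the data exist -/
def S_DX : Prop := ∀ K : ℝ, 1 ≤ K → ∃ K' : ℝ, K ≤ K' ∧ ∃ d0 : ℕ, ∀ [Law] (d L : ℕ) [NeZero L],
  d0 ≤ d → (d : ℝ) ^ 8 ≤ L → Law.b ≤ K → ∀ σ E : ℝ, |σ| ≤ K →
  Dx d L K' σ E ((d : ℝ) ^ (-(1 / 200 : ℝ)))

theorem small_xi (ε : ℝ) (hε : 0 < ε) : ∃ d1 : ℕ, ∀ d : ℕ, d1 ≤ d →
    (d : ℝ) ^ (-(1 / 200 : ℝ)) ≤ ε := by
  have h1 : Filter.Tendsto (fun x : ℝ => x ^ (-(1 / 200 : ℝ))) Filter.atTop (nhds 0) :=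
    tendsto_rpow_neg_atTop (by norm_num)
  have h2 := (h1.comp tendsto_natCast_atTop_atTop).eventually (ge_mem_nhds hε)
  obtain ⟨d1, h3⟩ := Filter.eventually_atTop.1 h2
  exact ⟨d1, fun d hd => h3 d hd⟩

theorem xi100 {d : ℕ} (hd : 1 ≤ d) :
    ((d : ℝ) ^ (-(1 / 200 : ℝ))) ^ 100 = (Real.sqrt d)⁻¹ := by
  have h0 : (0 : ℝ) ≤ d := by positivity
  rw [← Real.rpow_natCast, ← Real.rpow_mul h0, Real.sqrt_eq_rpow, ← Real.rpow_neg h0]
  norm_num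

theorem xi101 {d : ℕ} (hd : 1 ≤ d) :
    ((d : ℝ) ^ (-(1 / 200 : ℝ))) ^ 101 = (d : ℝ) ^ (-(1 / 2 + 1 / 200 : ℝ)) := by
  have h0 : (0 : ℝ) ≤ d := by positivity
  rw [← Real.rpow_natCast, ← Real.rpow_mul h0]
  norm_num

/-- **the estimates on the torus** -/
theorem apr (hM : S_MOM) (hC : S_CC) (hD : S_DX) : S_APR := by
  intro K A ε hK hε
  obtain ⟨K', hK', d0, H0⟩ := hD K hK
  obtain ⟨d1, H1⟩ := small_xi ε hε
  refine ⟨max (max d0 d1) 1, ?_⟩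
  intro _ d L _ hd hL hb σ E t hσ1 hσ2 hE ht1 ht2
  have hd0 : d0 ≤ d := (le_max_left _ _).trans ((le_max_left _ _).trans hd)
  have hd1 : d1 ≤ d := (le_max_right _ _).trans ((le_max_left _ _).trans hd)
  have hd2 : 1 ≤ d := (le_max_right _ _).trans hd
  have H := H0 d L hd0 hL hb σ E hσ2
  have hx := H1 d hd1
  have e100 := xi100 hd2
  have e101 := xi101 hd2
  obtain ⟨ξ, hξd⟩ : ∃ ξ, ξ = (d : ℝ) ^ (-(1 / 200 : ℝ)) := ⟨_, rfl⟩
  rw [← hξd] at H hx e100 e101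
  rw [← e101] at ht1
  rw [← e100] at ht2
  have hξ := H.hξ
  have hT : Tt ξ t := ⟨ht1, ht2⟩
  have hsd : Real.sqrt d = (ξ ^ 100)⁻¹ := by rw [e100, inv_inv]
  rw [hsd]
  have ht : 0 < t := H.t0 hT
  refine ⟨?_, ?_, fun p => ?_⟩
  · refine (H.mf2 hM hC hT).trans ?_
    calc ξ ^ 106 ≤ ξ ^ 102 := pow_le_pow_of_le_one hξ.le H.x1 (by norm_num)
      _ = ξ * ξ ^ 101 := by rw [← pow_succ']
      _ ≤ ε * t := by gcongr
  · refine (H.V1f hM hC hT).trans ?_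
    have e1 : (ξ ^ 101) ^ 3 ≤ t ^ 3 := by gcongr
    have e2 : (ξ ^ 100)⁻¹ * (ξ ^ 101) ^ 3 = ξ ^ 203 := by
      rw [mul_comm, ← pow_mul]
      exact pw hξ (c := 203) (by norm_num)
    calc ξ ^ 223 ≤ ξ ^ 204 := pow_le_pow_of_le_one hξ.le H.x1 (by norm_num)
      _ = ξ * ξ ^ 203 := by rw [← pow_succ']
      _ = ξ * ((ξ ^ 100)⁻¹ * (ξ ^ 101) ^ 3) := by rw [e2]
      _ ≤ ε * ((ξ ^ 100)⁻¹ * t ^ 3) := by gcongr
  · refine (H.V2f hM hC hT p).trans ?_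
    have e2 : (ξ ^ 100)⁻¹ * ξ ^ 101 = ξ ^ 1 := by
      rw [mul_comm]
      exact pw hξ (c := 1) (by norm_num)
    calc ξ ^ 21 ≤ ξ ^ 2 := pow_le_pow_of_le_one hξ.le H.x1 (by norm_num)
      _ = ξ * ξ ^ 1 := by rw [← pow_succ']
      _ = ξ * ((ξ ^ 100)⁻¹ * ξ ^ 101) := by rw [e2]
      _ ≤ ε * ((ξ ^ 100)⁻¹ * t) := by gcongr

/-- **the limit of the ladder on the torus** -/
theorem tor (hA : S_APR) (hL : S_LAD) : S_TOR := by
  intro K A M ε hK hM hε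
  obtain ⟨w1, hw1, d1, H1⟩ := hL K A M ε hK hM hε
  obtain ⟨d2, H2⟩ := hA K A (min w1 ε) hK (lt_min hw1 hε)
  refine ⟨min w1 1, lt_min hw1 one_pos, min_le_right _ _, max (max d1 d2) 1, ?_⟩
  intro _ d L _ hd hL hb σ E t hσ1 hσ2 hE ht1 ht2
  have hd1 : d1 ≤ d := (le_max_left _ _).trans ((le_max_left _ _).trans hd)
  have hd2 : d2 ≤ d := (le_max_right _ _).trans ((le_max_left _ _).trans hd)
  have hd3 : 1 ≤ d := (le_max_right _ _).trans hd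
  have hdR : (1 : ℝ) ≤ d := by exact_mod_cast hd3
  have hs : 0 < Real.sqrt d := Real.sqrt_pos.2 (by linarith)
  have ht0 : 0 < t := lt_of_lt_of_le (Real.rpow_pos_of_pos (by linarith) _) ht1
  have ht3 : t ≤ (Real.sqrt d)⁻¹ := by
    rw [← one_div, le_div_iff₀ hs]
    exact ht2.trans (min_le_right _ _)
  obtain ⟨h1, h2, h3⟩ := H2 d L hd2 hL hb σ E t hσ1 hσ2 hE ht1 ht3
  have m1 : min w1 ε ≤ w1 := min_le_left _ _
  have m2 : min w1 ε ≤ ε := min_le_right _ _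
  refine ⟨fun p => (h3 p).trans ?_, ?_⟩
  · gcongr
  · refine H1 d L hd1 hL σ E t hσ1 hσ2 hE ?_ (ht2.trans (min_le_left _ _)) (h1.trans ?_)
      (h2.trans ?_) (fun p => (h3 p).trans ?_)
    · refine le_trans ?_ ht1
      rw [← Real.rpow_neg_one]
      exact Real.rpow_le_rpow_of_exponent_le hdR (by norm_num)
    · gcongr
    · gcongr
    · gcongr

end Run7.h442.HD
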