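import Pool.Agent.Run7.h442.HD.Iface

/-! The bilinear estimate, high dimension. -/

set_option autoImplicit false
set_option linter.unusedSectionVars false

open scoped BigOperators Matrix
open MeasureTheory

namespace Run7.h442.HD

open Pool.Agent.Run7.h47 hiding mm mf ze V1 V2 ff
open Pool.Agent.W788.MFP.Four Pool.Agent.W788.BK
open Pool.Agent.W788.MFP.Form

variable {d L : ℕ} [NeZero L]

theorem Lo_neg (P : T d L) : Lo (-P) ↔ Lo P := by
  unfold Lo
  simp only [Pi.neg_apply, cr_neg]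

theorem lo_cases (P : T d L) : (Lo P ∧ lo P = 1) ∨ (¬ Lo P ∧ lo P = 0) := by
  unfold lo
  by_cases h : Lo P
  · left; exact ⟨h, if_pos h⟩
  · right; exact ⟨h, if_neg h⟩

theorem lwh_nonneg : 0 ≤ lwh d L := by
  unfold lwh
  refine mul_nonneg (inv_nonneg.2 NN_pos.le) (Finset.sum_nonneg fun P _ => ?_)
  rcases lo_cases P with h | h <;> rw [h.2] <;> norm_num

theorem bilR (E δ Q : ℝ) (hδ : 0 < δ) (hQ0 : 0 ≤ Q)
    (hQ : ∀ P : T d L, ¬ Lo P → ∑ k : T d L, (J E δ k * J E δ (k + P))⁻¹ ≤ Q * NN d L)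
    (a c : T d L → ℝ) :
    ∑ x, a x ^ 2 * c x ^ 2 ≤ Q * (q (J E δ) a * q (J E δ) c) +
      lwh d L * ((∑ x, a x ^ 2) * ∑ x, c x ^ 2) := by
  have hN := NN_pos (d := d) (L := L)
  have hJ := J_pos (d := d) (L := L) E δ hδ
  set A : ℝ := ∑ k, J E δ k * ‖ft a k‖ ^ 2 with hA
  set C : ℝ := ∑ k, J E δ k * ‖ft c k‖ ^ 2 with hC
  have h1 : ∑ x, a x ^ 2 * c x ^ 2 = (NN d L)⁻¹ * ∑ P, ‖ft (fun x => a x * c x) P‖ ^ 2 := by
    have h2 := sum_sq (fun x => a x * c x)
    unfold q at h2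
    simp only [one_mul] at h2
    rw [← h2]
    exact Finset.sum_congr rfl fun x _ => by ring
  have h3 : ∀ P : T d L, ‖ft (fun x => a x * c x) P‖ ^ 2 ≤
      (NN d L)⁻¹ * Q * ∑ k, (J E δ k * ‖ft a k‖ ^ 2) * (J E δ (P - k) * ‖ft c (P - k)‖ ^ 2) +
        lo P * ((∑ x, a x ^ 2) * ∑ x, c x ^ 2) := by
    intro P
    have hs0 : 0 ≤ ∑ k, (J E δ k * ‖ft a k‖ ^ 2) * (J E δ (P - k) * ‖ft c (P - k)‖ ^ 2) :=
      Finset.sum_nonneg fun k _ => by
        have := hJ k
        have := hJ (P - k)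
        positivity
    rcases lo_cases P with hP | hP
    · rw [hP.2, one_mul]
      have h4 : ‖ft (fun x => a x * c x) P‖ ≤ ∑ x, |a x| * |c x| := by
        unfold ft
        refine (norm_sum_le _ _).trans (Finset.sum_le_sum fun x _ => ?_)
        rw [norm_mul, norm_e, mul_one, Complex.norm_real, Real.norm_eq_abs, abs_mul]
      have h5 : ‖ft (fun x => a x * c x) P‖ ^ 2 ≤ (∑ x, a x ^ 2) * ∑ x, c x ^ 2 := by
        refine (pow_le_pow_left₀ (norm_nonneg _) h4 2).trans ?_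
        refine (Finset.sum_mul_sq_le_sq_mul_sq _ _ _).trans (le_of_eq ?_)
        simp only [sq_abs]
      have h6 : 0 ≤ (NN d L)⁻¹ * Q := mul_nonneg (inv_nonneg.2 hN.le) hQ0
      have := mul_nonneg h6 hs0
      linarith
    · rw [hP.2, zero_mul, add_zero]
      have h4 : ‖ft (fun x => a x * c x) P‖ ≤
          (NN d L)⁻¹ * ∑ k, ‖ft a k‖ * ‖ft c (P - k)‖ := by
        rw [ft_mul, norm_mul, norm_inv, Complex.norm_real, Real.norm_of_nonneg hN.le]
        refine mul_le_mul_of_nonneg_left ?_ (inv_nonneg.2 hN.le)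
        refine (norm_sum_le _ _).trans (Finset.sum_le_sum fun x _ => ?_)
        rw [norm_mul]
      have h5 : (∑ k, ‖ft a k‖ * ‖ft c (P - k)‖) ^ 2 ≤
          (∑ k, (J E δ k * ‖ft a k‖ ^ 2) * (J E δ (P - k) * ‖ft c (P - k)‖ ^ 2)) *
            ∑ k, (J E δ k * J E δ (P - k))⁻¹ := by
        have h6 := Finset.sum_mul_sq_le_sq_mul_sq Finset.univ
          (fun k => Real.sqrt ((J E δ k * ‖ft a k‖ ^ 2) * (J E δ (P - k) * ‖ft c (P - k)‖ ^ 2)))
          (fun k => Real.sqrt ((J E δ k * J E δ (P - k))⁻¹))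
        refine le_trans (le_of_eq ?_) (h6.trans (le_of_eq ?_))
        · congr 1
          refine Finset.sum_congr rfl fun k _ => ?_
          have j1 := hJ k
          have j2 := hJ (P - k)
          rw [← Real.sqrt_mul (by positivity)]
          have e1 : (J E δ k * ‖ft a k‖ ^ 2) * (J E δ (P - k) * ‖ft c (P - k)‖ ^ 2) *
              (J E δ k * J E δ (P - k))⁻¹ = (‖ft a k‖ * ‖ft c (P - k)‖) ^ 2 := by
            field_simp
          rw [e1, Real.sqrt_sq (by positivity)]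
        · congr 1
          · refine Finset.sum_congr rfl fun k _ => ?_
            have j1 := hJ k
            have j2 := hJ (P - k)
            exact Real.sq_sqrt (by positivity)
          · refine Finset.sum_congr rfl fun k _ => ?_
            have j1 := hJ k
            have j2 := hJ (P - k)
            exact Real.sq_sqrt (by positivity)
      have h7 : ∑ k, (J E δ k * J E δ (P - k))⁻¹ ≤ Q * NN d L := by
        have h8 := hQ (-P) (fun h => hP.1 ((Lo_neg P).1 h))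
        refine le_trans (le_of_eq ?_) h8
        refine Finset.sum_congr rfl fun k _ => ?_
        rw [← J_neg E δ (P - k)]
        congr 3
        abel
      calc ‖ft (fun x => a x * c x) P‖ ^ 2 ≤
          ((NN d L)⁻¹ * ∑ k, ‖ft a k‖ * ‖ft c (P - k)‖) ^ 2 :=
            pow_le_pow_left₀ (norm_nonneg _) h4 2
        _ = (NN d L)⁻¹ ^ 2 * (∑ k, ‖ft a k‖ * ‖ft c (P - k)‖) ^ 2 := by ring
        _ ≤ (NN d L)⁻¹ ^ 2 *
            ((∑ k, (J E δ k * ‖ft a k‖ ^ 2) * (J E δ (P - k) * ‖ft c (P - k)‖ ^ 2)) *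
              (Q * NN d L)) := by
            refine mul_le_mul_of_nonneg_left ?_ (by positivity)
            exact h5.trans (mul_le_mul_of_nonneg_left h7 hs0)
        _ = _ := by
            field_simp
  rw [h1]
  have h9 : ∑ P, ‖ft (fun x => a x * c x) P‖ ^ 2 ≤ (NN d L)⁻¹ * Q * (A * C) +
      (∑ P : T d L, lo P) * ((∑ x, a x ^ 2) * ∑ x, c x ^ 2) := by
    refine (Finset.sum_le_sum fun P _ => h3 P).trans (le_of_eq ?_)
    rw [Finset.sum_add_distrib, ← Finset.mul_sum, ← Finset.sum_mul]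
    congr 2
    rw [Finset.sum_comm, hA, Finset.sum_mul]
    refine Finset.sum_congr rfl fun k _ => ?_
    rw [← Finset.mul_sum]
    congr 1
    exact Equiv.sum_comp (Equiv.subRight k) (fun P => J E δ P * ‖ft c P‖ ^ 2)
  have hqa : q (J E δ) a = (NN d L)⁻¹ * A := rfl
  have hqc : q (J E δ) c = (NN d L)⁻¹ * C := rfl
  have h10 := mul_le_mul_of_nonneg_left h9 (inv_nonneg.2 hN.le)
  refine h10.trans (le_of_eq ?_)
  rw [hqa, hqc]
  unfold lwh
  ring

/-- the bilinear estimate for complex functions -/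
theorem bil (E δ Q : ℝ) (hδ : 0 < δ) (hQ0 : 0 ≤ Q)
    (hQ : ∀ P : T d L, ¬ Lo P → ∑ k : T d L, (J E δ k * J E δ (k + P))⁻¹ ≤ Q * NN d L)
    (u w : T d L → ℂ) :
    ∑ x, ‖u x‖ ^ 2 * ‖w x‖ ^ 2 ≤ Q * (qc (J E δ) u * qc (J E δ) w) +
      lwh d L * (nsq u * nsq w) := by
  have hn : ∀ z : ℂ, ‖z‖ ^ 2 = z.re ^ 2 + z.im ^ 2 := fun z => by
    rw [← Complex.normSq_eq_norm_sq, Complex.normSq_apply]
    ring
  have h1 := bilR E δ Q hδ hQ0 hQ (fun x => (u x).re) (fun x => (w x).re)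
  have h2 := bilR E δ Q hδ hQ0 hQ (fun x => (u x).re) (fun x => (w x).im)
  have h3 := bilR E δ Q hδ hQ0 hQ (fun x => (u x).im) (fun x => (w x).re)
  have h4 := bilR E δ Q hδ hQ0 hQ (fun x => (u x).im) (fun x => (w x).im)
  have h5 : ∑ x, ‖u x‖ ^ 2 * ‖w x‖ ^ 2 = ∑ x, (u x).re ^ 2 * (w x).re ^ 2 +
      ∑ x, (u x).re ^ 2 * (w x).im ^ 2 + ∑ x, (u x).im ^ 2 * (w x).re ^ 2 +
      ∑ x, (u x).im ^ 2 * (w x).im ^ 2 := by
    rw [← Finset.sum_add_distrib, ← Finset.sum_add_distrib, ← Finset.sum_add_distrib]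
    refine Finset.sum_congr rfl fun x _ => ?_
    rw [hn, hn]
    ring
  rw [h5, nsq_split, nsq_split]
  unfold qc
  nlinarith

end Run7.h442.HD
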