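import Pool.Agent.Run7.h442.HD.Apr

/-! The data of the estimates exist in high dimension. -/

set_option autoImplicit false
set_option linter.unusedSectionVars false

open scoped BigOperators Matrix ComplexConjugate
open MeasureTheory

namespace Run7.h442.HD

open Pool.Agent.Run7.h47 hiding mm mf ze V1 V2 ff
open Pool.Agent.W788.MFP.Four Pool.Agent.W788.BK
open Pool.Agent.W788.MFP.Form
open Run7.h108.GL (Law Γ gz mm mf ze V1 V2 ff ww a0)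
open Run7.h108.GL.HD

theorem small_rp (a : ℝ) (ha : 0 < a) (ε : ℝ) (hε : 0 < ε) : ∃ d1 : ℕ, ∀ d : ℕ, d1 ≤ d →
    (d : ℝ) ^ (-a) ≤ ε := by
  have h1 : Filter.Tendsto (fun x : ℝ => x ^ (-a)) Filter.atTop (nhds 0) :=
    tendsto_rpow_neg_atTop ha
  have h2 := (h1.comp tendsto_natCast_atTop_atTop).eventually (ge_mem_nhds hε)
  obtain ⟨d1, h3⟩ := Filter.eventually_atTop.1 h2
  exact ⟨d1, fun d hd => h3 d hd⟩

/-- the free resolvent on the axis of the grid -/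
theorem er_small {d L : ℕ} [NeZero L] (hd : 8 ≤ d) (hL : (d : ℝ) ^ 8 ≤ L) {y ξ : ℝ} (hξ : 0 < ξ)
    (hξ1 : ξ ≤ 1) (hx : ξ ^ 200 * d = 1) (hy : ξ ^ 101 ≤ y) : er d L y ≤ ξ ^ 100 := by
  have hdR : (8 : ℝ) ≤ d := by exact_mod_cast hd
  have hd0 : (0 : ℝ) < d := by linarith
  have hL0 : (0 : ℝ) < L := lt_of_lt_of_le (by positivity) hL
  have hpi := Real.pi_lt_four
  have hpi0 := Real.pi_pos
  have hx0 : 0 < ξ ^ 101 := by positivity
  have hy0 : 0 < y := hx0.trans_le hy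
  unfold er
  have h1 : 12 * (16 * Real.pi * d / L) / (y / 2) ^ 2 ≤
      12 * (16 * 4 * d / (d : ℝ) ^ 8) / (ξ ^ 101 / 2) ^ 2 := by gcongr
  refine h1.trans ?_
  have e1 : 12 * (16 * 4 * d / (d : ℝ) ^ 8) / (ξ ^ 101 / 2) ^ 2 =
      3072 / ((d : ℝ) ^ 7 * ξ ^ 202) := by
    field_simp
    ring
  rw [e1, div_le_iff₀ (by positivity)]
  have e2 : ξ ^ 100 * ((d : ℝ) ^ 7 * ξ ^ 202) = (ξ ^ 200 * d) ^ 1 * (d : ℝ) ^ 6 * ξ ^ 102 := by
    ring
  rw [e2, hx, one_pow, one_mul]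
  have e3 : (d : ℝ) ^ 6 * ξ ^ 200 = (d : ℝ) ^ 5 := by
    calc (d : ℝ) ^ 6 * ξ ^ 200 = (ξ ^ 200 * d) * (d : ℝ) ^ 5 := by ring
      _ = _ := by rw [hx, one_mul]
  have e4 : ξ ^ 200 ≤ ξ ^ 102 := pow_le_pow_of_le_one hξ.le hξ1 (by norm_num)
  calc (3072 : ℝ) ≤ 8 ^ 5 := by norm_num
    _ ≤ (d : ℝ) ^ 5 := by gcongr
    _ = (d : ℝ) ^ 6 * ξ ^ 200 := e3.symm
    _ ≤ _ := by gcongr

theorem exp_small {d : ℕ} (hd : (720 : ℝ) * 16 ^ 6 ≤ d) {ξ : ℝ} (hx : ξ ^ 200 * d = 1) :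
    Real.exp (-(d / 16 : ℝ)) ≤ ξ ^ 1000 := by
  have hd0 : (0 : ℝ) < d := lt_of_lt_of_le (by norm_num) hd
  have h1 := Real.pow_div_factorial_le_exp (d / 16 : ℝ) (by positivity) 6
  have h2 : (Nat.factorial 6 : ℝ) = 720 := by norm_num [Nat.factorial]
  rw [h2] at h1
  have h3 : (d : ℝ) ^ 5 ≤ Real.exp (d / 16) := by
    refine le_trans ?_ h1
    rw [le_div_iff₀ (by norm_num), div_pow, le_div_iff₀ (by positivity)]
    calc (d : ℝ) ^ 5 * 720 * 16 ^ 6 = (720 * 16 ^ 6) * (d : ℝ) ^ 5 := by ring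
      _ ≤ d * (d : ℝ) ^ 5 := by gcongr
      _ = _ := by ring
  have h4 : ξ ^ 1000 * (d : ℝ) ^ 5 = 1 := by
    calc ξ ^ 1000 * (d : ℝ) ^ 5 = (ξ ^ 200 * d) ^ 5 := by ring
      _ = 1 := by rw [hx, one_pow]
  have h5 : Real.exp (-(d / 16 : ℝ)) * Real.exp (d / 16) = 1 := by
    rw [← Real.exp_add]
    simp
  have h6 : (0 : ℝ) < (d : ℝ) ^ 5 := by positivity
  have h7 : 0 < Real.exp (-(d / 16 : ℝ)) := Real.exp_pos _
  have h8 : Real.exp (-(d / 16 : ℝ)) * (d : ℝ) ^ 5 ≤ ξ ^ 1000 * (d : ℝ) ^ 5 := by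
    rw [h4, ← h5]
    gcongr
  exact le_of_mul_le_mul_right h8 h6

/-- **the data exist** -/
theorem dx (hLow : S_LOW) (hFej : S_FEJ) (hFree : S_FREE) (hGrid : S_GRID) : S_DX := by
  intro K hK
  obtain ⟨C1, hC1, d1, H1⟩ := hFej
  obtain ⟨C2, hC2, d2, H2⟩ := hFree
  obtain ⟨K', hK'⟩ : ∃ K', K' = max K (1 + C2) := ⟨_, rfl⟩
  have hKK : K ≤ K' := hK' ▸ le_max_left _ _
  have hK2 : 1 + C2 ≤ K' := hK' ▸ le_max_right _ _
  have hK1 : 1 ≤ K' := hK.trans hKK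
  have hK0 : 0 < K' := by linarith
  obtain ⟨d3, H3⟩ := small_rp (1 / 200) (by norm_num) ((10 ^ 9 * K' ^ 20)⁻¹) (by positivity)
  obtain ⟨d4, H4⟩ := small_rp (1 / 400) (by norm_num) ((640000 * C1)⁻¹) (by positivity)
  obtain ⟨d5, H5⟩ := exists_nat_ge ((720 : ℝ) * 16 ^ 6)
  refine ⟨K', hKK, max (max d1 d2) (max (max d3 d4) (max d5 8)), ?_⟩
  intro _ d L _ hd hL hb σ E hσ
  have hd1 : d1 ≤ d := (le_max_left _ _).trans ((le_max_left _ _).trans hd)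
  have hd2 : d2 ≤ d := (le_max_right _ _).trans ((le_max_left _ _).trans hd)
  have hd3 : d3 ≤ d :=
    (le_max_left _ _).trans ((le_max_left _ _).trans ((le_max_right _ _).trans hd))
  have hd4 : d4 ≤ d :=
    (le_max_right _ _).trans ((le_max_left _ _).trans ((le_max_right _ _).trans hd))
  have hd5 : d5 ≤ d :=
    (le_max_left _ _).trans ((le_max_right _ _).trans ((le_max_right _ _).trans hd))
  have hd8 : 8 ≤ d :=
    (le_max_right _ _).trans ((le_max_right _ _).trans ((le_max_right _ _).trans hd))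
  have hdR : (8 : ℝ) ≤ d := by exact_mod_cast hd8
  have hd0 : (0 : ℝ) < d := by linarith
  have hd720 : (720 : ℝ) * 16 ^ 6 ≤ d := H5.trans (by exact_mod_cast hd5)
  have hx3 := H3 d hd3
  have hx4 := H4 d hd4
  have e100 := xi100 (d := d) (by omega)
  obtain ⟨ξ, hξd⟩ : ∃ ξ, ξ = (d : ℝ) ^ (-(1 / 200 : ℝ)) := ⟨_, rfl⟩
  rw [← hξd] at hx3 e100 ⊢
  have hξ : 0 < ξ := by rw [hξd]; positivity
  have hsm : 10 ^ 9 * K' ^ 20 * ξ ≤ 1 := by
    rwa [← le_inv_mul_iff₀ (by positivity), mul_one]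
  have hξ1 : ξ ≤ 1 := by
    rw [hξd]
    exact Real.rpow_le_one_of_one_le_of_nonpos (by linarith) (by norm_num)
  have hx200 : ξ ^ 200 * d = 1 := by
    have e1 : ξ ^ 200 = (ξ ^ 100) ^ 2 := by rw [← pow_mul]
    rw [e1, e100, inv_pow, Real.sq_sqrt hd0.le, inv_mul_cancel₀ hd0.ne']
  -- logarithms
  obtain ⟨ν, hν⟩ : ∃ ν, ν = (d : ℝ) ^ (-(1 / 400 : ℝ)) := ⟨_, rfl⟩
  rw [← hν] at hx4
  have hν0 : 0 < ν := by rw [hν]; positivity
  have hνξ : ξ = ν * ν := by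
    rw [hξd, hν, ← Real.rpow_add hd0]
    norm_num
  have hν1 : ν ≤ 1 := by
    rw [hν]
    exact Real.rpow_le_one_of_one_le_of_nonpos (by linarith) (by norm_num)
  have hlog0 : 0 ≤ Real.log d := Real.log_nonneg (by linarith)
  have hlog1 : (1 : ℝ) ≤ Real.log d := by
    rw [Real.le_log_iff_exp_le hd0]
    have := Real.exp_one_lt_d9
    linarith
  have hlog2 : Real.log d ^ 2 * ν ≤ 640000 := by
    have h1 := Real.log_le_rpow_div hd0.le (show (0 : ℝ) < 1 / 800 by norm_num)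
    have h2 : Real.log d ≤ 800 * (d : ℝ) ^ (1 / 800 : ℝ) := by
      refine h1.trans (le_of_eq ?_)
      ring
    have h3 : ((d : ℝ) ^ (1 / 800 : ℝ)) ^ 2 * ν = 1 := by
      rw [hν, ← Real.rpow_natCast, ← Real.rpow_mul hd0.le, ← Real.rpow_add hd0]
      norm_num
    calc Real.log d ^ 2 * ν ≤ (800 * (d : ℝ) ^ (1 / 800 : ℝ)) ^ 2 * ν := by gcongr
      _ = 640000 * (((d : ℝ) ^ (1 / 800 : ℝ)) ^ 2 * ν) := by ring
      _ = 640000 := by rw [h3, mul_one]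
  have hC2ξ : C1 * Real.log d ^ 2 * ξ ≤ 1 := by
    calc C1 * Real.log d ^ 2 * ξ = C1 * (Real.log d ^ 2 * ν) * ν := by rw [hνξ]; ring
      _ ≤ C1 * 640000 * (640000 * C1)⁻¹ := by gcongr
      _ = 1 := by field_simp
  have hC1ξ : C1 * Real.log d * ξ ≤ 1 := by
    refine le_trans ?_ hC2ξ
    have : Real.log d ≤ Real.log d ^ 2 := by nlinarith
    gcongr
  -- the shells
  have hL6 : (d : ℝ) ^ 6 ≤ L := le_trans (pow_le_pow_right₀ (by linarith) (by norm_num)) hL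
  have hρ : (Real.sqrt d)⁻¹ ≤ ξ ^ 100 := e100.ge
  obtain ⟨g1, g2⟩ := H1 d L hd1 hL6 E (ξ ^ 100) hρ
  have hsd : (Real.sqrt d)⁻¹ = ξ ^ 100 := e100.symm
  have hdi : (d : ℝ)⁻¹ = ξ ^ 200 := by
    rw [inv_eq_one_div, div_eq_iff hd0.ne']
    exact hx200.symm
  have hL3 : 3 ≤ L := by
    have h1 : (8 : ℝ) ^ 8 ≤ L := le_trans (by gcongr) hL
    have h2 : (3 : ℝ) ≤ L := le_trans (by norm_num) h1
    exact_mod_cast h2
  have hbK : Law.b ≤ K' := hb.trans hKK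
  have hσK : |σ| ≤ K' := hσ.trans hKK
  have hb0 := Law.hb (self := ‹Law›)
  have hsb : |σ| * Law.b ≤ K' ^ 2 := by
    rw [sq]
    exact mul_le_mul hσK hbK hb0.le hK0.le
  refine ⟨hK1, hbK, hσK, hξ, hsm, ⟨hb0, by positivity, ?_, by linarith, by positivity,
    fun P hP => ?_, by positivity, ?_, ?_⟩, ?_, fun ζ hζ1 hζ2 => ?_, hGrid⟩
  · have h1 : ξ ^ 100 ≤ 1 := pow_le_one₀ hξ.le hξ1
    nlinarith
  · refine (g2 P hP).trans ?_
    have hNN := (NN_pos (d := d) (L := L)).le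
    refine mul_le_mul_of_nonneg_right ?_ hNN
    rw [div_eq_mul_inv, hdi]
    calc C1 * Real.log d ^ 2 * ξ ^ 200 = (C1 * Real.log d ^ 2 * ξ) * ξ ^ 199 := by ring
      _ ≤ 1 * ξ ^ 199 := by gcongr
      _ = _ := one_mul _
  · refine g1.trans ?_
    rw [div_eq_mul_inv, hsd]
    calc C1 * Real.log d * ξ ^ 100 = (C1 * Real.log d * ξ) * ξ ^ 99 := by ring
      _ ≤ 1 * ξ ^ 99 := by gcongr
      _ = _ := one_mul _
  · have h1 : ξ ^ 99 ≤ ξ ^ 1 := pow_le_pow_of_le_one hξ.le hξ1 (by norm_num)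
    rw [pow_one] at h1
    have h2 : K' ^ 2 ≤ K' ^ 20 := pow_le_pow_right₀ hK1 (by norm_num)
    have h3 : 4 * (K' ^ 2 * ξ) ≤ 1 := by
      refine le_trans ?_ hsm
      calc 4 * (K' ^ 2 * ξ) ≤ 10 ^ 9 * (K' ^ 20 * ξ) := by
            gcongr
            norm_num
        _ = _ := by ring
    calc |σ| * Law.b * ξ ^ 99 ≤ K' ^ 2 * ξ := by gcongr
      _ ≤ 1 / 4 := by linarith
  · exact (hLow d L hL3).trans (exp_small hd720 hx200)
  · have hζ0 : 0 < ζ.im := lt_of_lt_of_le (by positivity) hζ1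
    refine (H2 d L hd2 ζ hζ0 hζ2).1.trans ?_
    have h1 := er_small hd8 hL hξ hξ1 hx200 hζ1
    rw [div_eq_mul_inv, hsd]
    calc er d L ζ.im + C2 * ξ ^ 100 ≤ ξ ^ 100 + C2 * ξ ^ 100 := by linarith
      _ = (1 + C2) * ξ ^ 100 := by ring
      _ ≤ K' * ξ ^ 100 := by gcongr

end Run7.h442.HD
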