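import Pool.Agent.Run7.h442.HD.Iface

/-! High dimension, coupling of order one: laws with growing support, laws with all moments. -/

set_option autoImplicit false
set_option linter.unusedSectionVars false

open scoped BigOperators Matrix
open MeasureTheory

namespace Run7.h442.HD

open Pool.Agent.Run7.h47 hiding mm mf ze V1 V2 ff
open Pool.Agent.W788.MFP.Four Pool.Agent.W788.BK
open Pool.Agent.W788.MFP.Form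
open Run7.h108.GL (Law Γ gz mm mf ze V1 V2 ff ww a0)
open Pool.Agent.H4R2.LO (Zd)

/-- the limit of the ladder on the torus, laws with growing support -/
def S_TORB : Prop := ∀ K A M ε : ℝ, 1 ≤ K → 0 ≤ M → 0 < ε → ∃ w : ℝ, 0 < w ∧ w ≤ 1 ∧ ∃ d0 : ℕ,
  ∀ [Law] (d L : ℕ) [NeZero L], d0 ≤ d → (d : ℝ) ^ 8 ≤ L → Law.b ≤ (d : ℝ) ^ (1 / 10000 : ℝ) →
  ∀ σ E t : ℝ, 1 / K ≤ |σ| → |σ| ≤ K →
  |E| ≤ A * Real.sqrt d → (d : ℝ) ^ (-(1 / 2 + 1 / 200 : ℝ)) ≤ t → t * Real.sqrt d ≤ w →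
  (∀ p : T d L, V2 σ E t p ≤ ε * (Real.sqrt d * t)) ∧
  ∀ j : Fin d → ℤ, sz L j ≤ M * Real.sqrt (t / Real.sqrt d) →
  ‖(Real.sqrt d * t : ℝ) * ff σ E t (mom d L j) -
    ((Pr (Ga d E) ((∑ i, ang L j i ^ 2) * Real.sqrt d / (σ ^ 2 * t)) : ℝ) : ℂ)‖ ≤ ε

/-- quantum diffusion in high dimension, laws with growing support -/
def S_QDB : Prop := ∀ K A M ε : ℝ, 1 ≤ K → 0 ≤ M → 0 < ε → ∃ w : ℝ, 0 < w ∧ w ≤ 1 ∧ ∃ d0 : ℕ,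
  ∀ [Law] (d : ℕ), d0 ≤ d → Law.b ≤ (d : ℝ) ^ (1 / 10000 : ℝ) →
  ∀ σ E t : ℝ, 1 / K ≤ |σ| → |σ| ≤ K →
  |E| ≤ A * Real.sqrt d → (d : ℝ) ^ (-(1 / 2 + 1 / 200 : ℝ)) ≤ t → t * Real.sqrt d ≤ w →
  ∀ P : Fin d → ℝ, ∑ i, |P i| ≤ M → ∀ G : (Zd d → ℝ) → Zd d → ℂ,
  (∀ ω, IsGreen d σ ((E : ℂ) + (t : ℂ) * Complex.I) ω (G ω)) →
  Integrable (fun ω => ‖(Real.sqrt d * t : ℝ) * Qz (fun i => |σ| * Real.sqrt (t / Real.sqrt d) * P i)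
      (G ω) - ((Pr (Ga d E) (∑ i, P i ^ 2) : ℝ) : ℂ)‖ ^ 2)
    (Measure.infinitePi fun _ : Zd d => Law.μ) ∧
  ∫ ω, ‖(Real.sqrt d * t : ℝ) * Qz (fun i => |σ| * Real.sqrt (t / Real.sqrt d) * P i)
      (G ω) - ((Pr (Ga d E) (∑ i, P i ^ 2) : ℝ) : ℂ)‖ ^ 2
    ∂(Measure.infinitePi fun _ : Zd d => Law.μ) ≤ ε

/-- **quantum diffusion in high dimension, all laws with finite moments** (mean zero, variance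
one; for instance the standard Gaussian law) -/
def S_QDG : Prop := ∀ (μ : Measure ℝ) [IsProbabilityMeasure μ],
  (∀ n : ℕ, Integrable (fun x => x ^ n) μ) → ∫ x, x ∂μ = 0 → ∫ x, x ^ 2 ∂μ = 1 →
  ∀ K A M ε : ℝ, 1 ≤ K → 0 ≤ M → 0 < ε → ∃ w : ℝ, 0 < w ∧ w ≤ 1 ∧ ∃ d0 : ℕ,
  ∀ d : ℕ, d0 ≤ d → ∀ σ E t : ℝ, 1 / K ≤ |σ| → |σ| ≤ K →
  |E| ≤ A * Real.sqrt d → (d : ℝ) ^ (-(1 / 2 + 1 / 200 : ℝ)) ≤ t → t * Real.sqrt d ≤ w →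
  ∀ P : Fin d → ℝ, ∑ i, |P i| ≤ M → ∀ G : (Zd d → ℝ) → Zd d → ℂ,
  (∀ ω, IsGreen d σ ((E : ℂ) + (t : ℂ) * Complex.I) ω (G ω)) →
  Integrable (fun ω => ‖(Real.sqrt d * t : ℝ) * Qz (fun i => |σ| * Real.sqrt (t / Real.sqrt d) * P i)
      (G ω) - ((Pr (Ga d E) (∑ i, P i ^ 2) : ℝ) : ℂ)‖ ^ 2)
    (Measure.infinitePi fun _ : Zd d => μ) ∧
  ∫ ω, ‖(Real.sqrt d * t : ℝ) * Qz (fun i => |σ| * Real.sqrt (t / Real.sqrt d) * P i)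
      (G ω) - ((Pr (Ga d E) (∑ i, P i ^ 2) : ℝ) : ℂ)‖ ^ 2
    ∂(Measure.infinitePi fun _ : Zd d => μ) ≤ ε

end Run7.h442.HD
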