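import Pool.Agent.Run7.h442.HD.DX
import Pool.Agent.Run7.h442.HD.Iface2
import Pool.Agent.Run7.h842.HD.LOW
import Pool.Agent.Run7.h842.HD.MOM
import Pool.Agent.Run7.h842.HD.GRID
import Pool.Agent.Run7.h216.HD_WJ
import Pool.Agent.Run7.h216.HD_FREE
import Pool.Agent.Run7.h216.HD_ASY
import Pool.Agent.Run7.h304.HD_FEJ
import Pool.Agent.Run7.h108.HD.CC
import Pool.Agent.Run7.h651.HD_LAD

/-! Laws with growing support: the data, the estimates, the torus. -/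

set_option autoImplicit false
set_option linter.unusedSectionVars false

open scoped BigOperators Matrix ComplexConjugate
open MeasureTheory

namespace Run7.h442.HD

open Pool.Agent.Run7.h47 hiding mm mf ze V1 V2 ff
open Pool.Agent.W788.MFP.Four Pool.Agent.W788.BK
open Pool.Agent.W788.MFP.Form
open Run7.h108.GL (Law Γ gz mm mf ze V1 V2 ff ww a0)
open Run7.h108.GL.HD

/-- the data exist -/
def S_DXB : Prop := ∀ K : ℝ, 1 ≤ K → ∃ d0 : ℕ, ∀ [Law] (d L : ℕ) [NeZero L],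
  d0 ≤ d → (d : ℝ) ^ 8 ≤ L → Law.b ≤ (d : ℝ) ^ (1 / 10000 : ℝ) → ∀ σ E : ℝ, |σ| ≤ K →
  ∃ K' : ℝ, Dx d L K' σ E ((d : ℝ) ^ (-(1 / 200 : ℝ)))

/-- **the data exist** -/
theorem dxB (hLow : S_LOW) (hFej : S_FEJ) (hFree : S_FREE) (hGrid : S_GRID) : S_DXB := by
  intro K hK
  obtain ⟨C1, hC1, d1, H1⟩ := hFej
  obtain ⟨C2, hC2, d2, H2⟩ := hFree
  obtain ⟨K1, hK1d⟩ : ∃ K1, K1 = max K (1 + C2) := ⟨_, rfl⟩
  have hKK1 : K ≤ K1 := hK1d ▸ le_max_left _ _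
  have hK21 : 1 + C2 ≤ K1 := hK1d ▸ le_max_right _ _
  have hK10 : 0 < K1 := by linarith
  obtain ⟨d3, H3⟩ := small_rp (1 / 200) (by norm_num) ((2 * 10 ^ 9 * K1 ^ 20)⁻¹) (by positivity)
  obtain ⟨d6, H6⟩ := small_rp (3 / 1000) (by norm_num) ((2 * 10 ^ 9)⁻¹) (by positivity)
  obtain ⟨d4, H4⟩ := small_rp (1 / 400) (by norm_num) ((640000 * C1)⁻¹) (by positivity)
  obtain ⟨d5, H5⟩ := exists_nat_ge ((720 : ℝ) * 16 ^ 6)
  refine ⟨max (max (max d1 d2) (max (max d3 d4) (max d5 8))) d6, ?_⟩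
  intro _ d L _ hdd hL hb σ E hσ
  have hd : max (max d1 d2) (max (max d3 d4) (max d5 8)) ≤ d := (le_max_left _ _).trans hdd
  have hd6 : d6 ≤ d := (le_max_right _ _).trans hdd
  obtain ⟨β, hβ⟩ : ∃ β, β = (d : ℝ) ^ (1 / 10000 : ℝ) := ⟨_, rfl⟩
  rw [← hβ] at hb
  obtain ⟨K', hK'⟩ : ∃ K', K' = max K1 β := ⟨_, rfl⟩
  have hK1' : K1 ≤ K' := hK' ▸ le_max_left _ _
  have hβ' : β ≤ K' := hK' ▸ le_max_right _ _
  have hKK : K ≤ K' := hKK1.trans hK1'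
  have hK2 : 1 + C2 ≤ K' := hK21.trans hK1'
  have hK1 : 1 ≤ K' := hK.trans hKK
  have hK0 : 0 < K' := by linarith
  have hd1 : d1 ≤ d := (le_max_left _ _).trans ((le_max_left _ _).trans hd)
  have hd2 : d2 ≤ d := (le_max_right _ _).trans ((le_max_left _ _).trans hd)
  have hd3 : d3 ≤ d :=
    (le_max_left _ _).trans ((le_max_left _ _).trans ((le_max_right _ _).trans hd))
  have hd4 : d4 ≤ d :=
    (le_max_right _ _).trans ((le_max_left _ _).trans ((le_max_right _ _).trans hd))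
  have hd5 : d5 ≤ d :=
    (le_max_left _ _).trans ((le_max_right _ _).trans ((le_max_right _ _).trans hd))
  have hd8 : 8 ≤ d :=
    (le_max_right _ _).trans ((le_max_right _ _).trans ((le_max_right _ _).trans hd))
  have hdR : (8 : ℝ) ≤ d := by exact_mod_cast hd8
  have hd0 : (0 : ℝ) < d := by linarith
  have hd720 : (720 : ℝ) * 16 ^ 6 ≤ d := H5.trans (by exact_mod_cast hd5)
  have hx3 := H3 d hd3
  have hx4 := H4 d hd4
  have e100 := xi100 (d := d) (by omega)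
  obtain ⟨ξ, hξd⟩ : ∃ ξ, ξ = (d : ℝ) ^ (-(1 / 200 : ℝ)) := ⟨_, rfl⟩
  rw [← hξd] at hx3 e100 ⊢
  have hξ : 0 < ξ := by rw [hξd]; positivity
  have hx6 := H6 d hd6
  have hβ0 : 0 < β := by rw [hβ]; positivity
  have hsm : 10 ^ 9 * K' ^ 20 * ξ ≤ 1 := by
    have g1 : 2 * 10 ^ 9 * K1 ^ 20 * ξ ≤ 1 := by
      rwa [← le_inv_mul_iff₀ (by positivity), mul_one]
    have g2 : 2 * 10 ^ 9 * (d : ℝ) ^ (-(3 / 1000) : ℝ) ≤ 1 := by
      rwa [← le_inv_mul_iff₀ (by positivity), mul_one]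
    have g3 : β ^ 20 * ξ = (d : ℝ) ^ (-(3 / 1000) : ℝ) := by
      rw [hβ, hξd, ← Real.rpow_natCast, ← Real.rpow_mul hd0.le, ← Real.rpow_add hd0]
      norm_num
    have g4 : K' ^ 20 ≤ K1 ^ 20 + β ^ 20 := by
      rcases max_cases K1 β with h | h
      · rw [hK', h.1]
        have : 0 < β ^ 20 := by positivity
        linarith
      · rw [hK', h.1]
        have : 0 < K1 ^ 20 := by positivity
        linarith
    calc 10 ^ 9 * K' ^ 20 * ξ ≤ 10 ^ 9 * (K1 ^ 20 + β ^ 20) * ξ := by gcongr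
      _ = (2 * 10 ^ 9 * K1 ^ 20 * ξ) / 2 + (2 * 10 ^ 9 * (β ^ 20 * ξ)) / 2 := by ring
      _ ≤ 1 / 2 + 1 / 2 := by
          rw [g3]
          gcongr
      _ = 1 := by norm_num
  have hξ1 : ξ ≤ 1 := by
    rw [hξd]
    exact Real.rpow_le_one_of_one_le_of_nonpos (by linarith) (by norm_num)
  have hx200 : ξ ^ 200 * d = 1 := by
    have e1 : ξ ^ 200 = (ξ ^ 100) ^ 2 := by rw [← pow_mul]
    rw [e1, e100, inv_pow, Real.sq_sqrt hd0.le, inv_mul_cancel₀ hd0.ne']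
  -- logarithms
  obtain ⟨ν, hν⟩ : ∃ ν, ν = (d : ℝ) ^ (-(1 / 400 : ℝ)) := ⟨_, rfl⟩
  rw [← hν] at hx4
  have hν0 : 0 < ν := by rw [hν]; positivity
  have hνξ : ξ = ν * ν := by
    rw [hξd, hν, ← Real.rpow_add hd0]
    norm_num
  have hν1 : ν ≤ 1 := by
    rw [hν]
    exact Real.rpow_le_one_of_one_le_of_nonpos (by linarith) (by norm_num)
  have hlog0 : 0 ≤ Real.log d := Real.log_nonneg (by linarith)
  have hlog1 : (1 : ℝ) ≤ Real.log d := by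
    rw [Real.le_log_iff_exp_le hd0]
    have := Real.exp_one_lt_d9
    linarith
  have hlog2 : Real.log d ^ 2 * ν ≤ 640000 := by
    have h1 := Real.log_le_rpow_div hd0.le (show (0 : ℝ) < 1 / 800 by norm_num)
    have h2 : Real.log d ≤ 800 * (d : ℝ) ^ (1 / 800 : ℝ) := by
      refine h1.trans (le_of_eq ?_)
      ring
    have h3 : ((d : ℝ) ^ (1 / 800 : ℝ)) ^ 2 * ν = 1 := by
      rw [hν, ← Real.rpow_natCast, ← Real.rpow_mul hd0.le, ← Real.rpow_add hd0]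
      norm_num
    calc Real.log d ^ 2 * ν ≤ (800 * (d : ℝ) ^ (1 / 800 : ℝ)) ^ 2 * ν := by gcongr
      _ = 640000 * (((d : ℝ) ^ (1 / 800 : ℝ)) ^ 2 * ν) := by ring
      _ = 640000 := by rw [h3, mul_one]
  have hC2ξ : C1 * Real.log d ^ 2 * ξ ≤ 1 := by
    calc C1 * Real.log d ^ 2 * ξ = C1 * (Real.log d ^ 2 * ν) * ν := by rw [hνξ]; ring
      _ ≤ C1 * 640000 * (640000 * C1)⁻¹ := by gcongr
      _ = 1 := by field_simp
  have hC1ξ : C1 * Real.log d * ξ ≤ 1 := by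
    refine le_trans ?_ hC2ξ
    have : Real.log d ≤ Real.log d ^ 2 := by nlinarith
    gcongr
  -- the shells
  have hL6 : (d : ℝ) ^ 6 ≤ L := le_trans (pow_le_pow_right₀ (by linarith) (by norm_num)) hL
  have hρ : (Real.sqrt d)⁻¹ ≤ ξ ^ 100 := e100.ge
  obtain ⟨g1, g2⟩ := H1 d L hd1 hL6 E (ξ ^ 100) hρ
  have hsd : (Real.sqrt d)⁻¹ = ξ ^ 100 := e100.symm
  have hdi : (d : ℝ)⁻¹ = ξ ^ 200 := by
    rw [inv_eq_one_div, div_eq_iff hd0.ne']
    exact hx200.symm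
  have hL3 : 3 ≤ L := by
    have h1 : (8 : ℝ) ^ 8 ≤ L := le_trans (by gcongr) hL
    have h2 : (3 : ℝ) ≤ L := le_trans (by norm_num) h1
    exact_mod_cast h2
  have hbK : Law.b ≤ K' := hb.trans hβ'
  have hσK : |σ| ≤ K' := hσ.trans hKK
  have hb0 := Law.hb (self := ‹Law›)
  have hsb : |σ| * Law.b ≤ K' ^ 2 := by
    rw [sq]
    exact mul_le_mul hσK hbK hb0.le hK0.le
  refine ⟨K', hK1, hbK, hσK, hξ, hsm, ⟨hb0, by positivity, ?_, by linarith, by positivity,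
    fun P hP => ?_, by positivity, ?_, ?_⟩, ?_, fun ζ hζ1 hζ2 => ?_, hGrid⟩
  · have h1 : ξ ^ 100 ≤ 1 := pow_le_one₀ hξ.le hξ1
    nlinarith
  · refine (g2 P hP).trans ?_
    have hNN := (NN_pos (d := d) (L := L)).le
    refine mul_le_mul_of_nonneg_right ?_ hNN
    rw [div_eq_mul_inv, hdi]
    calc C1 * Real.log d ^ 2 * ξ ^ 200 = (C1 * Real.log d ^ 2 * ξ) * ξ ^ 199 := by ring
      _ ≤ 1 * ξ ^ 199 := by gcongr
      _ = _ := one_mul _
  · refine g1.trans ?_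
    rw [div_eq_mul_inv, hsd]
    calc C1 * Real.log d * ξ ^ 100 = (C1 * Real.log d * ξ) * ξ ^ 99 := by ring
      _ ≤ 1 * ξ ^ 99 := by gcongr
      _ = _ := one_mul _
  · have h1 : ξ ^ 99 ≤ ξ ^ 1 := pow_le_pow_of_le_one hξ.le hξ1 (by norm_num)
    rw [pow_one] at h1
    have h2 : K' ^ 2 ≤ K' ^ 20 := pow_le_pow_right₀ hK1 (by norm_num)
    have h3 : 4 * (K' ^ 2 * ξ) ≤ 1 := by
      refine le_trans ?_ hsm
      calc 4 * (K' ^ 2 * ξ) ≤ 10 ^ 9 * (K' ^ 20 * ξ) := by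
            gcongr
            norm_num
        _ = _ := by ring
    calc |σ| * Law.b * ξ ^ 99 ≤ K' ^ 2 * ξ := by gcongr
      _ ≤ 1 / 4 := by linarith
  · exact (hLow d L hL3).trans (exp_small hd720 hx200)
  · have hζ0 : 0 < ζ.im := lt_of_lt_of_le (by positivity) hζ1
    refine (H2 d L hd2 ζ hζ0 hζ2).1.trans ?_
    have h1 := er_small hd8 hL hξ hξ1 hx200 hζ1
    rw [div_eq_mul_inv, hsd]
    calc er d L ζ.im + C2 * ξ ^ 100 ≤ ξ ^ 100 + C2 * ξ ^ 100 := by linarith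
      _ = (1 + C2) * ξ ^ 100 := by ring
      _ ≤ K' * ξ ^ 100 := by gcongr

/-- **the limit of the ladder on the torus, laws with growing support** -/
theorem torB (hM : S_MOM) (hC : S_CC) (hD : S_DXB) (hL : S_LAD) : S_TORB := by
  intro K A M ε hK hM0 hε
  obtain ⟨w1, hw1, d1, H1⟩ := hL K A M ε hK hM0 hε
  obtain ⟨d2, H2⟩ := hD K hK
  obtain ⟨η, hη⟩ : ∃ η, η = min w1 ε := ⟨_, rfl⟩
  have hη0 : 0 < η := hη ▸ lt_min hw1 hε
  obtain ⟨d3, H3⟩ := small_xi η hη0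
  refine ⟨min w1 1, lt_min hw1 one_pos, min_le_right _ _, max (max d1 d2) (max d3 1), ?_⟩
  intro _ d L _ hd hL hb σ E t hσ1 hσ2 hE ht1 ht2
  have hd1 : d1 ≤ d := (le_max_left _ _).trans ((le_max_left _ _).trans hd)
  have hd2 : d2 ≤ d := (le_max_right _ _).trans ((le_max_left _ _).trans hd)
  have hd3 : d3 ≤ d := (le_max_left _ _).trans ((le_max_right _ _).trans hd)
  have hd4 : 1 ≤ d := (le_max_right _ _).trans ((le_max_right _ _).trans hd)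
  have hdR : (1 : ℝ) ≤ d := by exact_mod_cast hd4
  have hs : 0 < Real.sqrt d := Real.sqrt_pos.2 (by linarith)
  have ht0 : 0 < t := lt_of_lt_of_le (Real.rpow_pos_of_pos (by linarith) _) ht1
  have ht3 : t ≤ (Real.sqrt d)⁻¹ := by
    rw [← one_div, le_div_iff₀ hs]
    exact ht2.trans (min_le_right _ _)
  obtain ⟨K', H⟩ := H2 d L hd2 hL hb σ E hσ2
  have hx := H3 d hd3
  have e100 := xi100 hd4
  have e101 := xi101 hd4
  have ht1' := ht1
  obtain ⟨ξ, hξd⟩ : ∃ ξ, ξ = (d : ℝ) ^ (-(1 / 200 : ℝ)) := ⟨_, rfl⟩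
  rw [← hξd] at H hx e100 e101
  rw [← e101] at ht1'
  rw [← e100] at ht3
  have hξ := H.hξ
  have hT : Tt ξ t := ⟨ht1', ht3⟩
  have hsd : Real.sqrt d = (ξ ^ 100)⁻¹ := by rw [e100, inv_inv]
  have a1 : ‖mm d L σ E t - mf d L σ E t‖ ≤ η * t := by
    refine (H.mf2 hM hC hT).trans ?_
    calc ξ ^ 106 ≤ ξ ^ 102 := pow_le_pow_of_le_one hξ.le H.x1 (by norm_num)
      _ = ξ * ξ ^ 101 := by rw [← pow_succ']
      _ ≤ η * t := by gcongr
  have a2 : V1 d L σ E t ≤ η * (Real.sqrt d * t ^ 3) := by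
    rw [hsd]
    refine (H.V1f hM hC hT).trans ?_
    have e1 : (ξ ^ 101) ^ 3 ≤ t ^ 3 := by gcongr
    have e2 : (ξ ^ 100)⁻¹ * (ξ ^ 101) ^ 3 = ξ ^ 203 := by
      rw [mul_comm, ← pow_mul]
      exact pw hξ (c := 203) (by norm_num)
    calc ξ ^ 223 ≤ ξ ^ 204 := pow_le_pow_of_le_one hξ.le H.x1 (by norm_num)
      _ = ξ * ξ ^ 203 := by rw [← pow_succ']
      _ = ξ * ((ξ ^ 100)⁻¹ * (ξ ^ 101) ^ 3) := by rw [e2]
      _ ≤ η * ((ξ ^ 100)⁻¹ * t ^ 3) := by gcongr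
  have a3 : ∀ p : T d L, V2 σ E t p ≤ η * (Real.sqrt d * t) := by
    intro p
    rw [hsd]
    refine (H.V2f hM hC hT p).trans ?_
    have e2 : (ξ ^ 100)⁻¹ * ξ ^ 101 = ξ ^ 1 := by
      rw [mul_comm]
      exact pw hξ (c := 1) (by norm_num)
    calc ξ ^ 21 ≤ ξ ^ 2 := pow_le_pow_of_le_one hξ.le H.x1 (by norm_num)
      _ = ξ * ξ ^ 1 := by rw [← pow_succ']
      _ = ξ * ((ξ ^ 100)⁻¹ * ξ ^ 101) := by rw [e2]
      _ ≤ η * ((ξ ^ 100)⁻¹ * t) := by gcongr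
  have m1 : η ≤ w1 := by rw [hη]; exact min_le_left _ _
  have m2 : η ≤ ε := by rw [hη]; exact min_le_right _ _
  refine ⟨fun p => (a3 p).trans ?_, ?_⟩
  · gcongr
  · refine H1 d L hd1 hL σ E t hσ1 hσ2 hE ?_ (ht2.trans (min_le_left _ _)) (a1.trans ?_)
      (a2.trans ?_) (fun p => (a3 p).trans ?_)
    · refine le_trans ?_ ht1
      rw [← Real.rpow_neg_one]
      exact Real.rpow_le_rpow_of_exponent_le hdR (by norm_num)
    · gcongr
    · gcongr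
    · gcongr

theorem all_torB : S_TORB :=
  torB Run7.h842.HD.mom Run7.h108.HD.main
    (dxB Run7.h842.HD.low (Run7.h304.HD.main Run7.h216.HDWJ.main)
      (Run7.h216.HDFREE.main Run7.h216.HDWJ.main) Run7.h842.HD.grid)
    (Run7.h651.HD.LAD.main (Run7.h216.HDFREE.main Run7.h216.HDWJ.main)
      (Run7.h216.HDASY.main Run7.h216.HDWJ.main))

end Run7.h442.HD
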