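import Pool.Agent.Run7.h442.HD.Bil
import Pool.Agent.Run7.h108.GL.Var2

/-! Deterministic bounds, high dimension. -/

set_option autoImplicit false
set_option linter.unusedSectionVars false

open scoped BigOperators Matrix
open MeasureTheory

namespace Run7.h108.GL.HD

open Pool.Agent.Run7.h47 hiding Hyp good
open Pool.Agent.W788.MFP.Four Pool.Agent.W788.BK
open Pool.Agent.W788.MFP.Form
open Run7.h442.HD

variable {d L : ℕ} [NeZero L]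

theorem J_mono {E ρ δ : ℝ} (hρ : 0 < ρ) (h : ρ ≤ δ) (k : T d L) : J E ρ k ≤ J E δ k := by
  have h1 := J_sq (d := d) (L := L) E ρ k
  have h2 := J_sq (d := d) (L := L) E δ k
  have h3 := J_pos (d := d) (L := L) E ρ hρ k
  have h4 := J_pos (d := d) (L := L) E δ (hρ.trans_le h) k
  refine abs_le_of_sq_le_sq' ?_ h4.le |>.2
  rw [h1, h2]
  nlinarith

theorem qc_mono {m m' : T d L → ℝ} (h : ∀ k, m k ≤ m' k) (u : T d L → ℂ) : qc m u ≤ qc m' u := by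
  unfold qc
  exact add_le_add (q_mono _ _ _ h) (q_mono _ _ _ h)

/-- the deterministic data -/
structure Dt (d L : ℕ) [NeZero L] (b σ E δ ρ Q γ : ℝ) : Prop where
  hb : 0 < b
  hρ : 0 < ρ
  hρδ : ρ ≤ δ
  hδ : 4 * (|σ| * b) ≤ δ
  hQ0 : 0 ≤ Q
  hQ : ∀ P : T d L, ¬ Lo P → ∑ k : T d L, (J E ρ k * J E ρ (k + P))⁻¹ ≤ Q * NN d L
  hγ : 0 < γ
  hg : gz d L E ρ ≤ γ
  hsγ : |σ| * b * γ ≤ 1 / 4

theorem Dt.δ0 {b σ E δ ρ Q γ : ℝ} (H : Dt d L b σ E δ ρ Q γ) : 0 < δ := H.hρ.trans_le H.hρδ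

theorem Dt.gδ {b σ E δ ρ Q γ : ℝ} (H : Dt d L b σ E δ ρ Q γ) : gz d L E δ ≤ γ := by
  refine le_trans ?_ H.hg
  unfold gz
  refine mul_le_mul_of_nonneg_left (Finset.sum_le_sum fun k _ => ?_) (inv_nonneg.2 NN_pos.le)
  exact inv_anti₀ (J_pos E ρ H.hρ k) (J_mono H.hρ H.hρδ k)

theorem sumsq_le {E δ : ℝ} (hδ : 0 < δ) (w : T d L → ℝ) :
    ∑ x, w x ^ 2 ≤ δ⁻¹ * q (J E δ) w := by
  have h1 : δ * ∑ x, w x ^ 2 ≤ q (J E δ) w := by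
    rw [sum_sq, ← q_const]
    apply q_mono
    intro k
    rw [mul_one]
    exact J_ge E δ hδ k
  rw [inv_mul_eq_div, le_div_iff₀ hδ]
  linarith

theorem formb {b E δ : ℝ} (hb : 0 < b) (hδ : 0 < δ) (V : T d L → ℝ) (hV : ∀ x, |V x| ≤ b)
    (w : T d L → ℝ) : |∑ x, V x * w x ^ 2| ≤ (b / δ) * q (J E δ) w := by
  calc |∑ x, V x * w x ^ 2| ≤ ∑ x, |V x * w x ^ 2| := Finset.abs_sum_le_sum_abs _ _
    _ ≤ ∑ x, b * w x ^ 2 := by
        refine Finset.sum_le_sum fun x _ => ?_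
        rw [abs_mul, abs_of_nonneg (sq_nonneg (w x))]
        exact mul_le_mul_of_nonneg_right (hV x) (sq_nonneg _)
    _ = b * ∑ x, w x ^ 2 := by rw [Finset.mul_sum]
    _ ≤ b * (δ⁻¹ * q (J E δ) w) := mul_le_mul_of_nonneg_left (sumsq_le hδ w) hb.le
    _ = _ := by rw [div_eq_mul_inv]; ring

theorem Dt.st {b σ E δ ρ Q γ : ℝ} (H : Dt d L b σ E δ ρ Q γ) : |σ| * (b / δ) ≤ 1 / 4 := by
  rw [← mul_div_assoc, div_le_iff₀ H.δ0]
  linarith [H.hδ]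

/-- the bound for a solution -/
theorem Dt.off {b σ E δ ρ Q γ t : ℝ} (H : Dt d L b σ E δ ρ Q γ) {V : T d L → ℝ}
    (hV : ∀ x, |V x| ≤ b) {u g : T d L → ℂ} (h : HZ σ E t V *ᵥ u = g) :
    qc (J E δ) u ≤ 4 * δ * nsq u + 4 * qc (fun k => (J E δ k)⁻¹) g := by
  refine Pool.Agent.Run7.h47.off σ E t δ (b / δ) H.δ0 (div_nonneg H.hb.le H.δ0.le) ?_ V
    (formb H.hb H.δ0 V hV) u g h
  linarith [H.st]

theorem col_eq {σ E t : ℝ} (ht : 0 < t) (V : T d L → ℝ) :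
    HZ σ E t V *ᵥ (R σ E t V *ᵥ Pi.single 0 1) = Pi.single 0 1 := by
  rw [Matrix.mulVec_mulVec, HZ_mul ht, Matrix.one_mulVec]

theorem col_ap {σ E t : ℝ} (V : T d L → ℝ) (x : T d L) :
    R σ E t V 0 x = (R σ E t V *ᵥ Pi.single 0 1) x := by
  rw [Matrix.mulVec_single_one, R_symm]
  rfl

/-- the column of the resolvent -/
theorem Dt.col {b σ E δ ρ Q γ t : ℝ} (H : Dt d L b σ E δ ρ Q γ) (ht : 0 < t) {V : T d L → ℝ}
    (hV : ∀ x, |V x| ≤ b) :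
    qc (J E ρ) (R σ E t V *ᵥ Pi.single 0 1) ≤ 4 * δ * ((R σ E t V 0 0).im / t) + 4 * γ := by
  refine (qc_mono (J_mono H.hρ H.hρδ) _).trans ?_
  refine (H.off hV (col_eq ht V)).trans ?_
  rw [R_col_nsq ht V, qc_single]
  linarith [H.gδ]

/-- a general vector -/
theorem Dt.gen {b σ E δ ρ Q γ t : ℝ} (H : Dt d L b σ E δ ρ Q γ) (ht : 0 < t) (htδ : t ≤ δ)
    {V : T d L → ℝ} (hV : ∀ x, |V x| ≤ b) (h : T d L → ℂ) :
    qc (J E ρ) (R σ E t V *ᵥ h) ≤ 8 * δ * ((t ^ 2)⁻¹ * nsq h) := by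
  have hδ := H.δ0
  have h2 : HZ σ E t V *ᵥ (R σ E t V *ᵥ h) = h := by
    rw [Matrix.mulVec_mulVec, HZ_mul ht, Matrix.one_mulVec]
  refine (qc_mono (J_mono H.hρ H.hρδ) _).trans ?_
  refine (H.off hV h2).trans ?_
  have h3 := R_mul_nsq (σ := σ) (E := E) ht V h
  have h4 := qc_inv_le (d := d) (L := L) E δ hδ h
  have hn : 0 ≤ nsq h := nsq_nonneg _
  have h5 : δ⁻¹ * nsq h ≤ δ * ((t ^ 2)⁻¹ * nsq h) := by
    rw [← mul_assoc]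
    refine mul_le_mul_of_nonneg_right ?_ hn
    rw [← div_eq_mul_inv, le_div_iff₀ (by positivity), inv_mul_le_iff₀ hδ]
    nlinarith
  have h6 : 4 * δ * nsq (R σ E t V *ᵥ h) ≤ 4 * δ * ((t ^ 2)⁻¹ * nsq h) := by gcongr
  linarith

/-- the diagonal -/
theorem Dt.diagR {b σ E δ ρ Q γ t : ℝ} (H : Dt d L b σ E δ ρ Q γ) (ht : 0 < t) (htδ : t ≤ δ)
    {V : T d L → ℝ} (hV : ∀ x, |V x| ≤ b) (y : T d L) :
    ‖R σ E t V y y‖ ≤ 6 * γ * δ / t := by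
  refine diag ht htδ (div_nonneg H.hb.le H.δ0.le) ?_ H.hγ H.gδ V (formb H.hb H.δ0 V hV) y
  linarith [H.st]

theorem upd_bd {b : ℝ} (hb : 0 < b) {V : T d L → ℝ} (hV : ∀ x, |V x| ≤ b) (y : T d L) :
    ∀ x, |Function.update V y 0 x| ≤ b := by
  intro x
  by_cases hx : x = y
  · subst hx
    simp only [Function.update_self, abs_zero]
    exact hb.le
  · rw [Function.update_of_ne hx]
    exact hV x

theorem Dt.diagA {b σ E δ ρ Q γ t : ℝ} (H : Dt d L b σ E δ ρ Q γ) (ht : 0 < t) (htδ : t ≤ δ)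
    {V : T d L → ℝ} (hV : ∀ x, |V x| ≤ b) (y : T d L) :
    ‖a0 σ E t y V‖ ≤ 6 * γ * δ / t := H.diagR ht htδ (upd_bd H.hb hV y) y

/-- the bilinear bound with the column of the resolvent -/
theorem Dt.bl {b σ E δ ρ Q γ : ℝ} (H : Dt d L b σ E δ ρ Q γ) (u w : T d L → ℂ) :
    ∑ x, ‖u x‖ ^ 2 * ‖w x‖ ^ 2 ≤ Q * (qc (J E ρ) u * qc (J E ρ) w) + lwh d L * (nsq u * nsq w) :=
  bil E ρ Q H.hρ H.hQ0 H.hQ u w

end Run7.h108.GL.HD
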