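import Pool.Agent.Run7.h442.HD.Det

/-! The region where the diagonal is small, high dimension. -/

set_option autoImplicit false
set_option linter.unusedSectionVars false

open scoped BigOperators Matrix
open MeasureTheory

namespace Run7.h108.GL.HD

open Pool.Agent.Run7.h47 hiding Hyp good
open Pool.Agent.W788.MFP.Four Pool.Agent.W788.BK
open Pool.Agent.W788.MFP.Form
open Run7.h442.HD

variable {d L : ℕ} [NeZero L] [Law]

/-- one term of the Efron-Stein sum -/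
theorem dR0 {σ E t : ℝ} (ht : 0 < t) (V : T d L → ℝ) (x : T d L) (hV : |V x| ≤ Law.b) :
    ‖R σ E t V 0 0 - R σ E t (Function.update V x 0) 0 0‖ ^ 2 ≤
      (σ ^ 2 * Law.b ^ 2) * ‖ww σ E t x V‖ ^ 2 * (‖R σ E t V 0 x‖ ^ 2 * ‖R σ E t V 0 x‖ ^ 2) := by
  have h1 : R σ E t V 0 0 - R σ E t (Function.update V x 0) 0 0 =
      -(σ * V x * (ww σ E t x V * (R σ E t V 0 x * R σ E t V 0 x))) := by
    rw [r1 ht V x 0 0, r4 ht, R_symm σ E t V x 0]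
    ring
  rw [h1, norm_neg, norm_mul, norm_mul, norm_mul, norm_mul, Complex.norm_real,
    Complex.norm_real, Real.norm_eq_abs, Real.norm_eq_abs]
  have h2 : |V x| ^ 2 ≤ Law.b ^ 2 := pow_le_pow_left₀ (abs_nonneg _) hV 2
  calc (|σ| * |V x| * (‖ww σ E t x V‖ * (‖R σ E t V 0 x‖ * ‖R σ E t V 0 x‖))) ^ 2 =
      (|σ| ^ 2 * |V x| ^ 2) * ‖ww σ E t x V‖ ^ 2 *
        (‖R σ E t V 0 x‖ ^ 2 * ‖R σ E t V 0 x‖ ^ 2) := by ring
    _ ≤ (|σ| ^ 2 * Law.b ^ 2) * ‖ww σ E t x V‖ ^ 2 *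
        (‖R σ E t V 0 x‖ ^ 2 * ‖R σ E t V 0 x‖ ^ 2) := by gcongr
    _ = _ := by rw [sq_abs]

/-- the constant of the Efron-Stein inequality -/
noncomputable def cc (d L : ℕ) [NeZero L] (σ δ Q t : ℝ) : ℝ :=
  3 * (σ ^ 2 * Law.b ^ 2) * ((16 * δ ^ 2 * Q + lwh d L) / t ^ 2)

theorem cc_nonneg {σ δ Q t : ℝ} (hQ : 0 ≤ Q) : 0 ≤ cc d L σ δ Q t := by
  have := lwh_nonneg (d := d) (L := L)
  unfold cc
  positivity

section
variable {σ E δ ρ Q γ t : ℝ}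

theorem ww_le (H : Dt d L Law.b σ E δ ρ Q γ) (ht : 0 < t) (htδ : t ≤ δ)
    (hα : |σ| * Law.b * (6 * γ * δ / t) ≤ 1 / 2) {V : T d L → ℝ} (hV : ∀ x, |V x| ≤ Law.b)
    (x : T d L) : ‖ww σ E t x V‖ ≤ 3 / 2 := by
  unfold ww
  refine (norm_add_le _ _).trans ?_
  rw [norm_one, norm_mul, norm_mul, Complex.norm_real, Complex.norm_real, Real.norm_eq_abs,
    Real.norm_eq_abs]
  have h1 := H.diagA ht htδ hV x
  have hb := (Law.hb (self := ‹Law›)).le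
  have h2 : |σ| * |V x| * ‖a0 σ E t x V‖ ≤ |σ| * Law.b * (6 * γ * δ / t) :=
    mul_le_mul (mul_le_mul_of_nonneg_left (hV x) (abs_nonneg _)) h1 (norm_nonneg _)
      (mul_nonneg (abs_nonneg _) hb)
  linarith

theorem U_eq (ht : 0 < t) (V : T d L → ℝ) :
    nsq (R σ E t V *ᵥ Pi.single 0 1) = (R σ E t V (0 : T d L) 0).im / t := R_col_nsq ht V

/-- the fourth powers -/
theorem four (H : Dt d L Law.b σ E δ ρ Q γ) (ht : 0 < t) (htδ : t ≤ δ) {V : T d L → ℝ}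
    (hV : ∀ x, |V x| ≤ Law.b) :
    ∑ x, ‖R σ E t V 0 x‖ ^ 2 * ‖R σ E t V 0 x‖ ^ 2 ≤
      (16 * δ ^ 2 * Q + lwh d L) / t ^ 2 * ((R σ E t V (0 : T d L) 0).im + γ) ^ 2 := by
  have hδ := H.δ0
  have hγ := H.hγ
  have hQ0 := H.hQ0
  have hlw := lwh_nonneg (d := d) (L := L)
  have h0 := R_im_nonneg (σ := σ) (E := E) ht V (0 : T d L)
  obtain ⟨f, hf⟩ : ∃ f, f = (R σ E t V (0 : T d L) 0).im := ⟨_, rfl⟩
  rw [← hf] at h0
  have h1 := H.bl (R σ E t V *ᵥ Pi.single 0 1) (R σ E t V *ᵥ Pi.single 0 1)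
  simp only [← col_ap] at h1
  rw [U_eq ht] at h1
  refine h1.trans ?_
  have h2 := H.col ht hV
  have h3 : 0 ≤ qc (J E ρ) (R σ E t V *ᵥ Pi.single 0 1) :=
    qc_nonneg _ _ fun k => (J_pos E ρ H.hρ k).le
  rw [← hf] at h2 ⊢
  have h4 : 4 * δ * (f / t) + 4 * γ ≤ 4 * δ / t * (f + γ) := by
    have h5 : γ ≤ δ / t * γ := by
      have : 1 ≤ δ / t := by rwa [le_div_iff₀ ht, one_mul]
      nlinarith
    have e1 : 4 * δ / t * (f + γ) = 4 * δ * (f / t) + 4 * (δ / t * γ) := by ring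
    rw [e1]
    linarith
  have h5 := h2.trans h4
  have h6 : qc (J E ρ) (R σ E t V *ᵥ Pi.single 0 1) * qc (J E ρ) (R σ E t V *ᵥ Pi.single 0 1) ≤
      (4 * δ / t * (f + γ)) * (4 * δ / t * (f + γ)) := mul_le_mul h5 h5 h3 (h3.trans h5)
  have h7 := mul_le_mul_of_nonneg_left h6 hQ0
  have h8 : f / t * (f / t) ≤ (f + γ) / t * ((f + γ) / t) := by
    have : f / t ≤ (f + γ) / t := by gcongr; linarith
    exact mul_le_mul this this (by positivity) (by positivity)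
  have h9 := mul_le_mul_of_nonneg_left h8 hlw
  calc _ ≤ Q * (4 * δ / t * (f + γ) * (4 * δ / t * (f + γ))) +
      lwh d L * ((f + γ) / t * ((f + γ) / t)) := add_le_add h7 h9
    _ = _ := by ring

/-- the Efron-Stein sum -/
theorem sumR1 (H : Dt d L Law.b σ E δ ρ Q γ) (ht : 0 < t) (htδ : t ≤ δ)
    (hα : |σ| * Law.b * (6 * γ * δ / t) ≤ 1 / 2) {V : T d L → ℝ} (hV : ∀ x, |V x| ≤ Law.b) :
    ∑ y, ‖R σ E t V 0 0 - R σ E t (Function.update V y 0) 0 0‖ ^ 2 ≤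
      cc d L σ δ Q t * ((R σ E t V (0 : T d L) 0).im + γ) ^ 2 := by
  have h1 := four (σ := σ) H ht htδ hV
  calc _ ≤ ∑ y, 3 * (σ ^ 2 * Law.b ^ 2) * (‖R σ E t V 0 y‖ ^ 2 * ‖R σ E t V 0 y‖ ^ 2) := by
        refine Finset.sum_le_sum fun y _ => (dR0 ht V y (hV y)).trans ?_
        refine mul_le_mul_of_nonneg_right ?_ (by positivity)
        have h2 := ww_le H ht htδ hα hV y
        have h3 : ‖ww σ E t y V‖ ^ 2 ≤ 3 := by
          refine (pow_le_pow_left₀ (norm_nonneg _) h2 2).trans (by norm_num)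
        have h4 : 0 ≤ σ ^ 2 * Law.b ^ 2 := by positivity
        calc σ ^ 2 * Law.b ^ 2 * ‖ww σ E t y V‖ ^ 2 ≤ σ ^ 2 * Law.b ^ 2 * 3 :=
              mul_le_mul_of_nonneg_left h3 h4
          _ = _ := by ring
    _ = 3 * (σ ^ 2 * Law.b ^ 2) * ∑ y, ‖R σ E t V 0 y‖ ^ 2 * ‖R σ E t V 0 y‖ ^ 2 := by
        rw [Finset.mul_sum]
    _ ≤ 3 * (σ ^ 2 * Law.b ^ 2) * ((16 * δ ^ 2 * Q + lwh d L) / t ^ 2 *
        ((R σ E t V (0 : T d L) 0).im + γ) ^ 2) := mul_le_mul_of_nonneg_left h1 (by positivity)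
    _ = _ := by unfold cc; ring

/-- the function whose moments are bounded -/
noncomputable def gf (σ E γ t : ℝ) (V : T d L → ℝ) : ℝ := (R σ E t V (0 : T d L) 0).im + γ

theorem gf_BC (ht : 0 < t) : BC fun V : T d L → ℝ => gf σ E γ t V :=
  (R_BC ht 0 0).im.add (BC.const γ)

theorem gf_nonneg (ht : 0 < t) (hγ : 0 < γ) (V : T d L → ℝ) : 0 ≤ gf σ E γ t V :=
  add_nonneg (R_im_nonneg ht V 0) hγ.le

theorem gf_int (ht : 0 < t) : ∫ V, gf σ E γ t V ∂(Γ (T d L)) = (mm d L σ E t).im + γ := by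
  unfold gf
  rw [integral_add (R_BC ht 0 0).im.intR (integrable_const _), mm_im ht]
  simp

theorem gf_sum (H : Dt d L Law.b σ E δ ρ Q γ) (ht : 0 < t) (htδ : t ≤ δ)
    (hα : |σ| * Law.b * (6 * γ * δ / t) ≤ 1 / 2) (V : T d L → ℝ) (hV : ∀ x, |V x| ≤ Law.b) :
    ∑ y, (gf σ E γ t V - gf σ E γ t (Function.update V y 0)) ^ 2 ≤
      cc d L σ δ Q t * gf σ E γ t V ^ 2 := by
  refine le_trans (Finset.sum_le_sum fun y _ => ?_) (sumR1 H ht htδ hα hV)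
  unfold gf
  rw [add_sub_add_right_eq_sub, ← Complex.sub_im, ← sq_abs]
  exact pow_le_pow_left₀ (abs_nonneg _) (Complex.abs_im_le_norm _) 2

theorem gf_mom (hM : S_MOM) (H : Dt d L Law.b σ E δ ρ Q γ) (ht : 0 < t) (htδ : t ≤ δ)
    (hα : |σ| * Law.b * (6 * γ * δ / t) ≤ 1 / 2) (hc : cc d L σ δ Q t ≤ 1 / 10 ^ 7) {n : ℕ}
    (hn : 1 ≤ n) (hn8 : n ≤ 8) :
    ∫ V, gf σ E γ t V ^ (2 * n) ∂(Γ (T d L)) ≤ 2 * (∫ V, gf σ E γ t V ^ n ∂(Γ (T d L))) ^ 2 := by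
  have hb := R_bd (d := d) (L := L) (σ := σ) (E := E) ht
  refine hM (T d L) (fun V => gf σ E γ t V) (cc d L σ δ Q t) n (gf_BC ht).1
    ⟨t⁻¹ + γ, fun V => ?_⟩ (fun V => gf_nonneg ht H.hγ V) hn (cc_nonneg H.hQ0)
    (gf_sum H ht htδ hα) ?_
  · unfold gf
    refine (abs_add_le _ _).trans (add_le_add ?_ (le_of_eq (abs_of_pos H.hγ)))
    exact (Complex.abs_im_le_norm _).trans (hb V 0 0)
  · have h1 : 2 * (n : ℝ) ^ 2 * 4 ^ n ≤ 2 * (8 : ℝ) ^ 2 * 4 ^ 8 := by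
      have h2 : (n : ℝ) ≤ 8 := by exact_mod_cast hn8
      have h3 : (4 : ℝ) ^ n ≤ 4 ^ 8 := pow_le_pow_right₀ (by norm_num) hn8
      gcongr
    have h2 := cc_nonneg (d := d) (L := L) (σ := σ) (δ := δ) (t := t) H.hQ0
    calc 2 * (n : ℝ) ^ 2 * 4 ^ n * cc d L σ δ Q t ≤ 2 * (8 : ℝ) ^ 2 * 4 ^ 8 * (1 / 10 ^ 7) := by
          gcongr
      _ ≤ 1 := by norm_num

/-- second and sixteenth moment -/
theorem gf_two (hM : S_MOM) (H : Dt d L Law.b σ E δ ρ Q γ) (ht : 0 < t) (htδ : t ≤ δ)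
    (hα : |σ| * Law.b * (6 * γ * δ / t) ≤ 1 / 2) (hc : cc d L σ δ Q t ≤ 1 / 10 ^ 7) {m : ℝ}
    (hm : ‖mm d L σ E t‖ + γ ≤ m) :
    ∫ V, gf σ E γ t V ^ 2 ∂(Γ (T d L)) ≤ 2 * m ^ 2 ∧
    ∫ V, gf σ E γ t V ^ 16 ∂(Γ (T d L)) ≤ 32768 * m ^ 16 := by
  have h0 : 0 ≤ ∫ V, gf σ E γ t V ∂(Γ (T d L)) :=
    integral_nonneg fun V => gf_nonneg ht H.hγ V
  have h1 : ∫ V, gf σ E γ t V ∂(Γ (T d L)) ≤ m := by
    rw [gf_int ht]
    have := (le_abs_self _).trans (Complex.abs_im_le_norm (mm d L σ E t))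
    linarith
  have m1 := gf_mom hM H ht htδ hα hc (n := 1) (by norm_num) (by norm_num)
  have m2 := gf_mom hM H ht htδ hα hc (n := 2) (by norm_num) (by norm_num)
  have m4 := gf_mom hM H ht htδ hα hc (n := 4) (by norm_num) (by norm_num)
  have m8 := gf_mom hM H ht htδ hα hc (n := 8) (by norm_num) (by norm_num)
  simp only [pow_one, mul_one] at m1
  norm_num at m2 m4 m8
  have p2 : 0 ≤ ∫ V, gf σ E γ t V ^ 2 ∂(Γ (T d L)) := integral_nonneg fun V => by positivity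
  have p4 : 0 ≤ ∫ V, gf σ E γ t V ^ 4 ∂(Γ (T d L)) :=
    integral_nonneg fun V => by have := gf_nonneg (σ := σ) (E := E) ht H.hγ V; positivity
  have p8 : 0 ≤ ∫ V, gf σ E γ t V ^ 8 ∂(Γ (T d L)) :=
    integral_nonneg fun V => by have := gf_nonneg (σ := σ) (E := E) ht H.hγ V; positivity
  have q2 : ∫ V, gf σ E γ t V ^ 2 ∂(Γ (T d L)) ≤ 2 * m ^ 2 :=
    m1.trans (by gcongr)
  refine ⟨q2, ?_⟩
  have q4 : ∫ V, gf σ E γ t V ^ 4 ∂(Γ (T d L)) ≤ 8 * m ^ 4 := by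
    refine m2.trans ?_
    calc 2 * (∫ V, gf σ E γ t V ^ 2 ∂(Γ (T d L))) ^ 2 ≤ 2 * (2 * m ^ 2) ^ 2 := by gcongr
      _ = _ := by ring
  have q8 : ∫ V, gf σ E γ t V ^ 8 ∂(Γ (T d L)) ≤ 128 * m ^ 8 := by
    refine m4.trans ?_
    calc 2 * (∫ V, gf σ E γ t V ^ 4 ∂(Γ (T d L))) ^ 2 ≤ 2 * (8 * m ^ 4) ^ 2 := by gcongr
      _ = _ := by ring
  refine m8.trans ?_
  calc 2 * (∫ V, gf σ E γ t V ^ 8 ∂(Γ (T d L))) ^ 2 ≤ 2 * (128 * m ^ 8) ^ 2 := by gcongr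
    _ = _ := by ring

end

end Run7.h108.GL.HD
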