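import Pool.Agent.Run7.h442.HD.Es1

/-! The self-consistent equation where the diagonal is small, high dimension. -/

set_option autoImplicit false
set_option linter.unusedSectionVars false

open scoped BigOperators Matrix
open MeasureTheory

namespace Run7.h108.GL.HD

open Pool.Agent.Run7.h47 hiding Hyp good
open Pool.Agent.W788.MFP.Four Pool.Agent.W788.BK
open Pool.Agent.W788.MFP.Form
open Run7.h442.HD

variable {d L : ℕ} [NeZero L] [Law]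

section
variable {σ E δ ρ Q γ t : ℝ}

/-- Efron-Stein for the diagonal -/
theorem W1_es (ht : 0 < t) {g : (T d L → ℝ) → ℝ} (hg : BC g)
    (h : ∀ V : T d L → ℝ, (∀ x, |V x| ≤ Law.b) →
      ∑ y, ‖R σ E t V 0 0 - R σ E t (Function.update V y 0) 0 0‖ ^ 2 ≤ g V) :
    W1 d L σ E t ≤ ∫ V, g V ∂(Γ (T d L)) := by
  refine (es (Pool.Agent.Run7.h47.R_BC (σ := σ) (E := E) ht (0 : T d L) 0)).trans ?_
  have bb : ∀ y : T d L, BC fun V : T d L → ℝ =>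
      ‖R σ E t V 0 0 - R σ E t (Function.update V y 0) 0 0‖ ^ 2 := fun y =>
    ((R_BC ht 0 0).sub ((R_BC ht 0 0).upd y)).nsq
  rw [← integral_finsetSum _ fun y _ => (bb y).intR]
  refine integral_mono_ae (BC.sum _ fun y _ => bb y).intR hg.intR ?_
  filter_upwards [ae_cube (κ := T d L)] with V hV
  exact h V hV

theorem W1_1 (hM : S_MOM) (H : Dt d L Law.b σ E δ ρ Q γ) (ht : 0 < t) (htδ : t ≤ δ)
    (hα : |σ| * Law.b * (6 * γ * δ / t) ≤ 1 / 2) (hc : cc d L σ δ Q t ≤ 1 / 10 ^ 7) {m : ℝ}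
    (hm : ‖mm d L σ E t‖ + γ ≤ m) :
    W1 d L σ E t ≤ 2 * cc d L σ δ Q t * m ^ 2 := by
  have b1 : BC fun V : T d L → ℝ => cc d L σ δ Q t * gf σ E γ t V ^ 2 :=
    (BC.const _).mulR ((gf_BC ht).powR 2)
  have h1 := W1_es (σ := σ) (E := E) ht b1 (fun V hV => by
    have := sumR1 H ht htδ hα hV
    exact this)
  rw [integral_const_mul] at h1
  have h2 := (gf_two hM H ht htδ hα hc hm).1
  have h3 := mul_le_mul_of_nonneg_left h2 (cc_nonneg (d := d) (L := L) (σ := σ) (δ := δ)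
    (t := t) H.hQ0)
  linarith

/-- the third order term -/
theorem rA_1 (H : Dt d L Law.b σ E δ ρ Q γ) (ht : 0 < t) (htδ : t ≤ δ)
    (hα : |σ| * Law.b * (6 * γ * δ / t) ≤ 1 / 2) {K : ℝ} (hK : 1 ≤ K) (hbK : Law.b ≤ K)
    {V : T d L → ℝ} (hV : ∀ x, |V x| ≤ Law.b) :
    ‖rA σ E t 0 V‖ ≤ 4 * K ^ 3 * (6 * γ * δ / t) * ‖R σ E t V (0 : T d L) 0‖ := by
  have hb := (Law.hb (self := ‹Law›))
  obtain ⟨α, hαd⟩ : ∃ α, α = 6 * γ * δ / t := ⟨_, rfl⟩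
  have hγ := H.hγ
  have hδ := H.δ0
  have hα0 : 0 < α := by rw [hαd]; positivity
  rw [← hαd] at hα ⊢
  have ha : ‖a0 σ E t 0 V‖ ≤ α := by rw [hαd]; exact H.diagA ht htδ hV 0
  have hw := ww_le H ht htδ (by rw [← hαd]; exact hα) hV 0
  have ha2 : ‖a0 σ E t 0 V‖ ≤ 3 / 2 * ‖R σ E t V (0 : T d L) 0‖ := by
    rw [a0_eq ht, norm_mul]
    exact mul_le_mul_of_nonneg_right hw (norm_nonneg _)
  obtain ⟨A, hA⟩ : ∃ A, A = ‖a0 σ E t 0 V‖ := ⟨_, rfl⟩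
  obtain ⟨r, hr⟩ : ∃ r, r = ‖R σ E t V (0 : T d L) 0‖ := ⟨_, rfl⟩
  obtain ⟨v, hv⟩ : ∃ v, v = |V 0| := ⟨_, rfl⟩
  have hA0 : 0 ≤ A := by rw [hA]; exact norm_nonneg _
  have hr0 : 0 ≤ r := by rw [hr]; exact norm_nonneg _
  have hv0 : 0 ≤ v := by rw [hv]; exact abs_nonneg _
  have hvb : v ≤ Law.b := by rw [hv]; exact hV 0
  have h1 : ‖rA σ E t 0 V‖ ≤ v ^ 3 * A ^ 2 + r * (2 * v * A + |σ| * v ^ 2 * A ^ 2) := by
    unfold rA
    refine (norm_sub_le _ _).trans (add_le_add (le_of_eq ?_) ?_)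
    · rw [norm_mul, norm_pow, norm_pow, Complex.norm_real, Real.norm_eq_abs, ← hv, ← hA]
    · rw [norm_mul, ← hr]
      refine mul_le_mul_of_nonneg_left ((norm_add_le _ _).trans (add_le_add (le_of_eq ?_)
        (le_of_eq ?_))) hr0
      · rw [norm_mul, norm_mul, Complex.norm_real, Real.norm_eq_abs, ← hv, ← hA]
        norm_num
      · rw [norm_mul, norm_mul, norm_pow, norm_pow, Complex.norm_real, Complex.norm_real,
          Real.norm_eq_abs, Real.norm_eq_abs, ← hv, ← hA]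
  refine h1.trans ?_
  rw [← hA] at ha ha2
  rw [← hr] at ha2 ⊢
  have hbb : v ^ 3 ≤ K ^ 3 := by
    have : v ≤ K := hvb.trans hbK
    gcongr
  have hvK : v ≤ K := hvb.trans hbK
  have e1 : v ^ 3 * A ^ 2 ≤ K ^ 3 * (α * (3 / 2 * r)) := by
    have : A ^ 2 ≤ α * (3 / 2 * r) := by
      rw [sq]
      exact mul_le_mul ha ha2 hA0 hα0.le
    exact mul_le_mul hbb this (by positivity) (by positivity)
  have e2 : 2 * v * A + |σ| * v ^ 2 * A ^ 2 ≤ 5 / 2 * K * α := by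
    have h3 : |σ| * v ^ 2 * A ^ 2 ≤ (|σ| * Law.b * α) * (v * A) := by
      calc |σ| * v ^ 2 * A ^ 2 = (|σ| * v * A) * (v * A) := by ring
        _ ≤ (|σ| * Law.b * α) * (v * A) := by
            refine mul_le_mul_of_nonneg_right ?_ (by positivity)
            exact mul_le_mul (mul_le_mul_of_nonneg_left hvb (abs_nonneg _)) ha hA0
              (mul_nonneg (abs_nonneg _) hb.le)
    have h4 : v * A ≤ K * α := mul_le_mul hvK ha hA0 (by linarith)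
    have h5 : (|σ| * Law.b * α) * (v * A) ≤ 1 / 2 * (v * A) :=
      mul_le_mul_of_nonneg_right hα (by positivity)
    nlinarith
  have e3 : r * (2 * v * A + |σ| * v ^ 2 * A ^ 2) ≤ r * (5 / 2 * K * α) :=
    mul_le_mul_of_nonneg_left e2 hr0
  have hK3 : K ≤ K ^ 3 := by nlinarith [mul_nonneg (sub_nonneg.2 hK) (sub_nonneg.2 hK)]
  have e4 : r * (5 / 2 * K * α) ≤ r * (5 / 2 * K ^ 3 * α) := by gcongr
  have e5 : 4 * K ^ 3 * α * r = K ^ 3 * (α * (3 / 2 * r)) + r * (5 / 2 * K ^ 3 * α) := by ring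
  linarith

/-- the variance with correction -/
theorem V1_le {a : ℝ} (ht : 0 < t)
    (h : ∫ V, ‖rA σ E t (0 : T d L) V‖ ^ 2 ∂(Γ (T d L)) ≤ a) :
    V1 d L σ E t ≤ 2 * W1 d L σ E t + 2 * σ ^ 2 * a := by
  have b1 : BC fun V : T d L → ℝ => ‖R σ E t V (0 : T d L) 0 - mm d L σ E t‖ ^ 2 :=
    ((R_BC ht 0 0).sub (BC.const _)).nsq
  have b2 : BC fun V : T d L → ℝ => ‖rA σ E t (0 : T d L) V‖ ^ 2 := (rA_BC ht 0).nsq
  have h1 : V1 d L σ E t ≤ ∫ V, (2 * ‖R σ E t V (0 : T d L) 0 - mm d L σ E t‖ ^ 2 +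
      2 * σ ^ 2 * ‖rA σ E t (0 : T d L) V‖ ^ 2) ∂(Γ (T d L)) := by
    unfold V1
    refine integral_mono ((D1_BC ht 0).nsq).intR
      ((b1.intR.const_mul 2).add (b2.intR.const_mul _)) fun V => ?_
    simp only
    have e1 := norm_sub_le (R σ E t V (0 : T d L) 0 - mm d L σ E t) (σ * rA σ E t 0 V)
    rw [norm_mul, Complex.norm_real, Real.norm_eq_abs] at e1
    refine (pow_le_pow_left₀ (norm_nonneg _) e1 2).trans ?_
    have e2 : σ ^ 2 = |σ| ^ 2 := (sq_abs σ).symm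
    rw [e2]
    nlinarith [sq_nonneg (‖R σ E t V (0 : T d L) 0 - mm d L σ E t‖ - |σ| * ‖rA σ E t 0 V‖)]
  refine h1.trans ?_
  rw [integral_add (b1.intR.const_mul 2) (b2.intR.const_mul _), integral_const_mul,
    integral_const_mul]
  have h2 : 2 * σ ^ 2 * ∫ V, ‖rA σ E t (0 : T d L) V‖ ^ 2 ∂(Γ (T d L)) ≤ 2 * σ ^ 2 * a :=
    mul_le_mul_of_nonneg_left h (by positivity)
  unfold W1
  linarith

theorem R_two (ht : 0 < t) : ∫ V, ‖R σ E t V (0 : T d L) 0‖ ^ 2 ∂(Γ (T d L)) ≤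
    2 * W1 d L σ E t + 2 * ‖mm d L σ E t‖ ^ 2 := by
  have b1 : BC fun V : T d L → ℝ => ‖R σ E t V (0 : T d L) 0 - mm d L σ E t‖ ^ 2 :=
    ((R_BC ht 0 0).sub (BC.const _)).nsq
  have h1 : ∫ V, ‖R σ E t V (0 : T d L) 0‖ ^ 2 ∂(Γ (T d L)) ≤
      ∫ V, (2 * ‖R σ E t V (0 : T d L) 0 - mm d L σ E t‖ ^ 2 + 2 * ‖mm d L σ E t‖ ^ 2)
        ∂(Γ (T d L)) := by
    refine integral_mono ((R_BC ht 0 0).nsq).intR
      ((b1.intR.const_mul 2).add (integrable_const _)) fun V => ?_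
    simp only
    have e1 := norm_add_le (R σ E t V (0 : T d L) 0 - mm d L σ E t) (mm d L σ E t)
    rw [sub_add_cancel] at e1
    refine (pow_le_pow_left₀ (norm_nonneg _) e1 2).trans ?_
    nlinarith [sq_nonneg (‖R σ E t V (0 : T d L) 0 - mm d L σ E t‖ - ‖mm d L σ E t‖)]
  refine h1.trans ?_
  rw [integral_add (b1.intR.const_mul 2) (integrable_const _), integral_const_mul]
  unfold W1
  simp

/-- **the bound for the mean** -/
theorem boot (hM : S_MOM) (H : Dt d L Law.b σ E δ ρ Q γ) (ht : 0 < t) (htδ : t ≤ δ)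
    (hα : |σ| * Law.b * (6 * γ * δ / t) ≤ 1 / 2) (hc : cc d L σ δ Q t ≤ 1 / 10 ^ 7) {m : ℝ}
    (hm : ‖mm d L σ E t‖ + γ ≤ m) {K : ℝ} (hK : 1 ≤ K) (hbK : Law.b ≤ K) (hσK : |σ| ≤ K)
    {F : ℝ} (hF : ‖mf d L σ E t‖ ≤ F) :
    V1 d L σ E t ≤ (4 * cc d L σ δ Q t + 96 * K ^ 8 * (6 * γ * δ / t) ^ 2) * m ^ 2 ∧
    ‖mm d L σ E t - mf d L σ E t‖ ^ 2 ≤ K ^ 4 * F *
      ((4 * cc d L σ δ Q t + 96 * K ^ 8 * (6 * γ * δ / t) ^ 2) * m ^ 3) / t ^ 2 := by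
  obtain ⟨α, hαd⟩ : ∃ α, α = 6 * γ * δ / t := ⟨_, rfl⟩
  obtain ⟨c, hcd⟩ : ∃ c, c = cc d L σ δ Q t := ⟨_, rfl⟩
  have hγ := H.hγ
  have hδ := H.δ0
  have hc0 : 0 ≤ c := hcd ▸ cc_nonneg H.hQ0
  have hα0 : 0 < α := by rw [hαd]; positivity
  have hmm : 0 ≤ ‖mm d L σ E t‖ := norm_nonneg _
  have hm0 : 0 ≤ m := by linarith
  have hmm' : ‖mm d L σ E t‖ ≤ m := by linarith
  have hW := W1_1 hM H ht htδ hα hc hm
  have hW0 := W1_nonneg (d := d) (L := L) σ E t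
  have hσ2 : σ ^ 2 ≤ K ^ 2 := by
    rw [← sq_abs]
    gcongr
  have hr : ∫ V, ‖rA σ E t (0 : T d L) V‖ ^ 2 ∂(Γ (T d L)) ≤
      16 * K ^ 6 * α ^ 2 * (2 * W1 d L σ E t + 2 * ‖mm d L σ E t‖ ^ 2) := by
    have h1 : ∫ V, ‖rA σ E t (0 : T d L) V‖ ^ 2 ∂(Γ (T d L)) ≤
        ∫ V, 16 * K ^ 6 * α ^ 2 * ‖R σ E t V (0 : T d L) 0‖ ^ 2 ∂(Γ (T d L)) := by
      refine integral_mono_ae ((rA_BC ht 0).nsq).intR (((R_BC ht 0 0).nsq).intR.const_mul _) ?_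
      filter_upwards [ae_cube (κ := T d L)] with V hV
      refine (pow_le_pow_left₀ (norm_nonneg _) (rA_1 H ht htδ hα hK hbK hV) 2).trans
        (le_of_eq ?_)
      rw [← hαd]
      ring
    rw [integral_const_mul] at h1
    exact h1.trans (mul_le_mul_of_nonneg_left (R_two ht) (by positivity))
  have hV1 := V1_le ht hr
  rw [← hcd] at hW hc ⊢
  rw [← hαd]
  have hc1 : c ≤ 1 / 4 := hc.trans (by norm_num)
  have hV1' : V1 d L σ E t ≤ (4 * c + 96 * K ^ 8 * α ^ 2) * m ^ 2 := by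
    have h1 : 2 * W1 d L σ E t + 2 * ‖mm d L σ E t‖ ^ 2 ≤ 3 * m ^ 2 := by
      have h2 : ‖mm d L σ E t‖ ^ 2 ≤ m ^ 2 := by gcongr
      have h3 : c * m ^ 2 ≤ 1 / 4 * m ^ 2 := by gcongr
      nlinarith
    calc V1 d L σ E t ≤ 2 * W1 d L σ E t + 2 * σ ^ 2 * (16 * K ^ 6 * α ^ 2 *
          (2 * W1 d L σ E t + 2 * ‖mm d L σ E t‖ ^ 2)) := hV1
      _ ≤ 2 * (2 * c * m ^ 2) + 2 * K ^ 2 * (16 * K ^ 6 * α ^ 2 * (3 * m ^ 2)) := by gcongr
      _ = _ := by ring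
  refine ⟨hV1', ?_⟩
  have h2 := m_sub (d := d) (L := L) (σ := σ) (E := E) ht
  have hze := ze_im_ge (d := d) (L := L) (σ := σ) (E := E) ht
  have hF0 : 0 ≤ F := (norm_nonneg _).trans hF
  have hg2 : g2 d L σ E t ≤ F / t := by
    unfold g2
    have h3 : (mf d L σ E t).im ≤ F := ((le_abs_self _).trans (Complex.abs_im_le_norm _)).trans hF
    have h4 : 0 ≤ (mf d L σ E t).im := GG_im_nonneg (ze_pos ht)
    gcongr
  have hX : (mm d L σ E t).im ≤ m :=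
    ((le_abs_self _).trans (Complex.abs_im_le_norm _)).trans hmm'
  have hX0 := mm_im_nonneg (d := d) (L := L) (σ := σ) (E := E) ht
  have hg0 := g2_nonneg (d := d) (L := L) (σ := σ) (E := E) ht
  have hσ4 : σ ^ 4 ≤ K ^ 4 := by
    calc σ ^ 4 = (σ ^ 2) ^ 2 := by ring
      _ ≤ (K ^ 2) ^ 2 := by gcongr
      _ = K ^ 4 := by ring
  have hV10 := V1_nonneg (d := d) (L := L) (σ := σ) (E := E) (t := t)
  calc _ ≤ σ ^ 4 * (g2 d L σ E t * V1 d L σ E t) * ((mm d L σ E t).im / t) := h2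
    _ ≤ K ^ 4 * (F / t * ((4 * c + 96 * K ^ 8 * α ^ 2) * m ^ 2)) * (m / t) := by gcongr
    _ = _ := by field_simp

end

end Run7.h108.GL.HD
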