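import Pool.Agent.Run7.h442.HD.ZMB

/-! Comparison of the resolvents for a potential and its truncation. -/

set_option autoImplicit false
set_option linter.unusedSectionVars false

open scoped BigOperators Matrix Topology
open MeasureTheory Filter

namespace Run7.h442.HD.GA

open Pool.Agent.Run7.h47
open Pool.Agent.W788.MFP.Four Pool.Agent.W788.BK
open Pool.Agent.W788.MFP.Form
open Pool.Agent.H4R2.LO (Zd)
open Pool.Agent.H695R3.AN (lf lf_inj lf_add lf_sub)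
open Run7.h108.GL.HD (col_ap)

section
variable {d L : ℕ} [NeZero L] {σ E σ' E' t : ℝ}

theorem R_cmp (ht : 0 < t) (V V' D : T d L → ℝ)
    (h : ∀ x, σ * V x - E = σ' * V' x - E' + D x) :
    ∑ y, ‖R σ E t V 0 y - R σ' E' t V' 0 y‖ ^ 2 ≤
      (t ^ 2)⁻¹ * ∑ x, D x ^ 2 * ‖R σ' E' t V' 0 x‖ ^ 2 := by
  obtain ⟨u', hu'⟩ : ∃ u' : T d L → ℂ, u' = R σ' E' t V' *ᵥ Pi.single 0 1 := ⟨_, rfl⟩
  obtain ⟨g, hg⟩ : ∃ g : T d L → ℂ, g = fun x => (D x : ℂ) * u' x := ⟨_, rfl⟩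
  have e1 : HZ σ' E' t V' *ᵥ u' = Pi.single 0 1 := by
    rw [hu', Matrix.mulVec_mulVec, HZ_mul ht, Matrix.one_mulVec]
  have e2 : HZ σ E t V *ᵥ u' = Pi.single 0 1 + g := by
    funext x
    have h1 := congrFun e1 x
    rw [HZ_mulVec] at h1
    rw [HZ_mulVec, Pi.add_apply, ← h1, hg]
    have h3 : (σ : ℂ) * V x - E = σ' * V' x - E' + D x := by exact_mod_cast h x
    linear_combination u' x * h3
  have e3 : R σ E t V *ᵥ Pi.single 0 1 + R σ E t V *ᵥ g = u' := by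
    rw [← Matrix.mulVec_add, ← e2, Matrix.mulVec_mulVec, mul_HZ ht, Matrix.one_mulVec]
  have e4 : ∀ y, ‖R σ E t V 0 y - R σ' E' t V' 0 y‖ = ‖(R σ E t V *ᵥ g) y‖ := by
    intro y
    rw [col_ap, col_ap V', ← hu', ← e3, Pi.add_apply, ← norm_neg]
    congr 1
    ring
  simp only [e4]
  have e5 : ∀ x, ‖R σ' E' t V' 0 x‖ = ‖u' x‖ := by
    intro x
    rw [col_ap, ← hu']
  simp only [e5]
  have h1 := R_mul_nsq (σ := σ) (E := E) ht V g
  have h2 : nsq g = ∑ x, D x ^ 2 * ‖u' x‖ ^ 2 := by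
    unfold nsq
    refine Finset.sum_congr rfl fun x _ => ?_
    rw [hg]
    simp only [norm_mul, Complex.norm_real, Real.norm_eq_abs, mul_pow, sq_abs]
  rw [h2] at h1
  exact h1

theorem F_cmp (ht : 0 < t) (p : T d L) (V V' : T d L → ℝ) :
    ‖Fm σ E t p V 0 0 - Fm σ' E' t p V' 0 0‖ ^ 2 ≤
      4 * (t ^ 2)⁻¹ * ∑ y, ‖R σ E t V 0 y - R σ' E' t V' 0 y‖ ^ 2 := by
  have h1 : ‖Fm σ E t p V 0 0 - Fm σ' E' t p V' 0 0‖ ≤
      ∑ y, ‖R σ E t V 0 y - R σ' E' t V' 0 y‖ *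
        (‖R σ E t V 0 y‖ + ‖R σ' E' t V' 0 y‖) := by
    rw [Fm_zero, Fm_zero, ← Finset.sum_sub_distrib]
    refine (norm_sum_le _ _).trans (Finset.sum_le_sum fun y _ => ?_)
    rw [← mul_sub, ← Complex.ofReal_sub, norm_mul, norm_e, one_mul, Complex.norm_real,
      Real.norm_eq_abs]
    have h2 : ‖R σ E t V 0 y‖ ^ 2 - ‖R σ' E' t V' 0 y‖ ^ 2 =
        (‖R σ E t V 0 y‖ - ‖R σ' E' t V' 0 y‖) * (‖R σ E t V 0 y‖ + ‖R σ' E' t V' 0 y‖) := by
      ring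
    rw [h2, abs_mul, abs_of_nonneg (by positivity :
      0 ≤ ‖R σ E t V 0 y‖ + ‖R σ' E' t V' 0 y‖)]
    exact mul_le_mul_of_nonneg_right (abs_norm_sub_norm_le _ _) (by positivity)
  have h2 := Finset.sum_mul_sq_le_sq_mul_sq Finset.univ
    (fun y => ‖R σ E t V 0 y - R σ' E' t V' 0 y‖)
    (fun y => ‖R σ E t V 0 y‖ + ‖R σ' E' t V' 0 y‖)
  have h3 : ∑ y, (‖R σ E t V 0 y‖ + ‖R σ' E' t V' 0 y‖) ^ 2 ≤ 4 * (t ^ 2)⁻¹ := by
    have e1 := R_sum_le (σ := σ) (E := E) ht V (0 : T d L)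
    have e2 := R_sum_le (σ := σ') (E := E') ht V' (0 : T d L)
    calc ∑ y, (‖R σ E t V 0 y‖ + ‖R σ' E' t V' 0 y‖) ^ 2 ≤
        ∑ y, (2 * ‖R σ E t V 0 y‖ ^ 2 + 2 * ‖R σ' E' t V' 0 y‖ ^ 2) :=
          Finset.sum_le_sum fun y _ => by
            nlinarith [sq_nonneg (‖R σ E t V 0 y‖ - ‖R σ' E' t V' 0 y‖)]
      _ = 2 * ∑ y, ‖R σ E t V 0 y‖ ^ 2 + 2 * ∑ y, ‖R σ' E' t V' 0 y‖ ^ 2 := by
          rw [Finset.sum_add_distrib, Finset.mul_sum, Finset.mul_sum]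
      _ ≤ _ := by linarith
  have h4 : 0 ≤ ∑ y, ‖R σ E t V 0 y - R σ' E' t V' 0 y‖ ^ 2 :=
    Finset.sum_nonneg fun y _ => by positivity
  calc ‖Fm σ E t p V 0 0 - Fm σ' E' t p V' 0 0‖ ^ 2 ≤
      (∑ y, ‖R σ E t V 0 y - R σ' E' t V' 0 y‖ *
        (‖R σ E t V 0 y‖ + ‖R σ' E' t V' 0 y‖)) ^ 2 := pow_le_pow_left₀ (norm_nonneg _) h1 2
    _ ≤ _ := h2
    _ ≤ (∑ y, ‖R σ E t V 0 y - R σ' E' t V' 0 y‖ ^ 2) * (4 * (t ^ 2)⁻¹) :=
        mul_le_mul_of_nonneg_left h3 h4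
    _ = _ := by ring

/-- invariance of the law under shifts -/
theorem mpS (μ : Measure ℝ) [IsProbabilityMeasure μ] (a : T d L) :
    MeasurePreserving (fun V : T d L → ℝ => fun z => V (z + a))
      (Measure.pi fun _ : T d L => μ) (Measure.pi fun _ : T d L => μ) := by
  have h := measurePreserving_piCongrLeft (fun _ : T d L => μ) (Equiv.addRight (-a))
  have h2 : (MeasurableEquiv.piCongrLeft (fun _ : T d L => ℝ) (Equiv.addRight (-a)) :
      (T d L → ℝ) → (T d L → ℝ)) = fun V z => V (z + a) := by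
    funext V z
    have h3 : z = Equiv.addRight (-a) (z + a) := by simp
    conv_lhs => rw [h3]
    exact MeasurableEquiv.piCongrLeft_apply_apply _ _ _
  rw [← h2]
  exact h

/-- the mean square of the difference on the torus -/
theorem int_cmp (μ : Measure ℝ) [IsProbabilityMeasure μ] {τ D : ℝ → ℝ} (hτ : Measurable τ)
    (hD : Measurable D) (hD2 : Integrable (fun s => D s ^ 2) μ)
    (h : ∀ s, σ * s - E = σ' * τ s - E' + D s) (ht : 0 < t) (p : T d L) :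
    ∫ V, ‖Fm σ E t p V 0 0 - Fm σ' E' t p (fun x => τ (V x)) 0 0‖ ^ 2
      ∂(Measure.pi fun _ : T d L => μ) ≤ 4 * ((t ^ 2)⁻¹) ^ 3 * ∫ s, D s ^ 2 ∂μ := by
  obtain ⟨P, hP⟩ : ∃ P, P = Measure.pi fun _ : T d L => μ := ⟨_, rfl⟩
  have hPp : IsProbabilityMeasure P := by rw [hP]; infer_instance
  rw [← hP]
  have hτm : Measurable fun (V : T d L → ℝ) (x : T d L) => τ (V x) :=
    measurable_pi_iff.2 fun x => hτ.comp (measurable_pi_apply x)
  have hRm : ∀ a b : T d L, Measurable fun V : T d L → ℝ =>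
      R σ' E' t (fun x => τ (V x)) a b := fun a b =>
    (R_cont (σ := σ') (E := E') ht a b).measurable.comp hτm
  have hR2 : ∀ (V : T d L → ℝ) (a b : T d L), ‖R σ' E' t V a b‖ ^ 2 ≤ (t ^ 2)⁻¹ := by
    intro V a b
    rw [← inv_pow]
    exact pow_le_pow_left₀ (norm_nonneg _) (R_bd ht V a b) 2
  have hDi : ∀ x : T d L, Integrable (fun V : T d L → ℝ => D (V x) ^ 2) P := by
    intro x
    rw [hP]
    exact (measurePreserving_eval (fun _ : T d L => μ) x).integrable_comp_of_integrable hD2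
  have hΦ : ∀ (x a b : T d L), Integrable (fun V : T d L → ℝ =>
      D (V x) ^ 2 * ‖R σ' E' t (fun x => τ (V x)) a b‖ ^ 2) P := by
    intro x a b
    refine ((hDi x).mul_const ((t ^ 2)⁻¹)).mono' ?_ (Eventually.of_forall fun V => ?_)
    · exact (((hD.comp (measurable_pi_apply x)).pow_const 2).mul
        ((hRm a b).norm.pow_const 2)).aestronglyMeasurable
    · rw [Real.norm_of_nonneg (by positivity)]
      exact mul_le_mul_of_nonneg_left (hR2 _ a b) (by positivity)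
  have hpt : ∀ V : T d L → ℝ, ‖Fm σ E t p V 0 0 - Fm σ' E' t p (fun x => τ (V x)) 0 0‖ ^ 2 ≤
      4 * ((t ^ 2)⁻¹) ^ 2 * ∑ x, D (V x) ^ 2 * ‖R σ' E' t (fun x => τ (V x)) 0 x‖ ^ 2 := by
    intro V
    refine (F_cmp ht p V _).trans ?_
    have h1 := R_cmp (σ := σ) (E := E) ht V (fun x => τ (V x)) (fun x => D (V x))
      (fun x => h (V x))
    calc _ ≤ 4 * (t ^ 2)⁻¹ * ((t ^ 2)⁻¹ * ∑ x, D (V x) ^ 2 *
          ‖R σ' E' t (fun x => τ (V x)) 0 x‖ ^ 2) :=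
          mul_le_mul_of_nonneg_left h1 (by positivity)
      _ = _ := by ring
  have hFm : Measurable fun V : T d L → ℝ =>
      Fm σ E t p V 0 0 - Fm σ' E' t p (fun x => τ (V x)) 0 0 := by
    have c1 : Continuous fun V : T d L → ℝ => Fm σ E t p V 0 0 := (F_BC ht p 0 0).1
    have c2 : Continuous fun V : T d L → ℝ => Fm σ' E' t p V 0 0 := (F_BC ht p 0 0).1
    exact c1.measurable.sub (c2.measurable.comp hτm)
  have hsum : Integrable (fun V : T d L → ℝ => 4 * ((t ^ 2)⁻¹) ^ 2 *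
      ∑ x, D (V x) ^ 2 * ‖R σ' E' t (fun x => τ (V x)) 0 x‖ ^ 2) P :=
    (integrable_finsetSum _ fun x _ => hΦ x 0 x).const_mul _
  have hL : Integrable (fun V : T d L → ℝ =>
      ‖Fm σ E t p V 0 0 - Fm σ' E' t p (fun x => τ (V x)) 0 0‖ ^ 2) P := by
    refine hsum.mono' (hFm.norm.pow_const 2).aestronglyMeasurable
      (Eventually.of_forall fun V => ?_)
    rw [Real.norm_of_nonneg (by positivity)]
    exact hpt V
  refine (integral_mono hL hsum hpt).trans ?_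
  rw [integral_const_mul, integral_finsetSum _ fun x _ => hΦ x 0 x]
  have hs : ∀ x : T d L, ∫ V, D (V x) ^ 2 * ‖R σ' E' t (fun x => τ (V x)) 0 x‖ ^ 2 ∂P =
      ∫ V, D (V 0) ^ 2 * ‖R σ' E' t (fun x => τ (V x)) 0 (-x)‖ ^ 2 ∂P := by
    intro x
    have h1 := mpS (d := d) (L := L) μ x
    rw [← hP] at h1
    conv_rhs => rw [← h1.map_eq]
    rw [integral_map h1.measurable.aemeasurable]
    · refine integral_congr_ae (Eventually.of_forall fun V => ?_)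
      simp only [zero_add]
      have h2 := R_shift σ' E' t (fun z => τ (V z)) x 0 (-x)
      rw [neg_add_cancel, zero_add] at h2
      rw [h2, R_symm]
    · rw [h1.map_eq]
      exact (hΦ 0 0 (-x)).aestronglyMeasurable
  simp only [hs]
  rw [← integral_finsetSum _ fun x _ => hΦ 0 0 (-x)]
  have hfin : ∫ V, ∑ x : T d L, D (V 0) ^ 2 * ‖R σ' E' t (fun x => τ (V x)) 0 (-x)‖ ^ 2 ∂P ≤
      ∫ V, D (V 0) ^ 2 * (t ^ 2)⁻¹ ∂P := by
    refine integral_mono (integrable_finsetSum _ fun x _ => hΦ 0 0 (-x))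
      ((hDi 0).mul_const _) fun V => ?_
    simp only
    rw [← Finset.mul_sum]
    refine mul_le_mul_of_nonneg_left ?_ (by positivity)
    refine le_trans (le_of_eq ?_) (R_sum_le (σ := σ') (E := E') ht (fun x => τ (V x)) 0)
    exact Equiv.sum_comp (Equiv.neg (T d L)) (fun x => ‖R σ' E' t (fun x => τ (V x)) 0 x‖ ^ 2)
  have hev : ∫ V, D (V 0) ^ 2 ∂P = ∫ s, D s ^ 2 ∂μ := by
    have h1 := measurePreserving_eval (fun _ : T d L => μ) 0
    rw [← hP] at h1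
    conv_rhs => rw [← h1.map_eq]
    rw [integral_map h1.measurable.aemeasurable]
    rw [h1.map_eq]
    exact hD2.aestronglyMeasurable
  rw [integral_mul_const, hev] at hfin
  calc 4 * ((t ^ 2)⁻¹) ^ 2 * _ ≤ 4 * ((t ^ 2)⁻¹) ^ 2 * ((∫ s, D s ^ 2 ∂μ) * (t ^ 2)⁻¹) :=
        mul_le_mul_of_nonneg_left hfin (by positivity)
    _ = _ := by ring

end

end Run7.h442.HD.GA
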