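import Pool.Agent.Run7.h442.HD.GA1

/-! Comparison on the lattice. -/

set_option autoImplicit false
set_option linter.unusedSectionVars false

open scoped BigOperators Matrix Topology
open MeasureTheory Filter

namespace Run7.h442.HD.GA

open Pool.Agent.Run7.h47
open Pool.Agent.W788.MFP.Four Pool.Agent.W788.BK
open Pool.Agent.W788.MFP.Form
open Pool.Agent.H4R2.LO (Zd)
open Pool.Agent.H695R3.AN (lf lf_inj lf_add lf_sub)

section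
variable {d : ℕ} {σ E σ' E' t : ℝ}

/-- the law of the field on the torus -/
theorem law_torG (μ : Measure ℝ) [IsProbabilityMeasure μ] {L : ℕ} [NeZero L]
    {g : (T d L → ℝ) → ℝ} (hg : Measurable g) :
    ∫ ω, g (fun y => ω (lf y)) ∂(Measure.infinitePi fun _ : Zd d => μ) =
      ∫ V, g V ∂(Measure.pi fun _ : T d L => μ) := by
  have h1 := Pool.Agent.W788.Gen3.law_shift (d := d) (L := L) μ 0
  have h2 : (fun (ω : Zd d → ℝ) (y : T d L) => ω (lf y + 0)) = fun ω y => ω (lf y) := by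
    funext ω y
    rw [add_zero]
  rw [h2] at h1
  have hm : Measurable fun (ω : Zd d → ℝ) (y : T d L) => ω (lf y) :=
    measurable_pi_iff.2 fun y => measurable_pi_apply _
  rw [← h1, integral_map hm.aemeasurable hg.aestronglyMeasurable]

/-- **comparison on the lattice** -/
theorem lat_cmp (μ : Measure ℝ) [IsProbabilityMeasure μ] {τ D : ℝ → ℝ} (hτ : Measurable τ)
    (hD : Measurable D) (hD2 : Integrable (fun s => D s ^ 2) μ)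
    (h : ∀ s, σ * s - E = σ' * τ s - E' + D s) (hd : 1 ≤ d) (ht : 0 < t) (θ : Fin d → ℝ)
    {G G' : (Zd d → ℝ) → Zd d → ℂ}
    (hG : ∀ ω, IsGreen d σ ((E : ℂ) + (t : ℂ) * Complex.I) ω (G ω))
    (hG' : ∀ ω, IsGreen d σ' ((E' : ℂ) + (t : ℂ) * Complex.I) (fun x => τ (ω x)) (G' ω)) :
    Integrable (fun ω => ‖Qz θ (G ω) - Qz θ (G' ω)‖ ^ 2)
      (Measure.infinitePi fun _ : Zd d => μ) ∧
    ∫ ω, ‖Qz θ (G ω) - Qz θ (G' ω)‖ ^ 2 ∂(Measure.infinitePi fun _ : Zd d => μ) ≤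
      4 * ((t ^ 2)⁻¹) ^ 3 * ∫ s, D s ^ 2 ∂μ := by
  obtain ⟨Lf, hNZ, hLR⟩ : ∃ Lf : ℕ → ℕ, (∀ n, NeZero (Lf n)) ∧
      ∀ n, (Lf n : ℝ) = 8 * ((n : ℝ) + 1) ^ 2 + 1 := by
    refine ⟨fun n => 8 * (n + 1) ^ 2 + 1, fun n => ⟨Nat.succ_ne_zero _⟩, fun n => ?_⟩
    push_cast
    ring
  have hch : ∀ n : ℕ, ∃ j : Fin d → ℤ, ∀ i, |θ i - ang (Lf n) j i| ≤
      Real.pi / (Lf n : ℝ) := fun n => round_mom _ θ
  choose j hj using hch
  have hτm : ∀ n, Measurable fun (V : T d (Lf n) → ℝ) (x : T d (Lf n)) => τ (V x) := fun n =>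
    measurable_pi_iff.2 fun x => hτ.comp (measurable_pi_apply x)
  obtain ⟨Φ, hΦ⟩ : ∃ Φ : ∀ n : ℕ, (T d (Lf n) → ℝ) → ℝ, Φ = fun n V =>
      ‖Fm σ E t (mom d (Lf n) (j n)) V 0 0 -
        Fm σ' E' t (mom d (Lf n) (j n)) (fun x => τ (V x)) 0 0‖ ^ 2 := ⟨_, rfl⟩
  have hΦm : ∀ n, Measurable (Φ n) := by
    intro n
    rw [hΦ]
    have c1 : Continuous fun V : T d (Lf n) → ℝ => Fm σ E t (mom d (Lf n) (j n)) V 0 0 :=
      (F_BC ht _ 0 0).1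
    have c2 : Continuous fun V : T d (Lf n) → ℝ => Fm σ' E' t (mom d (Lf n) (j n)) V 0 0 :=
      (F_BC ht _ 0 0).1
    exact ((c1.measurable.sub (c2.measurable.comp (hτm n))).norm).pow_const 2
  have hres : ∀ n, Measurable fun (ω : Zd d → ℝ) (y : T d (Lf n)) => ω (lf y) := fun n =>
    measurable_pi_iff.2 fun y => measurable_pi_apply _
  have hFb : ∀ (n : ℕ) (s e : ℝ) (V : T d (Lf n) → ℝ),
      ‖Fm s e t (mom d (Lf n) (j n)) V 0 0‖ ≤ (t ^ 2)⁻¹ := by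
    intro n s e V
    rw [Fm_zero]
    refine (norm_sum_le _ _).trans (le_trans (le_of_eq ?_) (R_sum_le (σ := s) (E := e) ht V 0))
    refine Finset.sum_congr rfl fun y _ => ?_
    rw [norm_mul, norm_e, one_mul, Complex.norm_real, Real.norm_of_nonneg (by positivity)]
  have hΦb : ∀ (n : ℕ) (V : T d (Lf n) → ℝ), ‖Φ n V‖ ≤ (2 * (t ^ 2)⁻¹) ^ 2 := by
    intro n V
    rw [hΦ, Real.norm_of_nonneg (by positivity)]
    refine pow_le_pow_left₀ (norm_nonneg _) ((norm_sub_le _ _).trans ?_) 2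
    have := hFb n σ E V
    have := hFb n σ' E' (fun x => τ (V x))
    linarith
  have hlim : ∀ ω : Zd d → ℝ, Tendsto (fun n => Φ n (fun y => ω (lf y))) atTop
      (𝓝 (‖Qz θ (G ω) - Qz θ (G' ω)‖ ^ 2)) := by
    intro ω
    have h1 := Qz_tend hd ht θ Lf hLR j hj ω (G ω) (hG ω)
    have h2 := Qz_tend hd ht θ Lf hLR j hj (fun x => τ (ω x)) (G' ω) (hG' ω)
    have h3 := ((h1.sub h2).norm).pow 2
    rw [hΦ]
    exact h3
  have hΦω : ∀ n, Measurable fun ω : Zd d → ℝ => Φ n (fun y => ω (lf y)) := fun n =>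
    (hΦm n).comp (hres n)
  have hmeas : Measurable fun ω : Zd d → ℝ => ‖Qz θ (G ω) - Qz θ (G' ω)‖ ^ 2 := by
    refine measurable_of_tendsto_metrizable (f := fun (n : ℕ) (ω : Zd d → ℝ) =>
      Φ n (fun y => ω (lf y))) hΦω ?_
    rw [tendsto_pi_nhds]
    exact hlim
  have hdom := tendsto_integral_of_dominated_convergence (μ := Measure.infinitePi fun _ : Zd d => μ)
    (F := fun (n : ℕ) (ω : Zd d → ℝ) => Φ n (fun y => ω (lf y)))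
    (f := fun ω => ‖Qz θ (G ω) - Qz θ (G' ω)‖ ^ 2)
    (fun _ => (2 * (t ^ 2)⁻¹) ^ 2) (fun n => (hΦω n).aestronglyMeasurable)
    (integrable_const _) (fun n => Eventually.of_forall fun ω => hΦb n _)
    (Eventually.of_forall hlim)
  refine ⟨?_, ?_⟩
  · refine (integrable_const ((2 * (t ^ 2)⁻¹) ^ 2)).mono' hmeas.aestronglyMeasurable
      (Eventually.of_forall fun ω => ?_)
    refine le_of_tendsto ((hlim ω).norm) (Eventually.of_forall fun n => hΦb n _)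
  · refine le_of_tendsto hdom (Eventually.of_forall fun n => ?_)
    rw [law_torG μ (hΦm n), hΦ]
    exact int_cmp μ hτ hD hD2 h ht _

/-- a triangle inequality in mean square -/
theorem tri3 {α : Type*} [MeasurableSpace α] {P : Measure α} [IsProbabilityMeasure P]
    {X Y : α → ℂ} {x y : ℂ} {c a b e : ℝ} (hX : Measurable X) (hc : 0 ≤ c)
    (h1 : Integrable (fun ω => ‖X ω - Y ω‖ ^ 2) P) (h1' : ∫ ω, ‖X ω - Y ω‖ ^ 2 ∂P ≤ a)
    (h2 : Integrable (fun ω => ‖(c : ℂ) * Y ω - y‖ ^ 2) P)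
    (h2' : ∫ ω, ‖(c : ℂ) * Y ω - y‖ ^ 2 ∂P ≤ b) (h3 : ‖y - x‖ ^ 2 ≤ e) :
    Integrable (fun ω => ‖(c : ℂ) * X ω - x‖ ^ 2) P ∧
    ∫ ω, ‖(c : ℂ) * X ω - x‖ ^ 2 ∂P ≤ 3 * (c ^ 2 * a + b + e) := by
  have hp : ∀ ω, ‖(c : ℂ) * X ω - x‖ ^ 2 ≤
      3 * (c ^ 2 * ‖X ω - Y ω‖ ^ 2 + ‖(c : ℂ) * Y ω - y‖ ^ 2 + ‖y - x‖ ^ 2) := by
    intro ω
    have e1 : (c : ℂ) * X ω - x = (c : ℂ) * (X ω - Y ω) + ((c : ℂ) * Y ω - y) + (y - x) := by ring
    have e2 : ‖(c : ℂ) * X ω - x‖ ≤ c * ‖X ω - Y ω‖ + ‖(c : ℂ) * Y ω - y‖ + ‖y - x‖ := by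
      rw [e1]
      refine (norm_add₃_le).trans (le_of_eq ?_)
      rw [norm_mul, Complex.norm_real, Real.norm_of_nonneg hc]
    refine (pow_le_pow_left₀ (norm_nonneg _) e2 2).trans ?_
    nlinarith [sq_nonneg (c * ‖X ω - Y ω‖ - ‖(c : ℂ) * Y ω - y‖),
      sq_nonneg (c * ‖X ω - Y ω‖ - ‖y - x‖), sq_nonneg (‖(c : ℂ) * Y ω - y‖ - ‖y - x‖)]
  have hi : Integrable (fun ω => 3 * (c ^ 2 * ‖X ω - Y ω‖ ^ 2 + ‖(c : ℂ) * Y ω - y‖ ^ 2 +
      ‖y - x‖ ^ 2)) P :=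
    (((h1.const_mul _).add h2).add (integrable_const _)).const_mul _
  have hI : Integrable (fun ω => ‖(c : ℂ) * X ω - x‖ ^ 2) P := by
    refine hi.mono' ?_ (Eventually.of_forall fun ω => ?_)
    · exact ((((hX.const_mul (c : ℂ)).sub_const x).norm).pow_const 2).aestronglyMeasurable
    · rw [Real.norm_of_nonneg (by positivity)]
      exact hp ω
  refine ⟨hI, (integral_mono hI hi hp).trans ?_⟩
  have j1 : ∫ ω, (c ^ 2 * ‖X ω - Y ω‖ ^ 2 + ‖(c : ℂ) * Y ω - y‖ ^ 2 + ‖y - x‖ ^ 2) ∂P =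
      ∫ ω, (c ^ 2 * ‖X ω - Y ω‖ ^ 2 + ‖(c : ℂ) * Y ω - y‖ ^ 2) ∂P + ∫ _ω, ‖y - x‖ ^ 2 ∂P :=
    integral_add ((h1.const_mul _).add h2) (integrable_const _)
  have j2 : ∫ ω, (c ^ 2 * ‖X ω - Y ω‖ ^ 2 + ‖(c : ℂ) * Y ω - y‖ ^ 2) ∂P =
      ∫ ω, c ^ 2 * ‖X ω - Y ω‖ ^ 2 ∂P + ∫ ω, ‖(c : ℂ) * Y ω - y‖ ^ 2 ∂P :=
    integral_add (h1.const_mul _) h2
  rw [integral_const_mul, j1, j2, integral_const_mul, integral_const, probReal_univ, one_smul]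
  have : c ^ 2 * ∫ ω, ‖X ω - Y ω‖ ^ 2 ∂P ≤ c ^ 2 * a := by gcongr
  linarith

end

end Run7.h442.HD.GA
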