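import Pool.Agent.Run7.h442.HD.GA2

/-! Truncation of a law with finite moments. -/

set_option autoImplicit false
set_option linter.unusedSectionVars false

open scoped BigOperators Matrix Topology
open MeasureTheory Filter

namespace Run7.h442.HD.GA

/-- truncation -/
noncomputable def tr (B s : ℝ) : ℝ := if |s| ≤ B then s else 0

theorem tr_meas (B : ℝ) : Measurable (tr B) :=
  Measurable.ite (measurableSet_le measurable_norm measurable_const) measurable_id
    measurable_const

theorem tr_le {B : ℝ} (hB : 0 ≤ B) (s : ℝ) : |tr B s| ≤ B := by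
  unfold tr
  split_ifs with h
  · exact h
  · simpa using hB

theorem tr_cases (B s : ℝ) : tr B s = s ∨ (tr B s = 0 ∧ B < |s|) := by
  unfold tr
  split_ifs with h
  · exact Or.inl rfl
  · exact Or.inr ⟨rfl, not_le.1 h⟩

/-- the mean of the truncation -/
noncomputable def tm (μ : Measure ℝ) (B : ℝ) : ℝ := ∫ s, tr B s ∂μ

/-- the variance of the truncation -/
noncomputable def tv (μ : Measure ℝ) (B : ℝ) : ℝ := ∫ s, (tr B s - tm μ B) ^ 2 ∂μ

/-- the error of the truncation -/
noncomputable def tk (μ : Measure ℝ) (B : ℝ) : ℝ := ∫ s, (s - tr B s) ^ 2 ∂μ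

section
variable {μ : Measure ℝ} [IsProbabilityMeasure μ] {B : ℝ}

theorem tr_int (hB : 0 ≤ B) : Integrable (tr B) μ :=
  Integrable.of_bound (tr_meas B).aestronglyMeasurable B (Eventually.of_forall fun s => by
    rw [Real.norm_eq_abs]
    exact tr_le hB s)

theorem tr_int2 (hB : 0 ≤ B) : Integrable (fun s => tr B s ^ 2) μ :=
  Integrable.of_bound ((tr_meas B).pow_const 2).aestronglyMeasurable (B ^ 2)
    (Eventually.of_forall fun s => by
      rw [Real.norm_eq_abs, abs_pow]
      exact pow_le_pow_left₀ (abs_nonneg _) (tr_le hB s) 2)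

theorem tk_int (h2i : Integrable (fun x => x ^ 2) μ) :
    Integrable (fun s => (s - tr B s) ^ 2) μ := by
  refine h2i.mono' (((measurable_id.sub (tr_meas B)).pow_const 2)).aestronglyMeasurable
    (Eventually.of_forall fun s => ?_)
  rw [Real.norm_of_nonneg (by positivity)]
  rcases tr_cases B s with h | ⟨h, -⟩
  · rw [h, sub_self]
    simp only [ne_eq, OfNat.ofNat_ne_zero, not_false_eq_true, zero_pow]
    positivity
  · rw [h, sub_zero]

theorem tk_nonneg : 0 ≤ tk μ B := integral_nonneg fun s => by positivity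

theorem tk_le (hB : 0 < B) (h2i : Integrable (fun x => x ^ 2) μ) {k : ℕ}
    (hki : Integrable (fun x => x ^ (2 * k + 2)) μ) :
    tk μ B ≤ (∫ s, s ^ (2 * k + 2) ∂μ) / B ^ (2 * k) := by
  unfold tk
  rw [← integral_div]
  refine integral_mono (tk_int h2i) (hki.div_const _) fun s => ?_
  simp only
  have he : 0 ≤ s ^ (2 * k + 2) := by
    have : 2 * k + 2 = 2 * (k + 1) := by ring
    rw [this, pow_mul]
    positivity
  rcases tr_cases B s with h | ⟨h, h'⟩
  · rw [h, sub_self]
    simp only [ne_eq, OfNat.ofNat_ne_zero, not_false_eq_true, zero_pow]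
    positivity
  · rw [h, sub_zero, le_div_iff₀ (by positivity), pow_add, mul_comm]
    refine mul_le_mul_of_nonneg_right ?_ (by positivity)
    rw [pow_mul, pow_mul]
    refine pow_le_pow_left₀ (by positivity) ?_ k
    rw [← sq_abs s]
    exact pow_le_pow_left₀ hB.le h'.le 2

theorem tm_le (hB : 1 ≤ B) (h1i : Integrable (fun x => x) μ) (h2i : Integrable (fun x => x ^ 2) μ)
    (h1 : ∫ x, x ∂μ = 0) : |tm μ B| ≤ tk μ B := by
  have hB0 : 0 ≤ B := by linarith
  have e1 : tm μ B = ∫ s, (tr B s - s) ∂μ := by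
    rw [integral_sub (tr_int hB0) h1i, h1, sub_zero]
    rfl
  rw [e1, ← Real.norm_eq_abs]
  refine (norm_integral_le_integral_norm _).trans ?_
  unfold tk
  refine integral_mono ((tr_int hB0).sub h1i).norm (tk_int h2i) fun s => ?_
  simp only
  rcases tr_cases B s with h | ⟨h, h'⟩
  · rw [h, sub_self]
    simp
  · rw [h, zero_sub, sub_zero, norm_neg, Real.norm_eq_abs, ← sq_abs]
    nlinarith [abs_nonneg s]

theorem tv_eq (hB : 0 ≤ B) (h2i : Integrable (fun x => x ^ 2) μ) (h2 : ∫ x, x ^ 2 ∂μ = 1) :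
    tv μ B = 1 - tk μ B - tm μ B ^ 2 := by
  have i1 := tr_int (μ := μ) hB
  have i2 := tr_int2 (μ := μ) hB
  have e1 : tv μ B = ∫ s, tr B s ^ 2 ∂μ - tm μ B ^ 2 := by
    unfold tv
    have e2 : ∀ s, (tr B s - tm μ B) ^ 2 =
        tr B s ^ 2 - (2 * tm μ B) * tr B s + tm μ B ^ 2 := fun s => by ring
    simp only [e2]
    have e3 : ∫ s, (tr B s ^ 2 - (2 * tm μ B) * tr B s + tm μ B ^ 2) ∂μ =
        ∫ s, (tr B s ^ 2 - (2 * tm μ B) * tr B s) ∂μ + ∫ _s, tm μ B ^ 2 ∂μ :=
      integral_add (i2.sub (i1.const_mul _)) (integrable_const _)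
    have e4 : ∫ s, (tr B s ^ 2 - (2 * tm μ B) * tr B s) ∂μ =
        ∫ s, tr B s ^ 2 ∂μ - ∫ s, (2 * tm μ B) * tr B s ∂μ := integral_sub i2 (i1.const_mul _)
    rw [e3, e4, integral_const_mul]
    have e5 : ∫ s, tr B s ∂μ = tm μ B := rfl
    rw [e5]
    simp only [integral_const, probReal_univ, one_smul]
    ring
  have e6 : ∫ s, tr B s ^ 2 ∂μ = 1 - tk μ B := by
    have e7 : ∀ s, tr B s ^ 2 = s ^ 2 - (s - tr B s) ^ 2 := by
      intro s
      rcases tr_cases B s with h | ⟨h, -⟩
      · rw [h]
        ring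
      · rw [h]
        ring
    simp only [e7]
    rw [integral_sub h2i (tk_int h2i), h2]
    rfl
  rw [e1, e6]

/-- the standardized truncation -/
noncomputable def ts (μ : Measure ℝ) (B s : ℝ) : ℝ := (tr B s - tm μ B) / Real.sqrt (tv μ B)

theorem ts_meas : Measurable (ts μ B) := ((tr_meas B).sub_const _).div_const _

/-- the law of the standardized truncation -/
@[reducible]
noncomputable def tLaw (μ : Measure ℝ) [IsProbabilityMeasure μ] (B : ℝ) (hB : 1 ≤ B)
    (hm : |tm μ B| ≤ 1) (hv : 1 / 4 ≤ tv μ B) : Run7.h108.GL.Law where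
  μ := μ.map (ts μ B)
  pr := Measure.isProbabilityMeasure_map ts_meas.aemeasurable
  b := 2 * (B + 1)
  hb := by linarith
  bd := by
    have hms : MeasurableSet {s : ℝ | |s| ≤ 2 * (B + 1)} :=
      measurableSet_le measurable_norm measurable_const
    rw [ae_map_iff ts_meas.aemeasurable hms]
    refine Eventually.of_forall fun s => ?_
    have hs : 1 / 2 ≤ Real.sqrt (tv μ B) := by
      refine Real.le_sqrt_of_sq_le ?_
      linarith
    have h1 : |tr B s - tm μ B| ≤ B + 1 := by
      refine (abs_sub _ _).trans ?_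
      have := tr_le (by linarith : 0 ≤ B) s
      linarith
    unfold ts
    rw [abs_div, abs_of_pos (by linarith : 0 < Real.sqrt (tv μ B)),
      div_le_iff₀ (by linarith)]
    nlinarith
  mean := by
    rw [integral_map ts_meas.aemeasurable (by fun_prop)]
    unfold ts
    rw [integral_div, integral_sub (tr_int (by linarith)) (integrable_const _)]
    simp [tm]
  var := by
    rw [integral_map ts_meas.aemeasurable (by fun_prop)]
    unfold ts
    simp only [div_pow]
    rw [integral_div, Real.sq_sqrt (by linarith)]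
    exact div_self (by linarith : tv μ B ≠ 0)

end

end Run7.h442.HD.GA
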