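import Pool.Agent.Run7.h442.HD.GA3

/-! Quantum diffusion in high dimension for all laws with finite moments. -/

set_option autoImplicit false
set_option linter.unusedSectionVars false

open scoped BigOperators Matrix Topology
open MeasureTheory Filter

namespace Run7.h442.HD.GA

open Pool.Agent.Run7.h47
open Pool.Agent.H4R2.LO (Zd)
open Run7.h442.HD

/-- the profile is Lipschitz in the first argument -/
theorem Pr_lip1 {G G' q : ℝ} (hG : 0 < G) (hG' : 0 < G') (hq : 0 ≤ q) :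
    |Pr G q - Pr G' q| ≤ |G - G'| := by
  have e1 : Pr G q - Pr G' q =
      (G - G') * ((4 * (G * G') + 2 * q * (G + G')) / ((2 * G + q) * (2 * G' + q))) := by
    unfold Pr
    field_simp
    ring
  have h1 : 0 < (2 * G + q) * (2 * G' + q) := by positivity
  have h2 : (4 * (G * G') + 2 * q * (G + G')) / ((2 * G + q) * (2 * G' + q)) ≤ 1 := by
    rw [div_le_one h1]
    nlinarith [sq_nonneg q]
  have h3 : 0 ≤ (4 * (G * G') + 2 * q * (G + G')) / ((2 * G + q) * (2 * G' + q)) := by positivity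
  rw [e1, abs_mul, abs_of_nonneg h3]
  exact mul_le_of_le_one_right (abs_nonneg _) h2

theorem exp_lip {a b : ℝ} (ha : 0 ≤ a) (hb : 0 ≤ b) :
    |Real.exp (-a) - Real.exp (-b)| ≤ |a - b| := by
  have key : ∀ x y : ℝ, 0 ≤ x → x ≤ y → Real.exp (-x) - Real.exp (-y) ≤ y - x := by
    intro x y hx hxy
    have h1 : Real.exp (-y) = Real.exp (-x) * Real.exp (-(y - x)) := by
      rw [← Real.exp_add]
      congr 1
      ring
    have h2 := Real.add_one_le_exp (-(y - x))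
    have h3 : Real.exp (-x) ≤ 1 := Real.exp_le_one_iff.2 (by linarith)
    have h4 := Real.exp_pos (-x)
    have h5 : Real.exp (-(y - x)) ≤ 1 := Real.exp_le_one_iff.2 (by linarith)
    rw [h1]
    nlinarith
  rcases le_total a b with h | h
  · have h1 : Real.exp (-b) ≤ Real.exp (-a) := Real.exp_le_exp.2 (by linarith)
    rw [abs_of_nonneg (by linarith), abs_sub_comm, abs_of_nonneg (by linarith)]
    exact key a b ha h
  · have h1 : Real.exp (-a) ≤ Real.exp (-b) := Real.exp_le_exp.2 (by linarith)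
    rw [abs_sub_comm, abs_of_nonneg (by linarith), abs_of_nonneg (by linarith)]
    exact key b a hb h

theorem Ga_lip {d : ℕ} (hd : 1 ≤ d) {E E' A r : ℝ} (hA : |E| ≤ A * Real.sqrt d)
    (hr : |E - E'| ≤ r) (hr1 : r ≤ 1) : |Ga d E' - Ga d E| ≤ r * (2 * |A| + 1) := by
  have hdR : (1 : ℝ) ≤ d := by exact_mod_cast hd
  have hd0 : (0 : ℝ) < d := by linarith
  have hs1 : 1 ≤ Real.sqrt d := by rw [Real.one_le_sqrt]; exact hdR
  have hss : Real.sqrt d * Real.sqrt d = d := Real.mul_self_sqrt hd0.le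
  have hr0 : 0 ≤ r := (abs_nonneg _).trans hr
  have hpi : Real.sqrt Real.pi / 2 ≤ 1 := by
    have h1 : Real.sqrt Real.pi ≤ 2 := by
      rw [Real.sqrt_le_left (by norm_num)]
      have := Real.pi_lt_four
      linarith
    linarith
  have hpi0 : 0 ≤ Real.sqrt Real.pi / 2 := by positivity
  unfold Ga
  rw [← mul_sub, abs_mul, abs_of_nonneg hpi0]
  have h1 := exp_lip (a := E' ^ 2 / (4 * d)) (b := E ^ 2 / (4 * d)) (by positivity)
    (by positivity)
  have h2 : |E' ^ 2 / (4 * d) - E ^ 2 / (4 * d)| ≤ r * (2 * |A| + 1) := by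
    have e1 : E' ^ 2 / (4 * d) - E ^ 2 / (4 * d) = (E' - E) * (E' + E) / (4 * d) := by
      field_simp
      ring
    rw [e1, abs_div, abs_mul, abs_of_pos (by positivity : (0 : ℝ) < 4 * d),
      div_le_iff₀ (by positivity)]
    have h3 : |E' - E| ≤ r := by rwa [abs_sub_comm]
    have hA' : |E| ≤ |A| * Real.sqrt d :=
      hA.trans (mul_le_mul_of_nonneg_right (le_abs_self A) (by positivity))
    have h4 : |E' + E| ≤ 2 * |A| * Real.sqrt d + 1 := by
      have e2 : E' + E = (E' - E) + 2 * E := by ring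
      rw [e2]
      refine (abs_add_le _ _).trans ?_
      rw [abs_mul, abs_two]
      linarith
    have h5 : 2 * |A| * Real.sqrt d + 1 ≤ (2 * |A| + 1) * (4 * d) := by
      have h6 : Real.sqrt d ≤ d := by nlinarith
      have h7 : 0 ≤ |A| := abs_nonneg A
      nlinarith
    calc |E' - E| * |E' + E| ≤ r * ((2 * |A| + 1) * (4 * d)) :=
          mul_le_mul h3 (h4.trans h5) (abs_nonneg _) hr0
      _ = _ := by ring
  calc Real.sqrt Real.pi / 2 * _ ≤ 1 * |E' ^ 2 / (4 * d) - E ^ 2 / (4 * d)| :=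
        mul_le_mul hpi h1 (abs_nonneg _) (by norm_num)
    _ ≤ _ := by rw [one_mul]; exact h2

/-- **the reduction to growing support** -/
theorem main (hQ : S_QDB) : S_QDG := by
  intro μ _ hmom h1 h2 K A M ε hK hM hε
  have hK0 : 0 < K := by linarith
  have h1i : Integrable (fun x : ℝ => x) μ := by simpa using hmom 1
  have h2i : Integrable (fun x : ℝ => x ^ 2) μ := hmom 2
  obtain ⟨k, hk⟩ : ∃ k : ℕ, k = 50000 := ⟨_, rfl⟩
  obtain ⟨M0, hM0⟩ : ∃ M0, M0 = ∫ s, s ^ (2 * k + 2) ∂μ := ⟨_, rfl⟩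
  have hM00 : 0 ≤ M0 := by
    rw [hM0]
    refine integral_nonneg fun s => ?_
    have : 2 * k + 2 = 2 * (k + 1) := by ring
    simp only
    rw [this, pow_mul]
    positivity
  obtain ⟨δ, hδ⟩ : ∃ δ, δ = min 1 (ε / 12) := ⟨_, rfl⟩
  have hδ0 : 0 < δ := by rw [hδ]; positivity
  have hδ1 : δ ≤ 1 := by rw [hδ]; exact min_le_left _ _
  have hδ2 : δ ≤ ε / 12 := by rw [hδ]; exact min_le_right _ _
  obtain ⟨C, hC⟩ : ∃ C, C = 3 * M ^ 2 + K * (2 * |A| + 1) := ⟨_, rfl⟩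
  have hC0 : 0 < C := by
    rw [hC]
    positivity
  obtain ⟨w, hw0, hw1, d0, H⟩ := hQ (2 * K) (|A| + K) (2 * M) (ε / 12) (by linarith)
    (by linarith) (by linarith)
  obtain ⟨d1, H1⟩ := small_rp (1 / 20000) (by norm_num) (1 / 3) (by norm_num)
  obtain ⟨N, hN⟩ := exists_nat_ge (8 * M0 + K * M0 + C * M0 / δ + 24 * K ^ 2 * M0 / ε + 3)
  refine ⟨w, hw0, hw1, max (max d0 d1) N, ?_⟩
  intro d hd σ E t hσl hσu hE htl htu P hP G hG
  have hdd0 : d0 ≤ d := (le_max_left _ _).trans ((le_max_left _ _).trans hd)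
  have hdd1 : d1 ≤ d := (le_max_right _ _).trans ((le_max_left _ _).trans hd)
  have hdN : (N : ℝ) ≤ d := by exact_mod_cast (le_max_right _ _).trans hd
  have g1 : 0 ≤ C * M0 / δ := by positivity
  have g2 : 0 ≤ 24 * K ^ 2 * M0 / ε := by positivity
  have g3 : 0 ≤ K * M0 := by positivity
  have hd3 : (3 : ℝ) ≤ d := by linarith
  have hd1R : (1 : ℝ) ≤ d := by linarith
  have hdR : (0 : ℝ) < d := by linarith
  have hd1 : 1 ≤ d := by exact_mod_cast hd1R
  have hsd : 0 < Real.sqrt d := Real.sqrt_pos.2 hdR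
  have ht : 0 < t := lt_of_lt_of_le (Real.rpow_pos_of_pos hdR _) htl
  have hσ0 : 0 < |σ| := lt_of_lt_of_le (by positivity) hσl
  -- the level of truncation
  obtain ⟨B, hB⟩ : ∃ B, B = (d : ℝ) ^ (1 / 20000 : ℝ) := ⟨_, rfl⟩
  have hB0 : 0 < B := by rw [hB]; positivity
  have hB3 : 3 ≤ B := by
    have h3 := H1 d hdd1
    rw [Real.rpow_neg hdR.le, ← hB] at h3
    have h4 := (inv_le_comm₀ hB0 (by norm_num : (0 : ℝ) < 1 / 3)).1 h3
    norm_num at h4
    exact h4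
  have hBsq : B ^ 2 = (d : ℝ) ^ (1 / 10000 : ℝ) := by
    rw [hB, ← Real.rpow_natCast, ← Real.rpow_mul hdR.le]
    norm_num
  have hBk : B ^ (2 * k) = (d : ℝ) ^ 5 := by
    rw [hB, ← Real.rpow_natCast, ← Real.rpow_mul hdR.le, ← Real.rpow_natCast (d : ℝ) 5, hk]
    norm_num
  obtain ⟨κ, hκ⟩ : ∃ κ, κ = tk μ B := ⟨_, rfl⟩
  have hκ0 : 0 ≤ κ := hκ ▸ tk_nonneg
  have hκ5 : κ ≤ M0 / (d : ℝ) ^ 5 := by
    have := tk_le (μ := μ) hB0 h2i (hmom (2 * k + 2))
    rw [hBk, ← hM0, ← hκ] at this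
    exact this
  have hκ1 : κ ≤ M0 / d := by
    refine hκ5.trans ?_
    refine div_le_div_of_nonneg_left hM00 hdR ?_
    calc (d : ℝ) = (d : ℝ) ^ 1 := (pow_one _).symm
      _ ≤ (d : ℝ) ^ 5 := pow_le_pow_right₀ hd1R (by norm_num)
  have hκ8 : κ ≤ 1 / 8 := by
    refine hκ1.trans ?_
    rw [div_le_iff₀ hdR]
    linarith
  have hκK : K * κ ≤ 1 := by
    calc K * κ ≤ K * (M0 / d) := by gcongr
      _ = K * M0 / d := by ring
      _ ≤ 1 := by
          rw [div_le_one hdR]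
          linarith
  have hκC : C * κ ≤ δ := by
    calc C * κ ≤ C * (M0 / d) := by gcongr
      _ = C * M0 / d := by ring
      _ ≤ δ := by
          rw [div_le_iff₀ hdR, ← div_le_iff₀' hδ0]
          linarith
  have hm := tm_le (μ := μ) (by linarith : 1 ≤ B) h1i h2i h1
  have hv := tv_eq (μ := μ) hB0.le h2i h2
  obtain ⟨m, hmd⟩ : ∃ m, m = tm μ B := ⟨_, rfl⟩
  obtain ⟨v, hvd⟩ : ∃ v, v = tv μ B := ⟨_, rfl⟩
  rw [← hmd, ← hκ] at hm
  rw [← hmd, ← hvd, ← hκ] at hv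
  have hm2 : m ^ 2 ≤ κ := by
    rw [← sq_abs]
    have h3 : |m| ≤ 1 := by linarith
    nlinarith [abs_nonneg m]
  have hv1 : v ≤ 1 := by
    have := sq_nonneg m
    linarith
  have hv34 : 3 / 4 ≤ v := by linarith
  obtain ⟨s, hs⟩ : ∃ s, s = Real.sqrt v := ⟨_, rfl⟩
  have hs2 : s ^ 2 = v := by rw [hs, Real.sq_sqrt (by linarith)]
  have hs0 : 0 ≤ s := by rw [hs]; positivity
  have hs12 : 1 / 2 ≤ s := by
    rw [hs]
    refine Real.le_sqrt_of_sq_le ?_
    linarith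
  have hs1 : s ≤ 1 := by
    rw [hs, Real.sqrt_le_left (by norm_num)]
    simpa using hv1
  have hs00 : 0 < s := by linarith
  -- the truncated model
  have hm1 : |tm μ B| ≤ 1 := by
    rw [← hmd]
    linarith
  have hv14 : 1 / 4 ≤ tv μ B := by
    rw [← hvd]
    linarith
  let _ := tLaw μ B (by linarith) hm1 hv14
  have hb : (tLaw μ B (by linarith) hm1 hv14).b ≤ (d : ℝ) ^ (1 / 10000 : ℝ) := by
    show 2 * (B + 1) ≤ _
    rw [← hBsq]
    nlinarith
  have hσ' : |σ * s| = |σ| * s := by rw [abs_mul, abs_of_nonneg hs0]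
  have c1 : 1 / (2 * K) ≤ |σ * s| := by
    rw [hσ']
    calc 1 / (2 * K) = 1 / K * (1 / 2) := by field_simp
      _ ≤ |σ| * s := by gcongr
  have c2 : |σ * s| ≤ 2 * K := by
    rw [hσ']
    calc |σ| * s ≤ K * 1 := by gcongr
      _ ≤ 2 * K := by linarith
  have hσm : |σ * m| ≤ K * κ := by
    rw [abs_mul]
    gcongr
  have c3 : |E - σ * m| ≤ (|A| + K) * Real.sqrt d := by
    refine (abs_sub _ _).trans ?_
    have h3 : A * Real.sqrt d ≤ |A| * Real.sqrt d :=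
      mul_le_mul_of_nonneg_right (le_abs_self A) hsd.le
    have h4 : 1 ≤ Real.sqrt d := by rw [Real.one_le_sqrt]; exact hd1R
    have h5 : K ≤ K * Real.sqrt d := le_mul_of_one_le_right hK0.le h4
    have h6 : K * κ ≤ K := by nlinarith
    rw [add_mul]
    linarith
  have c4 : ∑ i, |P i / s| ≤ 2 * M := by
    have h3 : ∀ i, |P i / s| = |P i| * s⁻¹ := fun i => by
      rw [abs_div, abs_of_pos hs00, div_eq_mul_inv]
    simp only [h3]
    rw [← Finset.sum_mul]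
    have h4 : s⁻¹ ≤ 2 := by
      have := inv_anti₀ (by norm_num : (0 : ℝ) < 1 / 2) hs12
      norm_num at this
      exact this
    calc (∑ i, |P i|) * s⁻¹ ≤ M * 2 := mul_le_mul hP h4 (by positivity) hM
      _ = _ := by ring
  choose GB hGB using fun ω : Zd d → ℝ => green_exists (d := d) (σ := σ * s) (E := E - σ * m) ht ω
  obtain ⟨k1, k2⟩ := H d hdd0 hb (σ * s) (E - σ * m) t c1 c2 c3 htl htu (fun i => P i / s) c4 GB
    hGB
  obtain ⟨θ, hθ⟩ : ∃ θ : Fin d → ℝ, θ = fun i => |σ| * Real.sqrt (t / Real.sqrt d) * P i :=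
    ⟨_, rfl⟩
  have hθ' : (fun i => |σ * s| * Real.sqrt (t / Real.sqrt d) * (P i / s)) = θ := by
    rw [hθ]
    funext i
    rw [hσ']
    field_simp
  obtain ⟨y, hy⟩ : ∃ y : ℂ, y = ((Pr (Ga d (E - σ * m)) (∑ i, (P i / s) ^ 2) : ℝ) : ℂ) :=
    ⟨_, rfl⟩
  obtain ⟨x, hx⟩ : ∃ x : ℂ, x = ((Pr (Ga d E) (∑ i, P i ^ 2) : ℝ) : ℂ) := ⟨_, rfl⟩
  rw [hθ', ← hy] at k1 k2
  rw [← hθ, ← hx]
  -- transfer to the original measure
  have hinf : (Measure.infinitePi fun _ : Zd d => μ).map (fun ω x => ts μ B (ω x)) =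
      Measure.infinitePi fun _ : Zd d => (tLaw μ B (by linarith) hm1 hv14).μ :=
    Measure.infinitePi_map_pi (μ := fun _ : Zd d => μ) (f := fun _ s => ts μ B s)
      fun _ => ts_meas
  have hmeas : Measurable fun (ω : Zd d → ℝ) (x : Zd d) => ts μ B (ω x) :=
    measurable_pi_iff.2 fun x => ts_meas.comp (measurable_pi_apply x)
  rw [← hinf] at k1 k2
  rw [integral_map hmeas.aemeasurable k1.aestronglyMeasurable] at k2
  have k1' := k1.comp_measurable hmeas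
  -- comparison
  have hτ : ∀ u : ℝ, σ * u - E = (σ * s) * ts μ B u - (E - σ * m) + σ * (u - tr B u) := by
    intro u
    unfold ts
    rw [← hmd, ← hvd, ← hs]
    field_simp
    ring
  have hDm : Measurable fun u : ℝ => σ * (u - tr B u) :=
    (measurable_id.sub (tr_meas B)).const_mul _
  have hD2 : Integrable (fun u => (σ * (u - tr B u)) ^ 2) μ := by
    simp only [mul_pow]
    exact (tk_int h2i).const_mul _
  obtain ⟨l1, l2⟩ := lat_cmp μ ts_meas hDm hD2 hτ hd1 ht θ hG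
    (G' := fun ω => GB (fun x => ts μ B (ω x))) (fun ω => hGB _)
  have hDv : ∫ u, (σ * (u - tr B u)) ^ 2 ∂μ ≤ K ^ 2 * κ := by
    simp only [mul_pow]
    rw [integral_const_mul]
    have h3 : ∫ u, (u - tr B u) ^ 2 ∂μ = κ := hκ.symm
    rw [h3, ← sq_abs σ]
    gcongr
  have ht6 : ((t ^ 2)⁻¹) ^ 3 ≤ (d : ℝ) ^ 4 := by
    have h3 : (d : ℝ) ^ (-(2 / 3 : ℝ)) ≤ t := by
      refine le_trans ?_ htl
      exact Real.rpow_le_rpow_of_exponent_le hd1R (by norm_num)
    have h4 : ((d : ℝ) ^ 4)⁻¹ ≤ t ^ 6 := by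
      calc ((d : ℝ) ^ 4)⁻¹ = ((d : ℝ) ^ (-(2 / 3 : ℝ))) ^ 6 := by
            rw [← Real.rpow_natCast ((d : ℝ) ^ (-(2 / 3 : ℝ))) 6, ← Real.rpow_mul hdR.le,
              ← Real.rpow_natCast (d : ℝ) 4, ← Real.rpow_neg hdR.le]
            norm_num
        _ ≤ t ^ 6 := by gcongr
    have h5 : ((t ^ 2)⁻¹) ^ 3 = (t ^ 6)⁻¹ := by
      rw [inv_pow, ← pow_mul]
    rw [h5]
    exact inv_le_of_inv_le₀ (by positivity) h4
  have l3 : ∫ ω, ‖Qz θ (G ω) - Qz θ (GB (fun x => ts μ B (ω x)))‖ ^ 2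
      ∂(Measure.infinitePi fun _ : Zd d => μ) ≤ ε / 6 := by
    refine l2.trans ?_
    calc 4 * ((t ^ 2)⁻¹) ^ 3 * ∫ u, (σ * (u - tr B u)) ^ 2 ∂μ ≤
        4 * (d : ℝ) ^ 4 * (K ^ 2 * (M0 / (d : ℝ) ^ 5)) := by
          have h3 : 0 ≤ ∫ u, (σ * (u - tr B u)) ^ 2 ∂μ := integral_nonneg fun u => by positivity
          have h4 : K ^ 2 * κ ≤ K ^ 2 * (M0 / (d : ℝ) ^ 5) := by gcongr
          exact mul_le_mul (by gcongr) (hDv.trans h4) h3 (by positivity)
      _ = 4 * K ^ 2 * M0 / d := by field_simp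
      _ ≤ ε / 6 := by
          have h3 : 24 * K ^ 2 * M0 / ε ≤ d := by linarith
          rw [div_le_iff₀ hε] at h3
          rw [div_le_iff₀ hdR]
          linarith
  -- the profiles
  have hyx : ‖y - x‖ ^ 2 ≤ ε / 12 := by
    have hq0 : 0 ≤ ∑ i, P i ^ 2 := Finset.sum_nonneg fun i _ => by positivity
    have hq1 : ∑ i, (P i / s) ^ 2 = (∑ i, P i ^ 2) / v := by
      rw [Finset.sum_div]
      refine Finset.sum_congr rfl fun i _ => ?_
      rw [div_pow, hs2]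
    have hv0 : 0 < v := by linarith
    have hqM : ∑ i, P i ^ 2 ≤ M ^ 2 := by
      calc ∑ i, P i ^ 2 = ∑ i, |P i| ^ 2 := Finset.sum_congr rfl fun i _ => (sq_abs _).symm
        _ ≤ (∑ i, |P i|) ^ 2 := Finset.sum_sq_le_sq_sum_of_nonneg fun i _ => abs_nonneg _
        _ ≤ M ^ 2 := by
            have : 0 ≤ ∑ i, |P i| := Finset.sum_nonneg fun i _ => abs_nonneg _
            gcongr
    have p1 := Run7.h973.HD_ZM.Pr_lip (G := Ga d (E - σ * m)) (q := ∑ i, (P i / s) ^ 2)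
      (q' := ∑ i, P i ^ 2) (Run7.h973.HD_ZM.Ga_pos _ _)
      (Finset.sum_nonneg fun i _ => by positivity) hq0
    have p2 := Pr_lip1 (G := Ga d (E - σ * m)) (G' := Ga d E) (q := ∑ i, P i ^ 2)
      (Run7.h973.HD_ZM.Ga_pos _ _) (Run7.h973.HD_ZM.Ga_pos _ _) hq0
    have p3 := Ga_lip hd1 (E' := E - σ * m) hE (r := K * κ) (by
      have : E - (E - σ * m) = σ * m := by ring
      rw [this]
      exact hσm) hκK
    have p4 : |∑ i, (P i / s) ^ 2 - ∑ i, P i ^ 2| ≤ 3 * M ^ 2 * κ := by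
      rw [hq1]
      have e1 : (∑ i, P i ^ 2) / v - ∑ i, P i ^ 2 = (∑ i, P i ^ 2) * ((1 - v) / v) := by
        field_simp
      have h3 : (1 - v) / v ≤ 3 * κ := by
        rw [div_le_iff₀ hv0]
        nlinarith
      have h4 : 0 ≤ (1 - v) / v := div_nonneg (by linarith) hv0.le
      rw [e1, abs_of_nonneg (by positivity)]
      calc (∑ i, P i ^ 2) * ((1 - v) / v) ≤ M ^ 2 * (3 * κ) := by gcongr
        _ = _ := by ring
    have p5 : ‖y - x‖ ≤ C * κ := by
      rw [hy, hx, ← Complex.ofReal_sub, Complex.norm_real, Real.norm_eq_abs]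
      have e1 : Pr (Ga d (E - σ * m)) (∑ i, (P i / s) ^ 2) - Pr (Ga d E) (∑ i, P i ^ 2) =
          (Pr (Ga d (E - σ * m)) (∑ i, (P i / s) ^ 2) - Pr (Ga d (E - σ * m)) (∑ i, P i ^ 2)) +
          (Pr (Ga d (E - σ * m)) (∑ i, P i ^ 2) - Pr (Ga d E) (∑ i, P i ^ 2)) := by ring
      rw [e1]
      refine (abs_add_le _ _).trans ?_
      rw [hC]
      have e2 : (3 * M ^ 2 + K * (2 * |A| + 1)) * κ = 3 * M ^ 2 * κ + K * κ * (2 * |A| + 1) := by
        ring
      rw [e2]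
      exact add_le_add (p1.trans p4) (p2.trans p3)
    have p6 : ‖y - x‖ ≤ δ := p5.trans hκC
    calc ‖y - x‖ ^ 2 ≤ δ ^ 2 := pow_le_pow_left₀ (norm_nonneg _) p6 2
      _ ≤ δ := by nlinarith
      _ ≤ ε / 12 := hδ2
  have hτ1 : Real.sqrt d * t ≤ 1 := by
    rw [mul_comm]
    exact htu.trans hw1
  have hτ0 : 0 ≤ Real.sqrt d * t := by positivity
  obtain ⟨r1, r2⟩ := tri3 (P := Measure.infinitePi fun _ : Zd d => μ)
    (X := fun ω => Qz θ (G ω)) (Y := fun ω => Qz θ (GB (fun x => ts μ B (ω x))))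
    (Qz_meas hd1 ht θ hG) hτ0 l1 l3 k1' k2 hyx
  refine ⟨r1, r2.trans ?_⟩
  have h9 : (Real.sqrt d * t) ^ 2 ≤ 1 := pow_le_one₀ hτ0 hτ1
  have h10 : (Real.sqrt d * t) ^ 2 * (ε / 6) ≤ 1 * (ε / 6) := by gcongr
  linarith

/-- **quantum diffusion in high dimension for all laws with finite moments** -/
theorem qdG : S_QDG := main all_qdB

end Run7.h442.HD.GA
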