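import Pool.Agent.Run7.h442.HD.Es2

/-! The grid, high dimension. -/

set_option autoImplicit false
set_option linter.unusedSectionVars false

open scoped BigOperators Matrix
open MeasureTheory

namespace Run7.h108.GL.HD

open Pool.Agent.Run7.h47 hiding Hyp good
open Pool.Agent.W788.MFP.Four Pool.Agent.W788.BK
open Pool.Agent.W788.MFP.Form
open Run7.h442.HD

variable {d L : ℕ} [NeZero L] [Law]

/-- all the data, with the small parameter `ξ` -/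
structure Dx (d L : ℕ) [NeZero L] (K σ E ξ : ℝ) : Prop where
  hK : 1 ≤ K
  hbK : Law.b ≤ K
  hσK : |σ| ≤ K
  hξ : 0 < ξ
  hsm : 10 ^ 9 * K ^ 20 * ξ ≤ 1
  D : Dt d L Law.b σ E (4 * K ^ 2) (ξ ^ 100) (ξ ^ 199) (ξ ^ 99)
  hlw : lwh d L ≤ ξ ^ 1000
  hF : ∀ ζ : ℂ, ξ ^ 101 ≤ ζ.im → ζ.im ≤ 1 → ‖GG ζ (0 : T d L) 0‖ ≤ K * ξ ^ 100
  hGrid : S_GRID

section
variable {K σ E ξ : ℝ}

theorem Dx.K0 (H : Dx d L K σ E ξ) : 0 < K := lt_of_lt_of_le one_pos H.hK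

theorem Dx.Kn (H : Dx d L K σ E ξ) {n : ℕ} (hn : n ≤ 20) : K ^ n ≤ K ^ 20 :=
  pow_le_pow_right₀ H.hK hn

/-- small constants -/
theorem Dx.sm (H : Dx d L K σ E ξ) {c : ℝ} (hc : c ≤ 10 ^ 9) {n : ℕ} (hn : n ≤ 20) :
    c * K ^ n * ξ ≤ 1 := by
  refine le_trans ?_ H.hsm
  have h1 := H.Kn hn
  have h2 := H.hξ
  have h3 := H.K0
  have h4 : c * K ^ n ≤ 10 ^ 9 * K ^ 20 := by
    calc c * K ^ n ≤ 10 ^ 9 * K ^ n := by gcongr
      _ ≤ _ := by gcongr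
  exact mul_le_mul_of_nonneg_right h4 h2.le

theorem Dx.sm1 (H : Dx d L K σ E ξ) : ξ ≤ 1 / 10 ^ 9 := by
  have := H.sm (c := 10 ^ 9) le_rfl (n := 0) (by norm_num)
  rw [le_div_iff₀ (by norm_num)]
  linarith

theorem Dx.x1 (H : Dx d L K σ E ξ) : ξ ≤ 1 := H.sm1.trans (by norm_num)

/-- the grid -/
noncomputable def sj (ξ : ℝ) (j : ℕ) : ℝ := ξ ^ j / 2

theorem Dx.sj0 (H : Dx d L K σ E ξ) (j : ℕ) : 0 < sj ξ j := by
  have := H.hξ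
  unfold sj
  positivity

theorem Dx.sj_le (H : Dx d L K σ E ξ) (j : ℕ) : sj ξ j ≤ 1 / 2 := by
  unfold sj
  have := pow_le_one₀ (n := j) H.hξ.le H.x1
  linarith

theorem Dx.sj_ge (H : Dx d L K σ E ξ) {j : ℕ} (hj : j ≤ 97) : ξ ^ 97 / 2 ≤ sj ξ j := by
  unfold sj
  have := pow_le_pow_of_le_one H.hξ.le H.x1 hj
  linarith

theorem Dx.half_le (H : Dx d L K σ E ξ) : (1 / 2 : ℝ) ≤ 4 * K ^ 2 := by
  nlinarith [H.hK]

/-- `α` at a point of the grid -/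
theorem Dx.al (H : Dx d L K σ E ξ) {s : ℝ} (hs : ξ ^ 97 / 2 ≤ s) :
    6 * ξ ^ 99 * (4 * K ^ 2) / s ≤ 48 * K ^ 2 * ξ ^ 2 := by
  have hξ := H.hξ
  have hK := H.K0
  have h1 : 0 < ξ ^ 97 / 2 := by positivity
  calc 6 * ξ ^ 99 * (4 * K ^ 2) / s ≤ 6 * ξ ^ 99 * (4 * K ^ 2) / (ξ ^ 97 / 2) := by gcongr
    _ = _ := by
        field_simp
        ring

theorem Dx.al2 (H : Dx d L K σ E ξ) {s : ℝ} (hs : ξ ^ 97 / 2 ≤ s) :
    |σ| * Law.b * (6 * ξ ^ 99 * (4 * K ^ 2) / s) ≤ 1 / 2 := by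
  have hξ := H.hξ
  have hK := H.K0
  have hb := (Law.hb (self := ‹Law›)).le
  have h1 := H.al hs
  have h0 : 0 < ξ ^ 97 / 2 := by positivity
  have h2 : 0 ≤ 6 * ξ ^ 99 * (4 * K ^ 2) / s := by
    have := h0.trans_le hs
    positivity
  have h3 := H.sm (c := 96) (by norm_num) (n := 4) (by norm_num)
  calc |σ| * Law.b * (6 * ξ ^ 99 * (4 * K ^ 2) / s) ≤ K * K * (48 * K ^ 2 * ξ ^ 2) := by
        have := H.hσK
        have := H.hbK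
        gcongr
    _ = (1 / 2) * ((96 * K ^ 4 * ξ) * ξ) := by ring
    _ ≤ (1 / 2) * (1 * 1) := by
        have := H.x1
        gcongr
    _ = _ := by norm_num

/-- the constant `c` at a point of the grid -/
theorem Dx.cc_le (H : Dx d L K σ E ξ) {s : ℝ} (hs : ξ ^ 97 / 2 ≤ s) :
    cc d L σ (4 * K ^ 2) (ξ ^ 199) s ≤ 3084 * K ^ 8 * ξ ^ 5 := by
  have hξ := H.hξ
  have hK := H.K0
  have hb := (Law.hb (self := ‹Law›)).le
  have h0 : 0 < ξ ^ 97 / 2 := by positivity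
  have hσ2 : σ ^ 2 ≤ K ^ 2 := by
    rw [← sq_abs]
    have := H.hσK
    gcongr
  have hb2 : Law.b ^ 2 ≤ K ^ 2 := by
    have := H.hbK
    gcongr
  have hlw : lwh d L ≤ K ^ 4 * ξ ^ 199 := by
    have h1 : ξ ^ 1000 ≤ ξ ^ 199 := pow_le_pow_of_le_one hξ.le H.x1 (by norm_num)
    have h2 : (1 : ℝ) ≤ K ^ 4 := one_le_pow₀ H.hK
    have h3 := mul_le_mul_of_nonneg_right h2 (show (0 : ℝ) ≤ ξ ^ 199 by positivity)
    linarith [H.hlw]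
  have hlw0 := lwh_nonneg (d := d) (L := L)
  unfold cc
  calc 3 * (σ ^ 2 * Law.b ^ 2) * ((16 * (4 * K ^ 2) ^ 2 * ξ ^ 199 + lwh d L) / s ^ 2) ≤
      3 * (K ^ 2 * K ^ 2) * ((16 * (4 * K ^ 2) ^ 2 * ξ ^ 199 + K ^ 4 * ξ ^ 199) /
        (ξ ^ 97 / 2) ^ 2) := by gcongr
    _ = _ := by
        field_simp
        ring

theorem Dx.cc_sm (H : Dx d L K σ E ξ) {s : ℝ} (hs : ξ ^ 97 / 2 ≤ s) :
    cc d L σ (4 * K ^ 2) (ξ ^ 199) s ≤ 1 / 10 ^ 7 := by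
  have hξ := H.hξ
  have hK := H.K0
  have h1 := H.cc_le hs
  have h2 := H.sm (c := 3084) (by norm_num) (n := 8) (by norm_num)
  have h3 := H.sm1
  have h4 : ξ ^ 4 ≤ 1 / 10 ^ 7 := by
    calc ξ ^ 4 ≤ (1 / 10 ^ 9) ^ 4 := by gcongr
      _ ≤ _ := by norm_num
  calc _ ≤ 3084 * K ^ 8 * ξ ^ 5 := h1
    _ = (3084 * K ^ 8 * ξ) * ξ ^ 4 := by ring
    _ ≤ 1 * (1 / 10 ^ 7) := by gcongr
    _ = _ := by norm_num

/-- the renormalized energy is at distance at most one -/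
theorem Dx.ze1 (H : Dx d L K σ E ξ) {s : ℝ} (hs : ξ ^ 101 ≤ s) (hs2 : s ≤ 1 / 2)
    (hm : ‖mm d L σ E s‖ ≤ 3 * ξ) : ‖mf d L σ E s‖ ≤ K * ξ ^ 100 := by
  have hξ := H.hξ
  have hK := H.K0
  have hs0 : 0 < s := lt_of_lt_of_le (by positivity) hs
  unfold mf
  refine H.hF _ (hs.trans (ze_im_ge hs0)) ?_
  rw [ze_im]
  have h1 : (mm d L σ E s).im ≤ 3 * ξ :=
    ((le_abs_self _).trans (Complex.abs_im_le_norm _)).trans hm
  have h0 := mm_im_nonneg (d := d) (L := L) (σ := σ) (E := E) hs0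
  have hσ2 : σ ^ 2 ≤ K ^ 2 := by
    rw [← sq_abs]
    have := H.hσK
    gcongr
  have h2 := H.sm (c := 6) (by norm_num) (n := 2) (by norm_num)
  have h3 : σ ^ 2 * (mm d L σ E s).im ≤ K ^ 2 * (3 * ξ) := by gcongr
  nlinarith

/-- the bootstrap -/
theorem Dx.boot1 (H : Dx d L K σ E ξ) (hM : S_MOM) {s : ℝ} (hs : ξ ^ 97 / 2 ≤ s) (hs2 : s ≤ 1 / 2)
    (hm : ‖mm d L σ E s‖ + ξ ^ 99 ≤ 3 * ξ ^ 98) : ‖mm d L σ E s‖ ≤ ξ ^ 99 := by
  have hξ := H.hξ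
  have hK := H.K0
  have hx1 := H.x1
  have h0 : 0 < ξ ^ 97 / 2 := by positivity
  have hs0 : 0 < s := h0.trans_le hs
  have h99 : 0 < ξ ^ 99 := by positivity
  have hs101 : ξ ^ 101 ≤ s := by
    refine le_trans ?_ hs
    have h1 : ξ ^ 4 ≤ 1 / 2 := by
      calc ξ ^ 4 ≤ (1 / 10 ^ 9) ^ 4 := by have := H.sm1; gcongr
        _ ≤ _ := by norm_num
    calc ξ ^ 101 = ξ ^ 97 * ξ ^ 4 := by ring
      _ ≤ ξ ^ 97 * (1 / 2) := by gcongr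
      _ = _ := by ring
  have hm1 : ‖mm d L σ E s‖ ≤ 3 * ξ := by
    have h1 : ξ ^ 98 ≤ ξ := by
      calc ξ ^ 98 ≤ ξ ^ 1 := pow_le_pow_of_le_one hξ.le hx1 (by norm_num)
        _ = ξ := pow_one _
    linarith
  have hmf := H.ze1 hs101 hs2 hm1
  have hb := (boot hM H.D hs0 (hs2.trans H.half_le) (H.al2 hs) (H.cc_sm hs) hm H.hK H.hbK
    H.hσK hmf).2
  have hc := H.cc_le hs
  have hα := H.al hs
  have hα0 : 0 ≤ 6 * ξ ^ 99 * (4 * K ^ 2) / s := by positivity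
  have hc0 := cc_nonneg (d := d) (L := L) (σ := σ) (δ := 4 * K ^ 2) (t := s) H.D.hQ0
  have h1 : 4 * cc d L σ (4 * K ^ 2) (ξ ^ 199) s +
      96 * K ^ 8 * (6 * ξ ^ 99 * (4 * K ^ 2) / s) ^ 2 ≤ 233520 * K ^ 12 * ξ ^ 4 := by
    have e1 : (6 * ξ ^ 99 * (4 * K ^ 2) / s) ^ 2 ≤ (48 * K ^ 2 * ξ ^ 2) ^ 2 := by gcongr
    have e2 : K ^ 8 * ξ ^ 5 ≤ K ^ 12 * ξ ^ 4 := by
      have h3 : K ^ 8 ≤ K ^ 12 := pow_le_pow_right₀ H.hK (by norm_num)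
      have h4 : ξ ^ 5 ≤ ξ ^ 4 := pow_le_pow_of_le_one hξ.le hx1 (by norm_num)
      gcongr
    calc _ ≤ 4 * (3084 * K ^ 8 * ξ ^ 5) + 96 * K ^ 8 * (48 * K ^ 2 * ξ ^ 2) ^ 2 := by gcongr
      _ = 12336 * (K ^ 8 * ξ ^ 5) + 221184 * K ^ 12 * ξ ^ 4 := by ring
      _ ≤ 12336 * (K ^ 12 * ξ ^ 4) + 221184 * K ^ 12 * ξ ^ 4 := by gcongr
      _ = _ := by ring
  have h2 : ‖mm d L σ E s - mf d L σ E s‖ ^ 2 ≤ (ξ ^ 101) ^ 2 := by
    have h5 := H.sm (c := 25220160) (by norm_num) (n := 17) (by norm_num)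
    calc _ ≤ _ := hb
      _ ≤ K ^ 4 * (K * ξ ^ 100) * ((233520 * K ^ 12 * ξ ^ 4) * (3 * ξ ^ 98) ^ 3) /
          (ξ ^ 97 / 2) ^ 2 := by gcongr
      _ = (25220160 * K ^ 17 * ξ) * ξ ^ 1 * (ξ ^ 101) ^ 2 := by
          field_simp
          ring
      _ ≤ 1 * 1 * (ξ ^ 101) ^ 2 := by
          have : ξ ^ 1 ≤ 1 := by rw [pow_one]; exact hx1
          gcongr
      _ = _ := by ring
  have h3 : ‖mm d L σ E s - mf d L σ E s‖ ≤ ξ ^ 101 :=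
    (abs_le_of_sq_le_sq' h2 (by positivity)).2
  have h4 := norm_add_le (mm d L σ E s - mf d L σ E s) (mf d L σ E s)
  rw [sub_add_cancel] at h4
  have h5 := H.sm (c := 2) (by norm_num) (n := 1) (by norm_num)
  calc ‖mm d L σ E s‖ ≤ ξ ^ 101 + K * ξ ^ 100 := h4.trans (add_le_add h3 hmf)
    _ = (ξ ^ 2 + K * ξ) * ξ ^ 99 := by ring
    _ ≤ 1 * ξ ^ 99 := by
        refine mul_le_mul_of_nonneg_right ?_ h99.le
        have h6 : ξ ^ 2 ≤ K * ξ := by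
          rw [sq]
          exact mul_le_mul_of_nonneg_right (hx1.trans H.hK) hξ.le
        linarith
    _ = _ := one_mul _

/-- a step of the grid for the mean -/
theorem Dx.mstep (H : Dx d L K σ E ξ) {s s' : ℝ} (hs' : 0 < s') (hss : s' ≤ s) :
    ‖mm d L σ E s'‖ ≤ (1 + s / s') * ‖mm d L σ E s‖ := by
  have hs : 0 < s := hs'.trans_le hss
  have h1 : mm d L σ E s' - mm d L σ E s =
      ∫ V, (R σ E s' V (0 : T d L) 0 - R σ E s V (0 : T d L) 0) ∂(Γ (T d L)) := by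
    unfold mm
    rw [(R_BC hs' 0 0).isub (R_BC hs 0 0)]
  have h2 : ‖mm d L σ E s' - mm d L σ E s‖ ≤ s / s' * ‖mm d L σ E s‖ := by
    rw [h1]
    refine (norm_integral_le_integral_norm _).trans ?_
    have h3 : ∫ V, ‖R σ E s' V (0 : T d L) 0 - R σ E s V (0 : T d L) 0‖ ∂(Γ (T d L)) ≤
        ∫ V, s / s' * (R σ E s V (0 : T d L) 0).im ∂(Γ (T d L)) := by
      refine integral_mono (((R_BC hs' 0 0).sub (R_BC hs 0 0)).norm).intR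
        ((R_BC hs 0 0).im.intR.const_mul _) fun V => ?_
      exact (H.hGrid d L σ E s s' V 0 hs' hss).2.2
    refine h3.trans ?_
    rw [integral_const_mul, mm_im hs]
    refine mul_le_mul_of_nonneg_left ?_ (by positivity)
    exact (le_abs_self _).trans (Complex.abs_im_le_norm _)
  have h4 := norm_add_le (mm d L σ E s' - mm d L σ E s) (mm d L σ E s)
  rw [sub_add_cancel] at h4
  linarith

theorem Dx.ratio (H : Dx d L K σ E ξ) (j : ℕ) : sj ξ j / sj ξ (j + 1) = ξ⁻¹ := by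
  have := H.hξ
  unfold sj
  field_simp
  ring

/-- **the mean on the grid** -/
theorem Dx.mgrid (H : Dx d L K σ E ξ) (hM : S_MOM) (j : ℕ) (hj : j ≤ 97) : ‖mm d L σ E (sj ξ j)‖ ≤ ξ ^ 99 := by
  have hξ := H.hξ
  have hK := H.K0
  have hx1 := H.x1
  induction j with
  | zero =>
    refine H.boot1 hM (H.sj_ge hj) (H.sj_le 0) ?_
    have h1 : ‖mm d L σ E (sj ξ 0)‖ ≤ 48 * K ^ 2 * ξ ^ 99 := by
      have h2 : ‖mm d L σ E (sj ξ 0)‖ ≤ ∫ _V : T d L → ℝ, 48 * K ^ 2 * ξ ^ 99 ∂(Γ (T d L)) := by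
        unfold mm
        refine (norm_integral_le_integral_norm _).trans ?_
        refine integral_mono_ae ((R_BC (H.sj0 0) 0 0).norm).intR (integrable_const _) ?_
        filter_upwards [ae_cube (κ := T d L)] with V hV
        refine (H.D.diagR (H.sj0 0) ((H.sj_le 0).trans H.half_le) hV 0).trans (le_of_eq ?_)
        unfold sj
        rw [pow_zero]
        ring
      simpa using h2
    have h3 := H.sm (c := 48) (by norm_num) (n := 2) (by norm_num)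
    have h4 : 48 * K ^ 2 * ξ ^ 99 ≤ ξ ^ 98 := by
      calc 48 * K ^ 2 * ξ ^ 99 = (48 * K ^ 2 * ξ) * ξ ^ 98 := by ring
        _ ≤ 1 * ξ ^ 98 := by gcongr
        _ = _ := one_mul _
    have h5 : ξ ^ 99 ≤ ξ ^ 98 := pow_le_pow_of_le_one hξ.le hx1 (by norm_num)
    have h6 : 0 < ξ ^ 98 := by positivity
    linarith
  | succ j ih =>
    refine H.boot1 hM (H.sj_ge hj) (H.sj_le _) ?_
    have h1 := ih (by omega)
    have hss : sj ξ (j + 1) ≤ sj ξ j := by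
      unfold sj
      have : ξ ^ (j + 1) ≤ ξ ^ j := pow_le_pow_of_le_one hξ.le hx1 (Nat.le_succ j)
      linarith
    have h2 := H.mstep (H.sj0 (j + 1)) hss
    rw [H.ratio] at h2
    have h5 : ξ ^ 99 ≤ ξ ^ 98 := pow_le_pow_of_le_one hξ.le hx1 (by norm_num)
    have h6 : (1 : ℝ) ≤ ξ⁻¹ := (one_le_inv₀ hξ).2 hx1
    have h7 : (1 + ξ⁻¹) * ‖mm d L σ E (sj ξ j)‖ ≤ (2 * ξ⁻¹) * ξ ^ 99 := by
      have : 0 ≤ ‖mm d L σ E (sj ξ j)‖ := norm_nonneg _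
      have h8 : 1 + ξ⁻¹ ≤ 2 * ξ⁻¹ := by linarith
      gcongr
    have h8 : (2 * ξ⁻¹) * ξ ^ 99 = 2 * ξ ^ 98 := by
      field_simp
    linarith

/-- the moments on the grid -/
theorem Dx.mom (H : Dx d L K σ E ξ) (hM : S_MOM) (j : ℕ) (hj : j ≤ 97) :
    ∫ V, gf σ E (ξ ^ 99) (sj ξ j) V ^ 16 ∂(Γ (T d L)) ≤ 2 ^ 31 * (ξ ^ 99) ^ 16 := by
  have h1 := (gf_two hM H.D (H.sj0 j) ((H.sj_le j).trans H.half_le) (H.al2 (H.sj_ge hj))
    (H.cc_sm (H.sj_ge hj)) (m := 2 * ξ ^ 99) (by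
      have := H.mgrid hM j hj
      linarith)).2
  refine h1.trans (le_of_eq ?_)
  ring

end

end Run7.h108.GL.HD
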