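import Pool.Agent.Run7.h108.GL.Pt
import Pool.Agent.Run7.h47.Free
import Pool.Agent.Run7.h47.Lad
import Pool.Agent.Run7.h47.Zf
import Pool.Agent.Run7.h47.Eig3

/-! High dimension, coupling of order one: statements of the pieces. -/

set_option autoImplicit false
set_option linter.unusedSectionVars false

open scoped BigOperators Matrix
open MeasureTheory

namespace Run7.h442.HD

open Pool.Agent.Run7.h47 hiding mm mf ze V1 V2 ff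
open Pool.Agent.W788.MFP.Four Pool.Agent.W788.BK
open Pool.Agent.W788.MFP.Form
open Run7.h108.GL (Law Γ gz mm mf ze V1 V2 ff ww a0)
open Pool.Agent.H4R2.LO (Zd)

/-- low momenta: the mean of the squares of the cosines is above `3/4` -/
def Lo {d L : ℕ} [NeZero L] (P : T d L) : Prop := (3 / 4 : ℝ) * d < ∑ i, cr (P i) ^ 2

open Classical in
/-- indicator of the low momenta -/
noncomputable def lo {d L : ℕ} [NeZero L] (P : T d L) : ℝ := if Lo P then 1 else 0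

/-- density of low momenta -/
noncomputable def lwh (d L : ℕ) [NeZero L] : ℝ := (NN d L)⁻¹ * ∑ P : T d L, lo P

/-- the density of low momenta is exponentially small -/
def S_LOW : Prop := ∀ (d L : ℕ) [NeZero L], 3 ≤ L → lwh d L ≤ Real.exp (-(d / 16 : ℝ))

/-- one and two energy shells in high dimension -/
def S_FEJ : Prop := ∃ C : ℝ, 0 < C ∧ ∃ d0 : ℕ, ∀ (d L : ℕ) [NeZero L], d0 ≤ d → (d : ℝ) ^ 6 ≤ L →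
  ∀ E ρ : ℝ, (Real.sqrt d)⁻¹ ≤ ρ → gz d L E ρ ≤ C * Real.log d / Real.sqrt d ∧
  ∀ P : T d L, ¬ Lo P →
    ∑ k : T d L, (J E ρ k * J E ρ (k + P))⁻¹ ≤ C * Real.log d ^ 2 / d * NN d L

/-- the Bessel function `J₀(2 s)` -/
def S_WJ : Prop := ∃ q : ℝ, 0 < q ∧ q < 1 ∧ (∀ s : ℝ, |s| ≤ 1 →
  ‖WJ s - (Real.exp (-s ^ 2) : ℂ)‖ ≤ s ^ 4 ∧ ‖WJ s‖ ≤ Real.exp (-(s ^ 2) / 2)) ∧
  ∀ s : ℝ, 1 ≤ |s| → ‖WJ s‖ ≤ q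

/-- the free resolvent on the torus -/
def S_FREE : Prop := ∃ C : ℝ, 0 < C ∧ ∃ d0 : ℕ, ∀ (d L : ℕ) [NeZero L], d0 ≤ d →
  ∀ ζ : ℂ, 0 < ζ.im → ζ.im ≤ 1 →
  ‖GG ζ (0 : T d L) 0‖ ≤ er d L ζ.im + C / Real.sqrt d ∧ ∀ E0 : ℝ,
  |(GG ζ (0 : T d L) 0).im - (mJ d E0).re| ≤
    er d L ζ.im + C / Real.sqrt d * (‖ζ - E0‖ / Real.sqrt d) ^ (1 / 4 : ℝ) ∧
  ∀ i : Fin d, |(NN d L)⁻¹ * ∑ k : T d L, (2 * (ZMod.stdAddChar (k i) : ℂ).im) ^ 2 *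
      (ζ.im ^ 3 * ‖gs ζ k‖ ^ 4) - 1 / 2 * (mS d E0).re| ≤
    er d L ζ.im + C / Real.sqrt d * (‖ζ - E0‖ / Real.sqrt d) ^ (1 / 4 : ℝ)

/-- the limit of `√d Im m` -/
noncomputable def Ga (d : ℕ) (E : ℝ) : ℝ := Real.sqrt Real.pi / 2 * Real.exp (-(E ^ 2 / (4 * d)))

/-- asymptotics of the densities -/
def S_ASY : Prop := ∀ A ε : ℝ, 0 < ε → ∃ d0 : ℕ, ∀ d : ℕ, d0 ≤ d → ∀ E : ℝ,
  |E| ≤ A * Real.sqrt d → |Real.sqrt d * (mJ d E).re - Ga d E| ≤ ε ∧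
    |Real.sqrt d * (mS d E).re - 2 * Ga d E| ≤ ε

/-- higher moments from the Efron-Stein inequality -/
def S_MOM : Prop := ∀ [Law] (κ : Type) [Fintype κ] [DecidableEq κ] (g : (κ → ℝ) → ℝ) (c : ℝ)
  (n : ℕ), Continuous g → (∃ C, ∀ V, |g V| ≤ C) → (∀ V, 0 ≤ g V) → 1 ≤ n → 0 ≤ c →
  (∀ V : κ → ℝ, (∀ x, |V x| ≤ Law.b) →
    ∑ y, (g V - g (Function.update V y 0)) ^ 2 ≤ c * g V ^ 2) →
  2 * (n : ℝ) ^ 2 * 4 ^ n * c ≤ 1 →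
  ∫ V, g V ^ (2 * n) ∂(Γ κ) ≤ 2 * (∫ V, g V ^ n ∂(Γ κ)) ^ 2

/-- the diagonal of the resolvent at different distances from the axis -/
def S_GRID : Prop := ∀ (d L : ℕ) [NeZero L] (σ E s s' : ℝ) (V : T d L → ℝ) (x : T d L),
  0 < s' → s' ≤ s →
  s' * (R σ E s' V x x).im ≤ s * (R σ E s V x x).im ∧
  (R σ E s V x x).im / s ≤ (R σ E s' V x x).im / s' ∧
  ‖R σ E s' V x x - R σ E s V x x‖ ≤ s / s' * (R σ E s V x x).im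

/-- the random potential applied to a column of the resolvent, away from the shell -/
def S_CC : Prop := ∀ [Law] (d L : ℕ) [NeZero L] (σ E t ρ : ℝ), 0 < t → 0 < ρ →
  ∫ V, qc (fun k => (J E ρ k)⁻¹) (fun x => (V x : ℂ) * R σ E t V x 0) ∂(Γ (T d L)) ≤
    2 * gz d L E ρ * ∫ V, (R σ E t V (0 : T d L) 0).im / t ∂(Γ (T d L)) +
    2 * gz d L E ρ * Law.b ^ 4 * σ ^ 2 *
      ∫ V, ‖ww σ E t (0 : T d L) V‖ ^ 2 * ((R σ E t V 0 0).im / t) ^ 2 ∂(Γ (T d L)) +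
    2 * ρ⁻¹ * Law.b ^ 4 * σ ^ 2 *
      ∫ V, ‖a0 σ E t (0 : T d L) V‖ ^ 2 * ((R σ E t V 0 0).im / t) ∂(Γ (T d L))

/-- the estimates on the torus -/
def S_APR : Prop := ∀ K A ε : ℝ, 1 ≤ K → 0 < ε → ∃ d0 : ℕ, ∀ [Law] (d L : ℕ) [NeZero L],
  d0 ≤ d → (d : ℝ) ^ 8 ≤ L → Law.b ≤ K → ∀ σ E t : ℝ, 1 / K ≤ |σ| → |σ| ≤ K →
  |E| ≤ A * Real.sqrt d → (d : ℝ) ^ (-(1 / 2 + 1 / 200 : ℝ)) ≤ t → t ≤ (Real.sqrt d)⁻¹ →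
  ‖mm d L σ E t - mf d L σ E t‖ ≤ ε * t ∧ V1 d L σ E t ≤ ε * (Real.sqrt d * t ^ 3) ∧
  ∀ p : T d L, V2 σ E t p ≤ ε * (Real.sqrt d * t)

/-- the diffusive profile -/
noncomputable def Pr (G q : ℝ) : ℝ := G / (1 + q / (2 * G))

/-- the limit of the ladder on the torus, from the estimates -/
def S_LAD : Prop := ∀ K A M ε : ℝ, 1 ≤ K → 0 ≤ M → 0 < ε → ∃ w : ℝ, 0 < w ∧ ∃ d0 : ℕ,
  ∀ [Law] (d L : ℕ) [NeZero L], d0 ≤ d → (d : ℝ) ^ 8 ≤ L → ∀ σ E t : ℝ, 1 / K ≤ |σ| → |σ| ≤ K →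
  |E| ≤ A * Real.sqrt d → (d : ℝ)⁻¹ ≤ t → t * Real.sqrt d ≤ w →
  ‖mm d L σ E t - mf d L σ E t‖ ≤ w * t → V1 d L σ E t ≤ w * (Real.sqrt d * t ^ 3) →
  (∀ p : T d L, V2 σ E t p ≤ w * (Real.sqrt d * t)) →
  ∀ j : Fin d → ℤ, sz L j ≤ M * Real.sqrt (t / Real.sqrt d) →
  ‖(Real.sqrt d * t : ℝ) * ff σ E t (mom d L j) -
    ((Pr (Ga d E) ((∑ i, ang L j i ^ 2) * Real.sqrt d / (σ ^ 2 * t)) : ℝ) : ℂ)‖ ≤ ε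

/-- the limit of the ladder on the torus -/
def S_TOR : Prop := ∀ K A M ε : ℝ, 1 ≤ K → 0 ≤ M → 0 < ε → ∃ w : ℝ, 0 < w ∧ w ≤ 1 ∧ ∃ d0 : ℕ,
  ∀ [Law] (d L : ℕ) [NeZero L], d0 ≤ d → (d : ℝ) ^ 8 ≤ L → Law.b ≤ K →
  ∀ σ E t : ℝ, 1 / K ≤ |σ| → |σ| ≤ K →
  |E| ≤ A * Real.sqrt d → (d : ℝ) ^ (-(1 / 2 + 1 / 200 : ℝ)) ≤ t → t * Real.sqrt d ≤ w →
  (∀ p : T d L, V2 σ E t p ≤ ε * (Real.sqrt d * t)) ∧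
  ∀ j : Fin d → ℤ, sz L j ≤ M * Real.sqrt (t / Real.sqrt d) →
  ‖(Real.sqrt d * t : ℝ) * ff σ E t (mom d L j) -
    ((Pr (Ga d E) ((∑ i, ang L j i ^ 2) * Real.sqrt d / (σ ^ 2 * t)) : ℝ) : ℂ)‖ ≤ ε

/-- **quantum diffusion in high dimension** -/
def S_QD : Prop := ∀ K A M ε : ℝ, 1 ≤ K → 0 ≤ M → 0 < ε → ∃ w : ℝ, 0 < w ∧ w ≤ 1 ∧ ∃ d0 : ℕ,
  ∀ [Law] (d : ℕ), d0 ≤ d → Law.b ≤ K →
  ∀ σ E t : ℝ, 1 / K ≤ |σ| → |σ| ≤ K →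
  |E| ≤ A * Real.sqrt d → (d : ℝ) ^ (-(1 / 2 + 1 / 200 : ℝ)) ≤ t → t * Real.sqrt d ≤ w →
  ∀ P : Fin d → ℝ, ∑ i, |P i| ≤ M → ∀ G : (Zd d → ℝ) → Zd d → ℂ,
  (∀ ω, IsGreen d σ ((E : ℂ) + (t : ℂ) * Complex.I) ω (G ω)) →
  Integrable (fun ω => ‖(Real.sqrt d * t : ℝ) * Qz (fun i => |σ| * Real.sqrt (t / Real.sqrt d) * P i)
      (G ω) - ((Pr (Ga d E) (∑ i, P i ^ 2) : ℝ) : ℂ)‖ ^ 2)
    (Measure.infinitePi fun _ : Zd d => Law.μ) ∧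
  ∫ ω, ‖(Real.sqrt d * t : ℝ) * Qz (fun i => |σ| * Real.sqrt (t / Real.sqrt d) * P i)
      (G ω) - ((Pr (Ga d E) (∑ i, P i ^ 2) : ℝ) : ℂ)‖ ^ 2
    ∂(Measure.infinitePi fun _ : Zd d => Law.μ) ≤ ε

open Classical in
/-- **localization length in high dimension** -/
def S_LOC : Prop := ∀ K ε : ℝ, 1 ≤ K → 0 < ε → ∃ d0 : ℕ, ∀ [Law] (d L : ℕ) [NeZero L],
  d0 ≤ d → (d : ℝ) ^ 8 ≤ L → Law.b ≤ K → ∀ σ : ℝ, 1 / K ≤ |σ| → |σ| ≤ K → ∀ i : Fin d,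
  ∃ S : Set (T d L → ℝ), MeasurableSet S ∧ 1 - ε ≤ (Γ (T d L)).real S ∧
    ∀ V ∈ S, ∀ (ι : Type) [Fintype ι] (u : ι → EuclideanSpace ℂ (T d L)) (lam : ι → ℝ),
      Orthonormal ℂ u → (∀ j, IsEig σ (lam j) V (u j)) →
      (∀ j, ∃ c : ZMod L, ε ≤ ∑ x ∈ Finset.univ.filter fun x =>
        InSlab ((d : ℝ) ^ (1 / 2 + 1 / 500 : ℝ)) i c x, ‖u j x‖ ^ 2) →
      (Fintype.card ι : ℝ) ≤ ε * (L : ℝ) ^ d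

end Run7.h442.HD
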