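import Pool.Agent.Run7.h442.HD.Yb

/-! The mean of the form of a column of the resolvent, high dimension. -/

set_option autoImplicit false
set_option linter.unusedSectionVars false

open scoped BigOperators Matrix
open MeasureTheory

namespace Run7.h108.GL.HD

open Pool.Agent.Run7.h47 hiding Hyp good
open Pool.Agent.W788.MFP.Four Pool.Agent.W788.BK
open Pool.Agent.W788.MFP.Form
open Run7.h442.HD

section alg
variable {d L : ℕ} [NeZero L]

theorem q_add3 {m : T d L → ℝ} (hm : ∀ k, 0 ≤ m k) (f g h : T d L → ℝ) :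
    q m (fun x => f x + g x + h x) ≤ 3 * (q m f + q m g + q m h) := by
  have h1 : ∀ k, m k * ‖ft (fun x => f x + g x + h x) k‖ ^ 2 ≤
      3 * (m k * ‖ft f k‖ ^ 2 + m k * ‖ft g k‖ ^ 2 + m k * ‖ft h k‖ ^ 2) := by
    intro k
    have e1 : ft (fun x => f x + g x + h x) k = ft f k + ft g k + ft h k := by
      rw [ft_add (fun x => f x + g x) h, ft_add f g]
    have e2 : ‖ft (fun x => f x + g x + h x) k‖ ≤ ‖ft f k‖ + ‖ft g k‖ + ‖ft h k‖ := by
      rw [e1]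
      exact norm_add₃_le
    have e3 : ‖ft (fun x => f x + g x + h x) k‖ ^ 2 ≤
        3 * (‖ft f k‖ ^ 2 + ‖ft g k‖ ^ 2 + ‖ft h k‖ ^ 2) := by
      refine (pow_le_pow_left₀ (norm_nonneg _) e2 2).trans ?_
      nlinarith [sq_nonneg (‖ft f k‖ - ‖ft g k‖), sq_nonneg (‖ft f k‖ - ‖ft h k‖),
        sq_nonneg (‖ft g k‖ - ‖ft h k‖)]
    have := mul_le_mul_of_nonneg_left e3 (hm k)
    linarith
  unfold q
  have h2 := mul_le_mul_of_nonneg_left (Finset.sum_le_sum fun k (_ : k ∈ Finset.univ) => h1 k)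
    (inv_nonneg.2 (NN_pos (d := d) (L := L)).le)
  refine h2.trans (le_of_eq ?_)
  rw [← Finset.mul_sum, Finset.sum_add_distrib, Finset.sum_add_distrib]
  ring

theorem qc_add3 {m : T d L → ℝ} (hm : ∀ k, 0 ≤ m k) (f g h : T d L → ℂ) :
    qc m (fun x => f x + g x + h x) ≤ 3 * (qc m f + qc m g + qc m h) := by
  have h1 := q_add3 hm (fun x => (f x).re) (fun x => (g x).re) (fun x => (h x).re)
  have h2 := q_add3 hm (fun x => (f x).im) (fun x => (g x).im) (fun x => (h x).im)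
  unfold qc
  simp only [Complex.add_re, Complex.add_im]
  linarith

theorem q_smul (m : T d L → ℝ) (c : ℝ) (f : T d L → ℝ) :
    q m (fun x => c * f x) = c ^ 2 * q m f := by
  have h : ∀ k, m k * ‖ft (fun x => c * f x) k‖ ^ 2 = c ^ 2 * (m k * ‖ft f k‖ ^ 2) := by
    intro k
    have e1 : ft (fun x => c * f x) k = c * ft f k := by
      unfold ft
      rw [Finset.mul_sum]
      exact Finset.sum_congr rfl fun x _ => by push_cast; ring
    rw [e1, norm_mul, Complex.norm_real, mul_pow, Real.norm_eq_abs, sq_abs]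
    ring
  unfold q
  simp only [h]
  rw [← Finset.mul_sum]
  ring

theorem qc_smul (m : T d L → ℝ) (c : ℝ) (f : T d L → ℂ) :
    qc m (fun x => (c : ℂ) * f x) = c ^ 2 * qc m f := by
  unfold qc
  simp only [Complex.re_ofReal_mul, Complex.im_ofReal_mul]
  rw [q_smul, q_smul]
  ring

theorem qc_I (m : T d L → ℝ) (f : T d L → ℂ) : qc m (fun x => Complex.I * f x) = qc m f := by
  unfold qc
  simp only [Complex.I_mul_re, Complex.I_mul_im]
  have e1 : q m (fun x => -(f x).im) = q m (fun x => (f x).im) := by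
    have := q_smul m (-1) (fun x => (f x).im)
    simpa using this
  rw [e1]
  ring

/-- away from the shell, exact form -/
theorem qc_shell {E ρ : ℝ} (hρ : 0 < ρ) (u : T d L → ℂ) :
    qc (J E ρ) u ≤ ρ * nsq u + qc (fun k => (J E ρ k)⁻¹) (X0 E *ᵥ u) := by
  have hX : ∀ x, (X0 E *ᵥ u) x = ((Op (fun k => adj k - E) (fun x => (u x).re) x : ℝ) : ℂ) +
      ((Op (fun k => adj k - E) (fun x => (u x).im) x : ℝ) : ℂ) * Complex.I := by
    intro x
    unfold Op Matrix.mulVec dotProduct X0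
    push_cast
    rw [Finset.sum_mul, ← Finset.sum_add_distrib]
    refine Finset.sum_congr rfl fun y _ => ?_
    rw [Matrix.of_apply]
    conv_lhs => rw [← Complex.re_add_im (u y)]
    ring
  have hr : (fun x => ((X0 E *ᵥ u) x).re) = Op (fun k => adj k - E) (fun x => (u x).re) := by
    funext x
    rw [hX]
    simp
  have hi : (fun x => ((X0 E *ᵥ u) x).im) = Op (fun k => adj k - E) (fun x => (u x).im) := by
    funext x
    rw [hX]
    simp
  have key : ∀ v : T d L → ℝ, q (J E ρ) v ≤ ρ * ∑ x, v x ^ 2 +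
      q (fun k => (J E ρ k)⁻¹) (Op (fun k => adj k - E) v) := by
    intro v
    rw [q_Op _ _ _ (fun k => by rw [adj_neg]), sum_sq, ← q_const, ← q_add]
    apply q_mono
    intro k
    have h3 := J_pos (d := d) (L := L) E ρ hρ k
    have h4 := J_sq (d := d) (L := L) E ρ k
    have h5 := J_ge (d := d) (L := L) E ρ hρ k
    have h7 : J E ρ k = (adj k - E) ^ 2 / J E ρ k + ρ ^ 2 / J E ρ k := by
      rw [← add_div, eq_div_iff h3.ne', ← sq, h4]
    have h8 : ρ ^ 2 / J E ρ k ≤ ρ := by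
      rw [div_le_iff₀ h3]
      nlinarith
    rw [inv_mul_eq_div]
    linarith
  have h1 := key fun x => (u x).re
  have h2 := key fun x => (u x).im
  rw [nsq_split]
  unfold qc
  rw [hr, hi]
  linarith

/-- for a solution -/
theorem qc_sol {E ρ σ t : ℝ} (hρ : 0 < ρ) {V : T d L → ℝ} {u g : T d L → ℂ}
    (h : HZ σ E t V *ᵥ u = g) :
    qc (J E ρ) u ≤ ρ * nsq u + 3 * (qc (fun k => (J E ρ k)⁻¹) g +
      σ ^ 2 * qc (fun k => (J E ρ k)⁻¹) (fun x => (V x : ℂ) * u x) +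
      t ^ 2 * (ρ⁻¹ * nsq u)) := by
  have hJ : ∀ k : T d L, 0 ≤ (J E ρ k)⁻¹ := fun k => (inv_pos.2 (J_pos E ρ hρ k)).le
  have h1 : X0 E *ᵥ u = fun x => g x + ((-σ : ℝ) : ℂ) * ((V x : ℂ) * u x) +
      (t : ℂ) * (Complex.I * u x) := by
    funext x
    rw [← h]
    unfold HZ
    rw [Matrix.sub_mulVec, Matrix.add_mulVec, Pi.sub_apply, Pi.add_apply, Matrix.smul_mulVec,
      Matrix.one_mulVec, Matrix.mulVec_diagonal]
    simp only [Pi.smul_apply, smul_eq_mul]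
    push_cast
    ring
  have h2 := qc_shell (E := E) hρ u
  rw [h1] at h2
  have h3 := qc_add3 hJ g (fun x => ((-σ : ℝ) : ℂ) * ((V x : ℂ) * u x))
    (fun x => (t : ℂ) * (Complex.I * u x))
  rw [qc_smul, qc_smul, qc_I] at h3
  have h4 := qc_inv_le (d := d) (L := L) E ρ hρ u
  have h5 := mul_le_mul_of_nonneg_left h4 (sq_nonneg t)
  have h6 : (-σ) ^ 2 = σ ^ 2 := by ring
  rw [h6] at h3
  linarith

end alg

variable {d L : ℕ} [NeZero L] [Law]

theorem ft_BC {v : (T d L → ℝ) → T d L → ℝ} (h : ∀ x, BC fun V => v V x) (k : T d L) :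
    BC fun V => ft (v V) k := by
  unfold ft
  refine BC.sum _ fun x _ => ?_
  have h1 : BC fun V : T d L → ℝ => ((v V x : ℝ) : ℂ) := by
    obtain ⟨c1, C, hC⟩ := h x
    refine ⟨Complex.continuous_ofReal.comp c1, C, fun V hV => ?_⟩
    rw [Complex.norm_real]
    exact hC V hV
  exact h1.mul (BC.const _)

theorem q_BC {v : (T d L → ℝ) → T d L → ℝ} (h : ∀ x, BC fun V => v V x) (m : T d L → ℝ) :
    BC fun V => q m (v V) := by
  unfold q
  exact (BC.const _).mulR (BC.sum _ fun k _ => (BC.const _).mulR (ft_BC h k).nsq)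

theorem qc_BC {u : (T d L → ℝ) → T d L → ℂ} (h : ∀ x, BC fun V => u V x) (m : T d L → ℝ) :
    BC fun V => qc m (u V) := by
  unfold qc
  exact (q_BC (fun x => (h x).re) m).add (q_BC (fun x => (h x).im) m)

theorem col_BC {σ E t : ℝ} (ht : 0 < t) (x : T d L) :
    BC fun V : T d L → ℝ => (R σ E t V *ᵥ Pi.single 0 1) x := by
  have h := R_BC (d := d) (L := L) (σ := σ) (E := E) ht 0 x
  have e : (fun V : T d L → ℝ => (R σ E t V *ᵥ Pi.single 0 1) x) = fun V => R σ E t V 0 x := by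
    funext V
    rw [col_ap]
  rw [e]
  exact h

/-- the form of the column -/
noncomputable def qu (σ E ρ t : ℝ) (V : T d L → ℝ) : ℝ :=
  qc (J E ρ) (R σ E t V *ᵥ Pi.single 0 1)

theorem qu_BC {σ E ρ t : ℝ} (ht : 0 < t) : BC fun V : T d L → ℝ => qu σ E ρ t V :=
  qc_BC (fun x => col_BC ht x) _

theorem qu_nonneg {σ E ρ t : ℝ} (hρ : 0 < ρ) (V : T d L → ℝ) : 0 ≤ qu σ E ρ t V :=
  qc_nonneg _ _ fun k => (J_pos E ρ hρ k).le

/-- the Ward quantity -/
noncomputable def uu (σ E t : ℝ) (V : T d L → ℝ) : ℝ := (R σ E t V (0 : T d L) 0).im / t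

theorem uu_BC {σ E t : ℝ} (ht : 0 < t) : BC fun V : T d L → ℝ => uu σ E t V := by
  have h := (R_BC (d := d) (L := L) (σ := σ) (E := E) ht 0 0).im.mulR (BC.const t⁻¹)
  unfold uu
  simpa only [div_eq_mul_inv] using h

theorem uu_nonneg {σ E t : ℝ} (ht : 0 < t) (V : T d L → ℝ) : 0 ≤ uu σ E t V :=
  div_nonneg (R_im_nonneg ht V 0) ht.le

/-- the mean of the form of the column -/
theorem qu_mean (hC : S_CC) {σ E ρ t : ℝ} (hρ : 0 < ρ) (ht : 0 < t) :
    ∫ V, qu σ E ρ t V ∂(Γ (T d L)) ≤ ρ * ∫ V, uu σ E t V ∂(Γ (T d L)) +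
      3 * (gz d L E ρ + σ ^ 2 * (2 * gz d L E ρ * ∫ V, uu σ E t V ∂(Γ (T d L)) +
        2 * gz d L E ρ * Law.b ^ 4 * σ ^ 2 *
          ∫ V, ‖ww σ E t (0 : T d L) V‖ ^ 2 * uu σ E t V ^ 2 ∂(Γ (T d L)) +
        2 * ρ⁻¹ * Law.b ^ 4 * σ ^ 2 *
          ∫ V, ‖a0 σ E t (0 : T d L) V‖ ^ 2 * uu σ E t V ∂(Γ (T d L))) +
        t ^ 2 * (ρ⁻¹ * ∫ V, uu σ E t V ∂(Γ (T d L)))) := by
  have bU := uu_BC (d := d) (L := L) (σ := σ) (E := E) ht
  have bV : BC fun V : T d L → ℝ => qc (fun k => (J E ρ k)⁻¹)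
      (fun x => (V x : ℂ) * (R σ E t V *ᵥ Pi.single 0 1) x) :=
    qc_BC (u := fun V x => (V x : ℂ) * (R σ E t V *ᵥ Pi.single 0 1) x)
      (fun x => (BC.co x).mul (col_BC ht x)) _
  have hp : ∀ V : T d L → ℝ, qu σ E ρ t V ≤ ρ * uu σ E t V + 3 * (gz d L E ρ +
      σ ^ 2 * qc (fun k => (J E ρ k)⁻¹)
        (fun x => (V x : ℂ) * (R σ E t V *ᵥ Pi.single 0 1) x) +
      t ^ 2 * (ρ⁻¹ * uu σ E t V)) := by
    intro V
    have h1 := qc_sol (E := E) (σ := σ) (t := t) hρ (col_eq ht V)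
    rw [U_eq ht, qc_single] at h1
    exact h1
  have i1 := (bU.intR).const_mul ρ
  have i2 := bV.intR.const_mul (σ ^ 2)
  have i3 := ((bU.intR).const_mul ρ⁻¹).const_mul (t ^ 2)
  have i4 := ((integrable_const (gz d L E ρ)).add i2).add i3
  have h2 : ∫ V, qu σ E ρ t V ∂(Γ (T d L)) ≤ ∫ V, (ρ * uu σ E t V + 3 * (gz d L E ρ +
      σ ^ 2 * qc (fun k => (J E ρ k)⁻¹)
        (fun x => (V x : ℂ) * (R σ E t V *ᵥ Pi.single 0 1) x) +
      t ^ 2 * (ρ⁻¹ * uu σ E t V))) ∂(Γ (T d L)) :=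
    integral_mono (qu_BC ht).intR (i1.add (i4.const_mul 3)) hp
  refine h2.trans ?_
  have h3 : ∫ V, (ρ * uu σ E t V + 3 * (gz d L E ρ +
      σ ^ 2 * qc (fun k => (J E ρ k)⁻¹)
        (fun x => (V x : ℂ) * (R σ E t V *ᵥ Pi.single 0 1) x) +
      t ^ 2 * (ρ⁻¹ * uu σ E t V))) ∂(Γ (T d L)) = ρ * ∫ V, uu σ E t V ∂(Γ (T d L)) +
      3 * (gz d L E ρ + σ ^ 2 * ∫ V, qc (fun k => (J E ρ k)⁻¹)
        (fun x => (V x : ℂ) * (R σ E t V *ᵥ Pi.single 0 1) x) ∂(Γ (T d L)) +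
        t ^ 2 * (ρ⁻¹ * ∫ V, uu σ E t V ∂(Γ (T d L)))) := by
    have e1 : ∫ V, (ρ * uu σ E t V + 3 * (gz d L E ρ +
      σ ^ 2 * qc (fun k => (J E ρ k)⁻¹)
        (fun x => (V x : ℂ) * (R σ E t V *ᵥ Pi.single 0 1) x) +
      t ^ 2 * (ρ⁻¹ * uu σ E t V))) ∂(Γ (T d L)) =
      ∫ V, ρ * uu σ E t V ∂(Γ (T d L)) + ∫ V, 3 * (gz d L E ρ +
      σ ^ 2 * qc (fun k => (J E ρ k)⁻¹)
        (fun x => (V x : ℂ) * (R σ E t V *ᵥ Pi.single 0 1) x) +
      t ^ 2 * (ρ⁻¹ * uu σ E t V)) ∂(Γ (T d L)) := integral_add i1 (i4.const_mul 3)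
    have e2 : ∫ V, (gz d L E ρ +
      σ ^ 2 * qc (fun k => (J E ρ k)⁻¹)
        (fun x => (V x : ℂ) * (R σ E t V *ᵥ Pi.single 0 1) x) +
      t ^ 2 * (ρ⁻¹ * uu σ E t V)) ∂(Γ (T d L)) = ∫ V, (gz d L E ρ +
      σ ^ 2 * qc (fun k => (J E ρ k)⁻¹)
        (fun x => (V x : ℂ) * (R σ E t V *ᵥ Pi.single 0 1) x)) ∂(Γ (T d L)) +
      ∫ V, t ^ 2 * (ρ⁻¹ * uu σ E t V) ∂(Γ (T d L)) :=
      integral_add ((integrable_const (gz d L E ρ)).add i2) i3
    have e3 : ∫ V, (gz d L E ρ +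
      σ ^ 2 * qc (fun k => (J E ρ k)⁻¹)
        (fun x => (V x : ℂ) * (R σ E t V *ᵥ Pi.single 0 1) x)) ∂(Γ (T d L)) =
      ∫ _V : T d L → ℝ, gz d L E ρ ∂(Γ (T d L)) + ∫ V, σ ^ 2 * qc (fun k => (J E ρ k)⁻¹)
        (fun x => (V x : ℂ) * (R σ E t V *ᵥ Pi.single 0 1) x) ∂(Γ (T d L)) :=
      integral_add (integrable_const (gz d L E ρ)) i2
    rw [e1, integral_const_mul, integral_const_mul, e2, e3, integral_const_mul,
      integral_const_mul, integral_const_mul]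
    simp only [integral_const, probReal_univ, one_smul]
  rw [h3]
  have h4 := hC d L σ E t ρ ht hρ
  have h5 : ∀ V : T d L → ℝ, (fun x => (V x : ℂ) * (R σ E t V *ᵥ Pi.single 0 1) x) =
      fun x => (V x : ℂ) * R σ E t V x 0 := by
    intro V
    funext x
    rw [← col_ap, R_symm]
  simp only [h5]
  have h6 : ∀ V : T d L → ℝ, (R σ E t V (0 : T d L) 0).im / t = uu σ E t V := fun _ => rfl
  simp only [h6] at h4
  have h7 := mul_le_mul_of_nonneg_left h4 (sq_nonneg σ)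
  linarith

end Run7.h108.GL.HD
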