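import Pool.Agent.Run7.h442.HD.Qe

/-! The variance of the diagonal, high dimension. -/

set_option autoImplicit false
set_option linter.unusedSectionVars false

open scoped BigOperators Matrix
open MeasureTheory

namespace Run7.h108.GL.HD

open Pool.Agent.Run7.h47 hiding Hyp good
open Pool.Agent.W788.MFP.Four Pool.Agent.W788.BK
open Pool.Agent.W788.MFP.Form
open Run7.h442.HD

variable {d L : ℕ} [NeZero L] [Law]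

/-- mass transport -/
theorem mt {σ E t : ℝ} (ht : 0 < t) {A : (T d L → ℝ) → ℝ} (hA : BC A) :
    ∑ x : T d L, ∫ V, A (fun z => V (z + x)) * ‖R σ E t V 0 x‖ ^ 2 ∂(Γ (T d L)) =
      ∫ V, A V * uu σ E t V ∂(Γ (T d L)) := by
  have h1 : ∀ x : T d L, ∫ V, A (fun z => V (z + x)) * ‖R σ E t V 0 x‖ ^ 2 ∂(Γ (T d L)) =
      ∫ V, A V * ‖R σ E t V (-x) 0‖ ^ 2 ∂(Γ (T d L)) := by
    intro x
    rw [← int_shiftR (f := fun V : T d L → ℝ => A V * ‖R σ E t V (-x) 0‖ ^ 2)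
      (hA.1.mul ((R_cont ht (-x) 0).norm.pow 2)) x]
    refine integral_congr_ae (Filter.Eventually.of_forall fun V => ?_)
    simp only
    rw [R_shift, neg_add_cancel, zero_add]
  simp only [h1]
  have b1 : ∀ x : T d L, BC fun V : T d L → ℝ => A V * ‖R σ E t V (-x) 0‖ ^ 2 := fun x =>
    hA.mulR (R_BC ht (-x) 0).nsq
  rw [← integral_finsetSum _ fun x _ => (b1 x).intR]
  refine integral_congr_ae (Filter.Eventually.of_forall fun V => ?_)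
  simp only
  rw [← Finset.mul_sum]
  congr 1
  unfold uu
  rw [← R_ward ht]
  rw [← Equiv.sum_comp (Equiv.neg (T d L)) (fun b => ‖R σ E t V 0 b‖ ^ 2)]
  refine Finset.sum_congr rfl fun x _ => ?_
  rw [Equiv.neg_apply, R_symm]

section
variable {K σ E ξ t : ℝ}

/-- the range of `t` -/
structure Tt (ξ t : ℝ) : Prop where
  lo : ξ ^ 101 ≤ t
  up : t ≤ ξ ^ 100

theorem Dx.t0 (H : Dx d L K σ E ξ) (h : Tt ξ t) : 0 < t := by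
  have := H.hξ
  exact lt_of_lt_of_le (by positivity) h.lo

theorem Dx.tu (H : Dx d L K σ E ξ) (h : Tt ξ t) : t ≤ ξ ^ 97 / 2 := by
  have hξ := H.hξ
  refine h.up.trans ?_
  have h1 : ξ ^ 3 ≤ 1 / 2 := by
    calc ξ ^ 3 ≤ (1 / 10 ^ 9) ^ 3 := by have := H.sm1; gcongr
      _ ≤ _ := by norm_num
  calc ξ ^ 100 = ξ ^ 97 * ξ ^ 3 := by rw [← pow_add]
    _ ≤ ξ ^ 97 * (1 / 2) := by gcongr
    _ = _ := by ring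

theorem Dx.tδ (H : Dx d L K σ E ξ) (h : Tt ξ t) : t ≤ 4 * K ^ 2 := by
  have hξ := H.hξ
  have h1 : ξ ^ 100 ≤ 1 := pow_le_one₀ hξ.le H.x1
  nlinarith [h.up, H.hK]

theorem Dx.aR (H : Dx d L K σ E ξ) (h : Tt ξ t) {V : T d L → ℝ} (hV : ∀ x, |V x| ≤ Law.b) :
    ‖R σ E t V (0 : T d L) 0‖ ≤ ξ ^ 93 * yf σ E ξ V := H.R_le hV h.lo (H.tu h)

theorem Dx.aA (H : Dx d L K σ E ξ) (h : Tt ξ t) {V : T d L → ℝ} (hV : ∀ x, |V x| ≤ Law.b) :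
    ‖a0 σ E t (0 : T d L) V‖ ≤ ξ ^ 93 * yf σ E ξ V := H.a_le hV h.lo (H.tu h)

theorem Dx.aU (H : Dx d L K σ E ξ) (h : Tt ξ t) {V : T d L → ℝ} (hV : ∀ x, |V x| ≤ Law.b) :
    uu σ E t V ≤ (ξ ^ 8)⁻¹ * yf σ E ξ V := by
  have hξ := H.hξ
  have ht := H.t0 h
  have hy := H.y_nonneg V
  unfold uu
  have h1 : (R σ E t V (0 : T d L) 0).im ≤ ξ ^ 93 * yf σ E ξ V :=
    ((le_abs_self _).trans (Complex.abs_im_le_norm _)).trans (H.aR h hV)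
  rw [div_le_iff₀ ht]
  refine h1.trans ?_
  have h2 : ξ ^ 93 = (ξ ^ 8)⁻¹ * ξ ^ 101 := by
    have e1 : ξ ^ 101 = ξ ^ 8 * ξ ^ 93 := by rw [← pow_add]
    rw [e1, inv_mul_cancel_left₀ (by positivity)]
  calc ξ ^ 93 * yf σ E ξ V = (ξ ^ 8)⁻¹ * yf σ E ξ V * ξ ^ 101 := by rw [h2]; ring
    _ ≤ (ξ ^ 8)⁻¹ * yf σ E ξ V * t := by
        refine mul_le_mul_of_nonneg_left h.lo (by positivity)

theorem Dx.aW (H : Dx d L K σ E ξ) (h : Tt ξ t) {V : T d L → ℝ} (hV : ∀ x, |V x| ≤ Law.b) :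
    ‖ww σ E t (0 : T d L) V‖ ≤ 1 + yf σ E ξ V := by
  have hξ := H.hξ
  have hy := H.y_nonneg V
  have hK := H.K0
  unfold ww
  refine (norm_add_le _ _).trans ?_
  rw [norm_one, norm_mul, norm_mul, Complex.norm_real, Complex.norm_real, Real.norm_eq_abs,
    Real.norm_eq_abs]
  have h1 := H.aA h hV
  have h2 : |σ| * |V 0| * ‖a0 σ E t 0 V‖ ≤ K * K * (ξ ^ 93 * yf σ E ξ V) := by
    have := H.hσK
    have := (hV 0).trans H.hbK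
    gcongr
  have h3 := H.sm (c := 1) (by norm_num) (n := 2) (by norm_num)
  have h4 : ξ ^ 93 ≤ ξ := by
    calc ξ ^ 93 ≤ ξ ^ 1 := pow_le_pow_of_le_one hξ.le H.x1 (by norm_num)
      _ = ξ := pow_one _
  have h5 : K * K * (ξ ^ 93 * yf σ E ξ V) ≤ 1 * yf σ E ξ V := by
    calc K * K * (ξ ^ 93 * yf σ E ξ V) ≤ K * K * (ξ * yf σ E ξ V) := by gcongr
      _ = (1 * K ^ 2 * ξ) * yf σ E ξ V := by ring
      _ ≤ 1 * yf σ E ξ V := by gcongr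
  linarith

/-- a bound for an integral by moments of the majorant -/
theorem Dx.iy (H : Dx d L K σ E ξ) {f : (T d L → ℝ) → ℝ} (hf : BC f) {c : ℝ} {n m : ℕ}
    (hM : S_MOM) (hc : 0 ≤ c) (hn : n ≤ 16) (hm : m ≤ 16)
    (h : ∀ V : T d L → ℝ, (∀ x, |V x| ≤ Law.b) → f V ≤ c * (yf σ E ξ V ^ n + yf σ E ξ V ^ m)) :
    ∫ V, f V ∂(Γ (T d L)) ≤ 4 * c := by
  have b1 := (H.y_BC.powR n).intR
  have b2 := (H.y_BC.powR m).intR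
  have h1 : ∫ V, f V ∂(Γ (T d L)) ≤
      ∫ V, c * (yf σ E ξ V ^ n + yf σ E ξ V ^ m) ∂(Γ (T d L)) := by
    refine integral_mono_ae hf.intR ((b1.add b2).const_mul c) ?_
    filter_upwards [ae_cube (κ := T d L)] with V hV
    exact h V hV
  refine h1.trans ?_
  rw [integral_const_mul, integral_add b1 b2]
  have h2 := H.yn hM hn
  have h3 := H.yn hM hm
  nlinarith

theorem Dx.Eu (H : Dx d L K σ E ξ) (hM : S_MOM) (h : Tt ξ t) :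
    ∫ V, uu σ E t V ∂(Γ (T d L)) ≤ 4 * (ξ ^ 8)⁻¹ := by
  have hξ := H.hξ
  refine H.iy (uu_BC (H.t0 h)) hM (by positivity) (n := 1) (m := 1) (by norm_num) (by norm_num)
    fun V hV => ?_
  have h1 := H.aU h hV
  have h2 := H.y_nonneg V
  have h3 : 0 < (ξ ^ 8)⁻¹ := by positivity
  rw [pow_one]
  nlinarith [mul_nonneg h3.le h2]

theorem Dx.Eu2 (H : Dx d L K σ E ξ) (hM : S_MOM) (h : Tt ξ t) :
    ∫ V, uu σ E t V ^ 2 ∂(Γ (T d L)) ≤ 4 * ((ξ ^ 8)⁻¹) ^ 2 := by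
  have hξ := H.hξ
  refine H.iy ((uu_BC (H.t0 h)).powR 2) hM (by positivity) (n := 2) (m := 2) (by norm_num)
    (by norm_num) fun V hV => ?_
  have h1 := H.aU h hV
  have h2 := H.y_nonneg V
  have h0 := uu_nonneg (σ := σ) (E := E) (H.t0 h) V
  calc uu σ E t V ^ 2 ≤ ((ξ ^ 8)⁻¹ * yf σ E ξ V) ^ 2 := by gcongr
    _ = ((ξ ^ 8)⁻¹) ^ 2 * yf σ E ξ V ^ 2 := by ring
    _ ≤ _ := by
        have : 0 ≤ ((ξ ^ 8)⁻¹) ^ 2 * yf σ E ξ V ^ 2 := by positivity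
        linarith

theorem ww_BC' {σ E t : ℝ} (ht : 0 < t) :
    BC fun V : T d L → ℝ => ‖ww σ E t (0 : T d L) V‖ ^ 2 * uu σ E t V ^ 2 :=
  (ww_BC ht 0).nsq.mulR ((uu_BC ht).powR 2)

theorem Dx.Ew (H : Dx d L K σ E ξ) (hM : S_MOM) (h : Tt ξ t) :
    ∫ V, ‖ww σ E t (0 : T d L) V‖ ^ 2 * uu σ E t V ^ 2 ∂(Γ (T d L)) ≤
      8 * ((ξ ^ 8)⁻¹) ^ 2 := by
  have hξ := H.hξ
  have h9 := H.iy (c := 2 * ((ξ ^ 8)⁻¹) ^ 2) (ww_BC' (H.t0 h)) hM (by positivity) (n := 2)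
    (m := 4) (by norm_num) (by norm_num) (fun V hV => by
      have h1 := H.aU h hV
      have h2 := H.y_nonneg V
      have h3 := H.aW h hV
      have h0 := uu_nonneg (σ := σ) (E := E) (H.t0 h) V
      calc ‖ww σ E t (0 : T d L) V‖ ^ 2 * uu σ E t V ^ 2 ≤
          (1 + yf σ E ξ V) ^ 2 * ((ξ ^ 8)⁻¹ * yf σ E ξ V) ^ 2 := by gcongr
        _ ≤ (2 * (1 + yf σ E ξ V ^ 2)) * ((ξ ^ 8)⁻¹ * yf σ E ξ V) ^ 2 := by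
            refine mul_le_mul_of_nonneg_right ?_ (by positivity)
            nlinarith [sq_nonneg (1 - yf σ E ξ V)]
        _ = _ := by ring)
  linarith

theorem Dx.Ea (H : Dx d L K σ E ξ) (hM : S_MOM) (h : Tt ξ t) :
    ∫ V, ‖a0 σ E t (0 : T d L) V‖ ^ 2 * uu σ E t V ∂(Γ (T d L)) ≤
      4 * ((ξ ^ 93) ^ 2 * (ξ ^ 8)⁻¹) := by
  have hξ := H.hξ
  refine H.iy ((a0_BC (H.t0 h) 0).nsq.mulR (uu_BC (H.t0 h))) hM (by positivity) (n := 3)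
    (m := 3) (by norm_num) (by norm_num) fun V hV => ?_
  have h1 := H.aU h hV
  have h2 := H.y_nonneg V
  have h3 := H.aA h hV
  have h0 := uu_nonneg (σ := σ) (E := E) (H.t0 h) V
  calc ‖a0 σ E t (0 : T d L) V‖ ^ 2 * uu σ E t V ≤
      (ξ ^ 93 * yf σ E ξ V) ^ 2 * ((ξ ^ 8)⁻¹ * yf σ E ξ V) := by gcongr
    _ = (ξ ^ 93) ^ 2 * (ξ ^ 8)⁻¹ * yf σ E ξ V ^ 3 := by ring
    _ ≤ _ := by
        have : 0 ≤ (ξ ^ 93) ^ 2 * (ξ ^ 8)⁻¹ * yf σ E ξ V ^ 3 := by positivity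
        linarith

/-- the mean of the form of the column -/
theorem Dx.Eq (H : Dx d L K σ E ξ) (hM : S_MOM) (hC : S_CC) (h : Tt ξ t) :
    ∫ V, qu σ E (ξ ^ 100) t V ∂(Γ (T d L)) ≤ ξ ^ 77 := by
  have hξ := H.hξ
  have hK := H.K0
  have ht := H.t0 h
  have hb := (Law.hb (self := ‹Law›)).le
  have h1 := qu_mean (d := d) (L := L) (σ := σ) (E := E) hC (ρ := ξ ^ 100) (by positivity) ht
  have hg0 : 0 ≤ gz d L E (ξ ^ 100) := gz_nonneg E _ (by positivity)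
  have hg := H.D.hg
  have e1 := H.Eu hM h
  have e2 := H.Ew hM h
  have e3 := H.Ea hM h
  have n1 : 0 ≤ ∫ V, uu σ E t V ∂(Γ (T d L)) := integral_nonneg fun V => uu_nonneg ht V
  have n2 : 0 ≤ ∫ V, ‖ww σ E t (0 : T d L) V‖ ^ 2 * uu σ E t V ^ 2 ∂(Γ (T d L)) :=
    integral_nonneg fun V => by positivity
  have n3 : 0 ≤ ∫ V, ‖a0 σ E t (0 : T d L) V‖ ^ 2 * uu σ E t V ∂(Γ (T d L)) :=
    integral_nonneg fun V => mul_nonneg (by positivity) (uu_nonneg ht V)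
  have hσ2 : σ ^ 2 ≤ K ^ 2 := by
    rw [← sq_abs]
    have := H.hσK
    gcongr
  have hb4 : Law.b ^ 4 ≤ K ^ 4 := by
    have := H.hbK
    gcongr
  have ht2 : t ^ 2 ≤ (ξ ^ 100) ^ 2 := by
    have := h.up
    gcongr
  refine h1.trans ?_
  have h2 : (ξ ^ 100) * ∫ V, uu σ E t V ∂(Γ (T d L)) +
      3 * (gz d L E (ξ ^ 100) + σ ^ 2 * (2 * gz d L E (ξ ^ 100) *
        ∫ V, uu σ E t V ∂(Γ (T d L)) +
        2 * gz d L E (ξ ^ 100) * Law.b ^ 4 * σ ^ 2 *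
          ∫ V, ‖ww σ E t (0 : T d L) V‖ ^ 2 * uu σ E t V ^ 2 ∂(Γ (T d L)) +
        2 * (ξ ^ 100)⁻¹ * Law.b ^ 4 * σ ^ 2 *
          ∫ V, ‖a0 σ E t (0 : T d L) V‖ ^ 2 * uu σ E t V ∂(Γ (T d L))) +
        t ^ 2 * ((ξ ^ 100)⁻¹ * ∫ V, uu σ E t V ∂(Γ (T d L)))) ≤
      (ξ ^ 100) * (4 * (ξ ^ 8)⁻¹) +
      3 * (ξ ^ 99 + K ^ 2 * (2 * ξ ^ 99 * (4 * (ξ ^ 8)⁻¹) +
        2 * ξ ^ 99 * K ^ 4 * K ^ 2 * (8 * ((ξ ^ 8)⁻¹) ^ 2) +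
        2 * (ξ ^ 100)⁻¹ * K ^ 4 * K ^ 2 * (4 * ((ξ ^ 93) ^ 2 * (ξ ^ 8)⁻¹))) +
        (ξ ^ 100) ^ 2 * ((ξ ^ 100)⁻¹ * (4 * (ξ ^ 8)⁻¹))) := by
    gcongr
  refine h2.trans ?_
  have p8 : ξ ^ 100 * (ξ ^ 8)⁻¹ = ξ ^ 92 := by
    have e : ξ ^ 100 = ξ ^ 92 * ξ ^ 8 := by rw [← pow_add]
    rw [e, mul_assoc, mul_inv_cancel₀ (by positivity), mul_one]
  have p9 : ξ ^ 99 * (ξ ^ 8)⁻¹ = ξ ^ 91 := by
    have e : ξ ^ 99 = ξ ^ 91 * ξ ^ 8 := by rw [← pow_add]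
    rw [e, mul_assoc, mul_inv_cancel₀ (by positivity), mul_one]
  have p16 : ξ ^ 99 * ((ξ ^ 8)⁻¹) ^ 2 = ξ ^ 83 := by
    have e : ξ ^ 91 = ξ ^ 83 * ξ ^ 8 := by rw [← pow_add]
    rw [sq, ← mul_assoc, p9, e, mul_assoc, mul_inv_cancel₀ (by positivity), mul_one]
  have p78 : (ξ ^ 100)⁻¹ * ((ξ ^ 93) ^ 2 * (ξ ^ 8)⁻¹) = ξ ^ 78 := by
    have e : (ξ ^ 93) ^ 2 = ξ ^ 78 * (ξ ^ 100 * ξ ^ 8) := by
      rw [← pow_mul, ← pow_add, ← pow_add]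
    rw [e]
    field_simp
  have p92 : (ξ ^ 100) ^ 2 * ((ξ ^ 100)⁻¹ * (ξ ^ 8)⁻¹) = ξ ^ 92 := by
    rw [← p8]
    field_simp
  have e5 : (ξ ^ 100) * (4 * (ξ ^ 8)⁻¹) +
      3 * (ξ ^ 99 + K ^ 2 * (2 * ξ ^ 99 * (4 * (ξ ^ 8)⁻¹) +
        2 * ξ ^ 99 * K ^ 4 * K ^ 2 * (8 * ((ξ ^ 8)⁻¹) ^ 2) +
        2 * (ξ ^ 100)⁻¹ * K ^ 4 * K ^ 2 * (4 * ((ξ ^ 93) ^ 2 * (ξ ^ 8)⁻¹))) +
        (ξ ^ 100) ^ 2 * ((ξ ^ 100)⁻¹ * (4 * (ξ ^ 8)⁻¹))) =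
      4 * (ξ ^ 100 * (ξ ^ 8)⁻¹) + 3 * ξ ^ 99 + 24 * K ^ 2 * (ξ ^ 99 * (ξ ^ 8)⁻¹) +
        48 * K ^ 8 * (ξ ^ 99 * ((ξ ^ 8)⁻¹) ^ 2) +
        24 * K ^ 8 * ((ξ ^ 100)⁻¹ * ((ξ ^ 93) ^ 2 * (ξ ^ 8)⁻¹)) +
        12 * ((ξ ^ 100) ^ 2 * ((ξ ^ 100)⁻¹ * (ξ ^ 8)⁻¹)) := by ring
  rw [e5, p8, p9, p16, p78, p92]
  have f1 : ξ ^ 92 ≤ K ^ 8 * ξ ^ 78 := by
    have h3 : ξ ^ 92 ≤ ξ ^ 78 := pow_le_pow_of_le_one hξ.le H.x1 (by norm_num)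
    have h4 : (1 : ℝ) ≤ K ^ 8 := one_le_pow₀ H.hK
    have h5 : 0 < ξ ^ 78 := by positivity
    nlinarith
  have f2 : ξ ^ 99 ≤ K ^ 8 * ξ ^ 78 := by
    have h3 : ξ ^ 99 ≤ ξ ^ 78 := pow_le_pow_of_le_one hξ.le H.x1 (by norm_num)
    have h4 : (1 : ℝ) ≤ K ^ 8 := one_le_pow₀ H.hK
    have h5 : 0 < ξ ^ 78 := by positivity
    nlinarith
  have f3 : K ^ 2 * ξ ^ 91 ≤ K ^ 8 * ξ ^ 78 := by
    have h3 : ξ ^ 91 ≤ ξ ^ 78 := pow_le_pow_of_le_one hξ.le H.x1 (by norm_num)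
    have h4 : K ^ 2 ≤ K ^ 8 := pow_le_pow_right₀ H.hK (by norm_num)
    gcongr
  have f4 : K ^ 8 * ξ ^ 83 ≤ K ^ 8 * ξ ^ 78 := by
    have h3 : ξ ^ 83 ≤ ξ ^ 78 := pow_le_pow_of_le_one hξ.le H.x1 (by norm_num)
    gcongr
  have h6 := H.sm (c := 115) (by norm_num) (n := 8) (by norm_num)
  calc 4 * ξ ^ 92 + 3 * ξ ^ 99 + 24 * K ^ 2 * ξ ^ 91 + 48 * K ^ 8 * ξ ^ 83 +
        24 * K ^ 8 * ξ ^ 78 + 12 * ξ ^ 92 ≤ 115 * (K ^ 8 * ξ ^ 78) := by linarith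
    _ = (115 * K ^ 8 * ξ) * ξ ^ 77 := by
        have e : ξ ^ 78 = ξ * ξ ^ 77 := by rw [← pow_succ']
        rw [e]
        ring
    _ ≤ 1 * ξ ^ 77 := by gcongr
    _ = _ := one_mul _

/-- pointwise bound for the form of the column -/
theorem Dx.aq (H : Dx d L K σ E ξ) (h : Tt ξ t) {V : T d L → ℝ} (hV : ∀ x, |V x| ≤ Law.b) :
    qu σ E (ξ ^ 100) t V ≤ 16 * K ^ 2 * (ξ ^ 8)⁻¹ * (yf σ E ξ V + 1) := by
  have hξ := H.hξ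
  have hK := H.K0
  have h1 := H.D.col (H.t0 h) hV
  have h2 := H.aU h hV
  have h3 : ξ ^ 99 ≤ K ^ 2 * (ξ ^ 8)⁻¹ := by
    have e1 : ξ ^ 99 ≤ 1 := pow_le_one₀ hξ.le H.x1
    have e2 : (1 : ℝ) ≤ (ξ ^ 8)⁻¹ := (one_le_inv₀ (by positivity)).2 (pow_le_one₀ hξ.le H.x1)
    have e3 : (1 : ℝ) ≤ K ^ 2 := one_le_pow₀ H.hK
    nlinarith
  have h4 : qu σ E (ξ ^ 100) t V ≤ 4 * (4 * K ^ 2) * uu σ E t V + 4 * ξ ^ 99 := h1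
  have h5 : 4 * (4 * K ^ 2) * uu σ E t V ≤ 4 * (4 * K ^ 2) * ((ξ ^ 8)⁻¹ * yf σ E ξ V) := by
    gcongr
  have h6 : 0 < K ^ 2 * (ξ ^ 8)⁻¹ := by positivity
  calc qu σ E (ξ ^ 100) t V ≤ 4 * (4 * K ^ 2) * ((ξ ^ 8)⁻¹ * yf σ E ξ V) +
        4 * (K ^ 2 * (ξ ^ 8)⁻¹) := by linarith
    _ ≤ _ := by nlinarith

end

end Run7.h108.GL.HD
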