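import Pool.Agent.Run7.h442.HD.Vb

/-! The variances, high dimension. -/

set_option autoImplicit false
set_option linter.unusedSectionVars false

open scoped BigOperators Matrix
open MeasureTheory

namespace Run7.h108.GL.HD

open Pool.Agent.Run7.h47 hiding Hyp good
open Pool.Agent.W788.MFP.Four Pool.Agent.W788.BK
open Pool.Agent.W788.MFP.Form
open Run7.h442.HD

variable {d L : ℕ} [NeZero L] [Law]

theorem cube_le (y : ℝ) (hy : 0 ≤ y) : (y + 1) ^ 3 ≤ 4 * (y ^ 3 + y ^ 0) := by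
  rw [pow_zero]
  nlinarith [mul_nonneg hy (sq_nonneg (y - 1)), sq_nonneg (y - 1),
    mul_nonneg (add_nonneg hy zero_le_one) (sq_nonneg (y - 1))]

theorem int3 {α : Type*} [MeasurableSpace α] {μ : Measure α} {f g h : α → ℝ} (a b c : ℝ)
    (hf : Integrable f μ) (hg : Integrable g μ) (hh : Integrable h μ) :
    ∫ x, (a * f x + b * g x + c * h x) ∂μ =
      a * ∫ x, f x ∂μ + b * ∫ x, g x ∂μ + c * ∫ x, h x ∂μ := by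
  have i1 := hf.const_mul a
  have i2 := hg.const_mul b
  have i3 := hh.const_mul c
  have h1 : ∫ x, (a * f x + b * g x + c * h x) ∂μ =
      ∫ x, (a * f x + b * g x) ∂μ + ∫ x, c * h x ∂μ := integral_add (i1.add i2) i3
  have h2 : ∫ x, (a * f x + b * g x) ∂μ = ∫ x, a * f x ∂μ + ∫ x, b * g x ∂μ :=
    integral_add i1 i2
  rw [h1, h2, integral_const_mul, integral_const_mul, integral_const_mul]

section
variable {K σ E ξ t : ℝ}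

theorem pw (hξ : 0 < ξ) {a b c : ℕ} (h : a = b + c) : ξ ^ a * (ξ ^ b)⁻¹ = ξ ^ c := by
  rw [h, pow_add]
  field_simp

theorem Dx.Eq2 (H : Dx d L K σ E ξ) (hM : S_MOM) (hC : S_CC) (h : Tt ξ t) :
    ∫ V, qu σ E (ξ ^ 100) t V ^ 2 ∂(Γ (T d L)) ≤ ξ ^ 25 := by
  have hξ := H.hξ
  have hK := H.K0
  have ht := H.t0 h
  have bq := qu_BC (d := d) (L := L) (σ := σ) (E := E) (ρ := ξ ^ 100) ht
  have h3 := H.iy (bq.powR 3) (c := 16384 * K ^ 6 * ((ξ ^ 8)⁻¹) ^ 3) hM (by positivity) (n := 3)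
    (m := 0) (by norm_num) (by norm_num) (fun V hV => by
      have h1 := H.aq h hV
      have h2 := H.y_nonneg V
      have h0 := qu_nonneg (σ := σ) (E := E) (t := t) (show (0 : ℝ) < ξ ^ 100 by positivity) V
      calc qu σ E (ξ ^ 100) t V ^ 3 ≤ (16 * K ^ 2 * (ξ ^ 8)⁻¹ * (yf σ E ξ V + 1)) ^ 3 := by gcongr
        _ = 4096 * K ^ 6 * ((ξ ^ 8)⁻¹) ^ 3 * (yf σ E ξ V + 1) ^ 3 := by ring
        _ ≤ 4096 * K ^ 6 * ((ξ ^ 8)⁻¹) ^ 3 * (4 * (yf σ E ξ V ^ 3 + yf σ E ξ V ^ 0)) := by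
            refine mul_le_mul_of_nonneg_left (cube_le _ h2) (by positivity)
        _ = _ := by ring)
  have h1 := H.Eq hM hC h
  have hp : ∀ V : T d L → ℝ, qu σ E (ξ ^ 100) t V ^ 2 ≤
      1 / 2 * ((ξ ^ 50)⁻¹ * qu σ E (ξ ^ 100) t V + ξ ^ 50 * qu σ E (ξ ^ 100) t V ^ 3) := by
    intro V
    have h0 := qu_nonneg (σ := σ) (E := E) (t := t) (show (0 : ℝ) < ξ ^ 100 by positivity) V
    obtain ⟨q, hq⟩ : ∃ q, q = qu σ E (ξ ^ 100) t V := ⟨_, rfl⟩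
    obtain ⟨l, hl⟩ : ∃ l, l = ξ ^ 50 := ⟨_, rfl⟩
    rw [← hq] at h0
    rw [← hq, ← hl]
    have hl0 : 0 < l := by rw [hl]; positivity
    have e1 : 1 / 2 * (l⁻¹ * q + l * q ^ 3) - q ^ 2 = 1 / 2 * q * l⁻¹ * (1 - l * q) ^ 2 := by
      field_simp
      ring
    have e2 : 0 ≤ 1 / 2 * q * l⁻¹ * (1 - l * q) ^ 2 := by positivity
    linarith
  have i1 := bq.intR.const_mul (ξ ^ 50)⁻¹
  have i3 := (bq.powR 3).intR.const_mul (ξ ^ 50)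
  have h2 : ∫ V, qu σ E (ξ ^ 100) t V ^ 2 ∂(Γ (T d L)) ≤ ∫ V, 1 / 2 *
      ((ξ ^ 50)⁻¹ * qu σ E (ξ ^ 100) t V + ξ ^ 50 * qu σ E (ξ ^ 100) t V ^ 3) ∂(Γ (T d L)) :=
    integral_mono (bq.powR 2).intR ((i1.add i3).const_mul _) hp
  refine h2.trans ?_
  rw [integral_const_mul, integral_add i1 i3, integral_const_mul, integral_const_mul]
  have e1 : (ξ ^ 50)⁻¹ * ξ ^ 77 = ξ ^ 27 := by rw [mul_comm, pw hξ (c := 27) (by norm_num)]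
  have e2 : ξ ^ 50 * ((ξ ^ 8)⁻¹) ^ 3 = ξ ^ 26 := by
    rw [inv_pow, ← pow_mul, pw hξ (c := 26) (by norm_num)]
  have h6 := H.sm (c := 65536) (by norm_num) (n := 6) (by norm_num)
  have h7 : ξ ^ 27 ≤ ξ ^ 25 := pow_le_pow_of_le_one hξ.le H.x1 (by norm_num)
  calc 1 / 2 * ((ξ ^ 50)⁻¹ * ∫ V, qu σ E (ξ ^ 100) t V ∂(Γ (T d L)) +
        ξ ^ 50 * ∫ V, qu σ E (ξ ^ 100) t V ^ 3 ∂(Γ (T d L))) ≤
      1 / 2 * ((ξ ^ 50)⁻¹ * ξ ^ 77 + ξ ^ 50 * (4 * (16384 * K ^ 6 * ((ξ ^ 8)⁻¹) ^ 3))) := by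
        gcongr
    _ = 1 / 2 * ((ξ ^ 50)⁻¹ * ξ ^ 77 + 65536 * K ^ 6 * (ξ ^ 50 * ((ξ ^ 8)⁻¹) ^ 3)) := by ring
    _ = 1 / 2 * (ξ ^ 27 + (65536 * K ^ 6 * ξ) * ξ ^ 25) := by
        rw [e1, e2]
        have : ξ ^ 26 = ξ * ξ ^ 25 := by rw [← pow_succ']
        rw [this]
        ring
    _ ≤ 1 / 2 * (ξ ^ 25 + 1 * ξ ^ 25) := by gcongr
    _ = _ := by ring

theorem Dx.Equ (H : Dx d L K σ E ξ) (hM : S_MOM) (hC : S_CC) (h : Tt ξ t) :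
    ∫ V, qu σ E (ξ ^ 100) t V * uu σ E t V ∂(Γ (T d L)) ≤ ξ ^ 25 := by
  have hξ := H.hξ
  have hK := H.K0
  have ht := H.t0 h
  have bq := qu_BC (d := d) (L := L) (σ := σ) (E := E) (ρ := ξ ^ 100) ht
  have bu := uu_BC (d := d) (L := L) (σ := σ) (E := E) ht
  have h3 := H.iy (bq.mulR (bu.powR 2)) (c := 16 * K ^ 2 * ((ξ ^ 8)⁻¹) ^ 3) hM (by positivity)
    (n := 3) (m := 2) (by norm_num) (by norm_num) (fun V hV => by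
      have h1 := H.aq h hV
      have h2 := H.y_nonneg V
      have h4 := H.aU h hV
      have h5 := uu_nonneg (σ := σ) (E := E) ht V
      have h0 := qu_nonneg (σ := σ) (E := E) (t := t) (show (0 : ℝ) < ξ ^ 100 by positivity) V
      calc qu σ E (ξ ^ 100) t V * uu σ E t V ^ 2 ≤
          (16 * K ^ 2 * (ξ ^ 8)⁻¹ * (yf σ E ξ V + 1)) * ((ξ ^ 8)⁻¹ * yf σ E ξ V) ^ 2 := by gcongr
        _ = _ := by ring)
  have h1 := H.Eq hM hC h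
  have hp : ∀ V : T d L → ℝ, qu σ E (ξ ^ 100) t V * uu σ E t V ≤
      1 / 2 * ((ξ ^ 50)⁻¹ * qu σ E (ξ ^ 100) t V +
        ξ ^ 50 * (qu σ E (ξ ^ 100) t V * uu σ E t V ^ 2)) := by
    intro V
    have h0 := qu_nonneg (σ := σ) (E := E) (t := t) (show (0 : ℝ) < ξ ^ 100 by positivity) V
    obtain ⟨q, hq⟩ : ∃ q, q = qu σ E (ξ ^ 100) t V := ⟨_, rfl⟩
    obtain ⟨u, hu⟩ : ∃ u, u = uu σ E t V := ⟨_, rfl⟩
    obtain ⟨l, hl⟩ : ∃ l, l = ξ ^ 50 := ⟨_, rfl⟩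
    rw [← hq] at h0
    rw [← hq, ← hu, ← hl]
    have hl0 : 0 < l := by rw [hl]; positivity
    have e1 : 1 / 2 * (l⁻¹ * q + l * (q * u ^ 2)) - q * u =
        1 / 2 * q * l⁻¹ * (1 - l * u) ^ 2 := by
      field_simp
      ring
    have e2 : 0 ≤ 1 / 2 * q * l⁻¹ * (1 - l * u) ^ 2 := by positivity
    linarith
  have i1 := bq.intR.const_mul (ξ ^ 50)⁻¹
  have i3 := (bq.mulR (bu.powR 2)).intR.const_mul (ξ ^ 50)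
  have h2 : ∫ V, qu σ E (ξ ^ 100) t V * uu σ E t V ∂(Γ (T d L)) ≤ ∫ V, 1 / 2 *
      ((ξ ^ 50)⁻¹ * qu σ E (ξ ^ 100) t V +
        ξ ^ 50 * (qu σ E (ξ ^ 100) t V * uu σ E t V ^ 2)) ∂(Γ (T d L)) :=
    integral_mono (bq.mulR bu).intR ((i1.add i3).const_mul _) hp
  refine h2.trans ?_
  rw [integral_const_mul, integral_add i1 i3, integral_const_mul, integral_const_mul]
  have e1 : (ξ ^ 50)⁻¹ * ξ ^ 77 = ξ ^ 27 := by rw [mul_comm, pw hξ (c := 27) (by norm_num)]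
  have e2 : ξ ^ 50 * ((ξ ^ 8)⁻¹) ^ 3 = ξ ^ 26 := by
    rw [inv_pow, ← pow_mul, pw hξ (c := 26) (by norm_num)]
  have h6 := H.sm (c := 64) (by norm_num) (n := 2) (by norm_num)
  have h7 : ξ ^ 27 ≤ ξ ^ 25 := pow_le_pow_of_le_one hξ.le H.x1 (by norm_num)
  calc 1 / 2 * ((ξ ^ 50)⁻¹ * ∫ V, qu σ E (ξ ^ 100) t V ∂(Γ (T d L)) +
        ξ ^ 50 * ∫ V, qu σ E (ξ ^ 100) t V * uu σ E t V ^ 2 ∂(Γ (T d L))) ≤
      1 / 2 * ((ξ ^ 50)⁻¹ * ξ ^ 77 + ξ ^ 50 * (4 * (16 * K ^ 2 * ((ξ ^ 8)⁻¹) ^ 3))) := by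
        gcongr
    _ = 1 / 2 * ((ξ ^ 50)⁻¹ * ξ ^ 77 + 64 * K ^ 2 * (ξ ^ 50 * ((ξ ^ 8)⁻¹) ^ 3)) := by ring
    _ = 1 / 2 * (ξ ^ 27 + (64 * K ^ 2 * ξ) * ξ ^ 25) := by
        rw [e1, e2]
        have : ξ ^ 26 = ξ * ξ ^ 25 := by rw [← pow_succ']
        rw [this]
        ring
    _ ≤ 1 / 2 * (ξ ^ 25 + 1 * ξ ^ 25) := by gcongr
    _ = _ := by ring

/-- the weight at a site -/
noncomputable def wt (σ E t : ℝ) (x : T d L) (V : T d L → ℝ) : ℝ := ‖a0 σ E t x V‖ ^ 8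

theorem wt_BC (ht : 0 < t) (x : T d L) : BC fun V : T d L → ℝ => wt σ E t x V :=
  (a0_BC ht x).norm.powR 8

theorem wt_nonneg (x : T d L) (V : T d L → ℝ) : 0 ≤ wt σ E t x V := by
  unfold wt
  positivity

/-- the weighted Ward sum -/
theorem Dx.Ewt (H : Dx d L K σ E ξ) (hM : S_MOM) (h : Tt ξ t) :
    ∫ V, ∑ x : T d L, wt σ E t x V * ‖R σ E t V 0 x‖ ^ 2 ∂(Γ (T d L)) ≤ 4 * ξ ^ 736 := by
  have hξ := H.hξ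
  have ht := H.t0 h
  have bb : ∀ x : T d L, BC fun V : T d L → ℝ => wt σ E t x V * ‖R σ E t V 0 x‖ ^ 2 :=
    fun x => (wt_BC ht x).mulR (R_BC ht 0 x).nsq
  rw [integral_finsetSum _ fun x _ => (bb x).intR]
  have h1 : ∀ x : T d L, ∫ V, wt σ E t x V * ‖R σ E t V 0 x‖ ^ 2 ∂(Γ (T d L)) =
      ∫ V, wt σ E t 0 (fun z => V (z + x)) * ‖R σ E t V 0 x‖ ^ 2 ∂(Γ (T d L)) := by
    intro x
    refine integral_congr_ae (Filter.Eventually.of_forall fun V => ?_)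
    simp only
    unfold wt
    rw [a0_shift]
  simp only [h1]
  rw [mt ht (wt_BC ht 0)]
  have h2 := H.iy ((wt_BC ht 0).mulR (uu_BC ht)) (c := (ξ ^ 93) ^ 8 * (ξ ^ 8)⁻¹) hM
    (by positivity) (n := 9) (m := 9) (by norm_num) (by norm_num) (fun V hV => by
      have h1 := H.aU h hV
      have h2 := H.y_nonneg V
      have h3 := H.aA h hV
      have h0 := uu_nonneg (σ := σ) (E := E) (H.t0 h) V
      unfold wt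
      calc ‖a0 σ E t (0 : T d L) V‖ ^ 8 * uu σ E t V ≤
          (ξ ^ 93 * yf σ E ξ V) ^ 8 * ((ξ ^ 8)⁻¹ * yf σ E ξ V) := by gcongr
        _ = (ξ ^ 93) ^ 8 * (ξ ^ 8)⁻¹ * yf σ E ξ V ^ 9 := by ring
        _ ≤ _ := by
            have : 0 ≤ (ξ ^ 93) ^ 8 * (ξ ^ 8)⁻¹ * yf σ E ξ V ^ 9 := by positivity
            linarith)
  refine h2.trans (le_of_eq ?_)
  rw [← pow_mul, pw hξ (c := 736) (by norm_num)]

theorem Dx.tinv (H : Dx d L K σ E ξ) (h : Tt ξ t) : (t ^ 2)⁻¹ ≤ (ξ ^ 202)⁻¹ := by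
  have hξ := H.hξ
  refine inv_anti₀ (by positivity) ?_
  calc ξ ^ 202 = (ξ ^ 101) ^ 2 := by rw [← pow_mul]
    _ ≤ t ^ 2 := by
        have := h.lo
        gcongr

/-- **the weighted bilinear bound** -/
theorem Dx.Ebl (H : Dx d L K σ E ξ) (hM : S_MOM) (hC : S_CC) (h : Tt ξ t)
    (w : (T d L → ℝ) → T d L → ℂ) (hw : ∀ x, BC fun V => w V x)
    (hq : ∀ V : T d L → ℝ, (∀ x, |V x| ≤ Law.b) →
      qc (J E (ξ ^ 100)) (w V) ≤ 32 * K ^ 2 * ((t ^ 2)⁻¹ * uu σ E t V))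
    (hn : ∀ V : T d L → ℝ, nsq (w V) ≤ (t ^ 2)⁻¹ * uu σ E t V) :
    ∫ V, ∑ x : T d L, (1 + wt σ E t x V) * (‖R σ E t V 0 x‖ ^ 2 * ‖w V x‖ ^ 2)
      ∂(Γ (T d L)) ≤ 40 * K ^ 2 * ξ ^ 22 := by
  have hξ := H.hξ
  have hK := H.K0
  have ht := H.t0 h
  have hti : 0 ≤ (t ^ 2)⁻¹ := by positivity
  have bq := qu_BC (d := d) (L := L) (σ := σ) (E := E) (ρ := ξ ^ 100) ht
  have bu := uu_BC (d := d) (L := L) (σ := σ) (E := E) ht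
  have bw : BC fun V : T d L → ℝ => ∑ x : T d L, wt σ E t x V * ‖R σ E t V 0 x‖ ^ 2 :=
    BC.sum _ fun x _ => (wt_BC ht x).mulR (R_BC ht 0 x).nsq
  have bS : BC fun V : T d L → ℝ => ∑ x : T d L, (1 + wt σ E t x V) *
      (‖R σ E t V 0 x‖ ^ 2 * ‖w V x‖ ^ 2) := BC.sum _ fun x _ =>
    ((BC.const 1).add (wt_BC ht x)).mulR ((R_BC ht 0 x).nsq.mulR (hw x).nsq)
  have hp : ∀ V : T d L → ℝ, (∀ x, |V x| ≤ Law.b) →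
      ∑ x : T d L, (1 + wt σ E t x V) * (‖R σ E t V 0 x‖ ^ 2 * ‖w V x‖ ^ 2) ≤
      (32 * K ^ 2 * ξ ^ 199 * (t ^ 2)⁻¹) * (qu σ E (ξ ^ 100) t V * uu σ E t V) +
      (ξ ^ 1000 * (t ^ 2)⁻¹) * uu σ E t V ^ 2 +
      ((t ^ 2)⁻¹ * (t ^ 2)⁻¹) * ∑ x : T d L, wt σ E t x V * ‖R σ E t V 0 x‖ ^ 2 := by
    intro V hV
    have hu0 := uu_nonneg (σ := σ) (E := E) ht V
    have hq0 := qu_nonneg (σ := σ) (E := E) (t := t) (show (0 : ℝ) < ξ ^ 100 by positivity) V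
    have h1 := H.D.bl (R σ E t V *ᵥ Pi.single 0 1) (w V)
    simp only [← col_ap] at h1
    rw [U_eq ht] at h1
    have h2 : ξ ^ 199 * (qc (J E (ξ ^ 100)) (R σ E t V *ᵥ Pi.single 0 1) *
        qc (J E (ξ ^ 100)) (w V)) ≤ ξ ^ 199 * (qu σ E (ξ ^ 100) t V *
          (32 * K ^ 2 * ((t ^ 2)⁻¹ * uu σ E t V))) := by
      refine mul_le_mul_of_nonneg_left ?_ (by positivity)
      exact mul_le_mul_of_nonneg_left (hq V hV) hq0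
    have h3 : lwh d L * ((R σ E t V (0 : T d L) 0).im / t * nsq (w V)) ≤
        ξ ^ 1000 * (uu σ E t V * ((t ^ 2)⁻¹ * uu σ E t V)) := by
      refine mul_le_mul H.hlw (mul_le_mul_of_nonneg_left (hn V) hu0)
        (mul_nonneg hu0 (nsq_nonneg _)) (by positivity)
    have h4 : ∑ x : T d L, (‖R σ E t V 0 x‖ ^ 2 * ‖w V x‖ ^ 2) ≤
        (32 * K ^ 2 * ξ ^ 199 * (t ^ 2)⁻¹) * (qu σ E (ξ ^ 100) t V * uu σ E t V) +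
        (ξ ^ 1000 * (t ^ 2)⁻¹) * uu σ E t V ^ 2 := by
      refine h1.trans ((add_le_add h2 h3).trans (le_of_eq ?_))
      ring
    have h5 : ∑ x : T d L, wt σ E t x V * (‖R σ E t V 0 x‖ ^ 2 * ‖w V x‖ ^ 2) ≤
        ((t ^ 2)⁻¹ * (t ^ 2)⁻¹) * ∑ x : T d L, wt σ E t x V * ‖R σ E t V 0 x‖ ^ 2 := by
      rw [Finset.mul_sum]
      refine Finset.sum_le_sum fun x _ => ?_
      have h6 : ‖w V x‖ ^ 2 ≤ (t ^ 2)⁻¹ * (t ^ 2)⁻¹ := by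
        have h7 : ‖w V x‖ ^ 2 ≤ nsq (w V) := by
          unfold nsq
          exact Finset.single_le_sum (f := fun x => ‖w V x‖ ^ 2) (fun y _ => by positivity)
            (Finset.mem_univ x)
        have h8 : uu σ E t V ≤ (t ^ 2)⁻¹ := by
          unfold uu
          rw [← R_ward ht]
          exact R_sum_le ht V 0
        exact h7.trans ((hn V).trans (mul_le_mul_of_nonneg_left h8 hti))
      have h9 := wt_nonneg (σ := σ) (E := E) (t := t) x V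
      calc wt σ E t x V * (‖R σ E t V 0 x‖ ^ 2 * ‖w V x‖ ^ 2) ≤
          wt σ E t x V * (‖R σ E t V 0 x‖ ^ 2 * ((t ^ 2)⁻¹ * (t ^ 2)⁻¹)) := by gcongr
        _ = _ := by ring
    have h10 : ∑ x : T d L, (1 + wt σ E t x V) * (‖R σ E t V 0 x‖ ^ 2 * ‖w V x‖ ^ 2) =
        ∑ x : T d L, (‖R σ E t V 0 x‖ ^ 2 * ‖w V x‖ ^ 2) +
        ∑ x : T d L, wt σ E t x V * (‖R σ E t V 0 x‖ ^ 2 * ‖w V x‖ ^ 2) := by
      rw [← Finset.sum_add_distrib]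
      exact Finset.sum_congr rfl fun x _ => by ring
    rw [h10]
    exact add_le_add h4 h5
  have i1 := (bq.mulR bu).intR.const_mul (32 * K ^ 2 * ξ ^ 199 * (t ^ 2)⁻¹)
  have i2 := (bu.powR 2).intR.const_mul (ξ ^ 1000 * (t ^ 2)⁻¹)
  have i3 := bw.intR.const_mul ((t ^ 2)⁻¹ * (t ^ 2)⁻¹)
  have h2 : ∫ V, ∑ x : T d L, (1 + wt σ E t x V) * (‖R σ E t V 0 x‖ ^ 2 * ‖w V x‖ ^ 2)
      ∂(Γ (T d L)) ≤ ∫ V, ((32 * K ^ 2 * ξ ^ 199 * (t ^ 2)⁻¹) *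
        (qu σ E (ξ ^ 100) t V * uu σ E t V) +
      (ξ ^ 1000 * (t ^ 2)⁻¹) * uu σ E t V ^ 2 +
      ((t ^ 2)⁻¹ * (t ^ 2)⁻¹) * ∑ x : T d L, wt σ E t x V * ‖R σ E t V 0 x‖ ^ 2)
        ∂(Γ (T d L)) := by
    refine integral_mono_ae bS.intR ((i1.add i2).add i3) ?_
    filter_upwards [ae_cube (κ := T d L)] with V hV
    exact hp V hV
  refine h2.trans ?_
  have h3 : ∫ V, ((32 * K ^ 2 * ξ ^ 199 * (t ^ 2)⁻¹) *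
        (qu σ E (ξ ^ 100) t V * uu σ E t V) +
      (ξ ^ 1000 * (t ^ 2)⁻¹) * uu σ E t V ^ 2 +
      ((t ^ 2)⁻¹ * (t ^ 2)⁻¹) * ∑ x : T d L, wt σ E t x V * ‖R σ E t V 0 x‖ ^ 2)
        ∂(Γ (T d L)) = (32 * K ^ 2 * ξ ^ 199 * (t ^ 2)⁻¹) *
        ∫ V, qu σ E (ξ ^ 100) t V * uu σ E t V ∂(Γ (T d L)) +
      (ξ ^ 1000 * (t ^ 2)⁻¹) * ∫ V, uu σ E t V ^ 2 ∂(Γ (T d L)) +
      ((t ^ 2)⁻¹ * (t ^ 2)⁻¹) * ∫ V, ∑ x : T d L, wt σ E t x V * ‖R σ E t V 0 x‖ ^ 2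
        ∂(Γ (T d L)) :=
    int3 _ _ _ (bq.mulR bu).intR (bu.powR 2).intR bw.intR
  rw [h3]
  have h4 := H.Equ hM hC h
  have h5 := H.Eu2 hM h
  have h6 := H.Ewt hM h
  have h7 := H.tinv h
  have n1 : 0 ≤ ∫ V, qu σ E (ξ ^ 100) t V * uu σ E t V ∂(Γ (T d L)) :=
    integral_nonneg fun V => mul_nonneg (qu_nonneg (by positivity) V) (uu_nonneg ht V)
  have n2 : 0 ≤ ∫ V, uu σ E t V ^ 2 ∂(Γ (T d L)) := integral_nonneg fun V => by positivity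
  have n3 : 0 ≤ ∫ V, ∑ x : T d L, wt σ E t x V * ‖R σ E t V 0 x‖ ^ 2 ∂(Γ (T d L)) :=
    integral_nonneg fun V => Finset.sum_nonneg fun x _ =>
      mul_nonneg (wt_nonneg x V) (by positivity)
  have e1 : ξ ^ 199 * (ξ ^ 202)⁻¹ * ξ ^ 25 = ξ ^ 22 := by
    have e : ξ ^ 199 * ξ ^ 25 = ξ ^ 224 := by rw [← pow_add]
    calc ξ ^ 199 * (ξ ^ 202)⁻¹ * ξ ^ 25 = ξ ^ 224 * (ξ ^ 202)⁻¹ := by rw [← e]; ring
      _ = _ := pw hξ (c := 22) (by norm_num)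
  have e2 : ξ ^ 1000 * (ξ ^ 202)⁻¹ * ((ξ ^ 8)⁻¹) ^ 2 = ξ ^ 782 := by
    rw [pw hξ (c := 798) (by norm_num), inv_pow, ← pow_mul, pw hξ (c := 782) (by norm_num)]
  have e3 : ((ξ ^ 202)⁻¹ * (ξ ^ 202)⁻¹) * ξ ^ 736 = ξ ^ 332 := by
    have e : ξ ^ 736 * (ξ ^ 202)⁻¹ = ξ ^ 534 := pw hξ (c := 534) (by norm_num)
    calc ((ξ ^ 202)⁻¹ * (ξ ^ 202)⁻¹) * ξ ^ 736 = (ξ ^ 736 * (ξ ^ 202)⁻¹) * (ξ ^ 202)⁻¹ := by ring
      _ = _ := by rw [e]; exact pw hξ (c := 332) (by norm_num)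
  have f2 : ξ ^ 782 ≤ K ^ 2 * ξ ^ 22 := by
    have h3 : ξ ^ 782 ≤ ξ ^ 22 := pow_le_pow_of_le_one hξ.le H.x1 (by norm_num)
    have h4 : (1 : ℝ) ≤ K ^ 2 := one_le_pow₀ H.hK
    have h5 : 0 < ξ ^ 22 := by positivity
    nlinarith
  have f3 : ξ ^ 332 ≤ K ^ 2 * ξ ^ 22 := by
    have h3 : ξ ^ 332 ≤ ξ ^ 22 := pow_le_pow_of_le_one hξ.le H.x1 (by norm_num)
    have h4 : (1 : ℝ) ≤ K ^ 2 := one_le_pow₀ H.hK
    have h5 : 0 < ξ ^ 22 := by positivity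
    nlinarith
  have g1 : (32 * K ^ 2 * ξ ^ 199 * (t ^ 2)⁻¹) *
      ∫ V, qu σ E (ξ ^ 100) t V * uu σ E t V ∂(Γ (T d L)) ≤
      (32 * K ^ 2 * ξ ^ 199 * (ξ ^ 202)⁻¹) * ξ ^ 25 :=
    mul_le_mul (mul_le_mul_of_nonneg_left h7 (by positivity)) h4 n1 (by positivity)
  have g2 : (ξ ^ 1000 * (t ^ 2)⁻¹) * ∫ V, uu σ E t V ^ 2 ∂(Γ (T d L)) ≤
      (ξ ^ 1000 * (ξ ^ 202)⁻¹) * (4 * ((ξ ^ 8)⁻¹) ^ 2) :=
    mul_le_mul (mul_le_mul_of_nonneg_left h7 (by positivity)) h5 n2 (by positivity)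
  have g3 : ((t ^ 2)⁻¹ * (t ^ 2)⁻¹) *
      ∫ V, ∑ x : T d L, wt σ E t x V * ‖R σ E t V 0 x‖ ^ 2 ∂(Γ (T d L)) ≤
      ((ξ ^ 202)⁻¹ * (ξ ^ 202)⁻¹) * (4 * ξ ^ 736) :=
    mul_le_mul (mul_le_mul h7 h7 hti (by positivity)) h6 n3 (by positivity)
  calc _ ≤ (32 * K ^ 2 * ξ ^ 199 * (ξ ^ 202)⁻¹) * ξ ^ 25 +
        (ξ ^ 1000 * (ξ ^ 202)⁻¹) * (4 * ((ξ ^ 8)⁻¹) ^ 2) +
        ((ξ ^ 202)⁻¹ * (ξ ^ 202)⁻¹) * (4 * ξ ^ 736) := add_le_add (add_le_add g1 g2) g3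
    _ = 32 * K ^ 2 * (ξ ^ 199 * (ξ ^ 202)⁻¹ * ξ ^ 25) +
        4 * (ξ ^ 1000 * (ξ ^ 202)⁻¹ * ((ξ ^ 8)⁻¹) ^ 2) +
        4 * (((ξ ^ 202)⁻¹ * (ξ ^ 202)⁻¹) * ξ ^ 736) := by ring
    _ = 32 * K ^ 2 * ξ ^ 22 + 4 * ξ ^ 782 + 4 * ξ ^ 332 := by rw [e1, e2, e3]
    _ ≤ _ := by linarith

/-- **the weighted fourth powers** -/
theorem Dx.E4 (H : Dx d L K σ E ξ) (hM : S_MOM) (hC : S_CC) (h : Tt ξ t) :
    ∫ V, ∑ x : T d L, (1 + wt σ E t x V) * (‖R σ E t V 0 x‖ ^ 2 * ‖R σ E t V 0 x‖ ^ 2)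
      ∂(Γ (T d L)) ≤ 9 * ξ ^ 224 := by
  have hξ := H.hξ
  have hK := H.K0
  have ht := H.t0 h
  have hti : 0 ≤ (t ^ 2)⁻¹ := by positivity
  have bq := qu_BC (d := d) (L := L) (σ := σ) (E := E) (ρ := ξ ^ 100) ht
  have bu := uu_BC (d := d) (L := L) (σ := σ) (E := E) ht
  have bw : BC fun V : T d L → ℝ => ∑ x : T d L, wt σ E t x V * ‖R σ E t V 0 x‖ ^ 2 :=
    BC.sum _ fun x _ => (wt_BC ht x).mulR (R_BC ht 0 x).nsq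
  have bS : BC fun V : T d L → ℝ => ∑ x : T d L, (1 + wt σ E t x V) *
      (‖R σ E t V 0 x‖ ^ 2 * ‖R σ E t V 0 x‖ ^ 2) := BC.sum _ fun x _ =>
    ((BC.const 1).add (wt_BC ht x)).mulR ((R_BC ht 0 x).nsq.mulR (R_BC ht 0 x).nsq)
  have hp : ∀ V : T d L → ℝ,
      ∑ x : T d L, (1 + wt σ E t x V) * (‖R σ E t V 0 x‖ ^ 2 * ‖R σ E t V 0 x‖ ^ 2) ≤
      ξ ^ 199 * qu σ E (ξ ^ 100) t V ^ 2 + ξ ^ 1000 * uu σ E t V ^ 2 +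
      (t ^ 2)⁻¹ * ∑ x : T d L, wt σ E t x V * ‖R σ E t V 0 x‖ ^ 2 := by
    intro V
    have hu0 := uu_nonneg (σ := σ) (E := E) ht V
    have hq0 := qu_nonneg (σ := σ) (E := E) (t := t) (show (0 : ℝ) < ξ ^ 100 by positivity) V
    have h1 := H.D.bl (R σ E t V *ᵥ Pi.single 0 1) (R σ E t V *ᵥ Pi.single 0 1)
    simp only [← col_ap] at h1
    rw [U_eq ht] at h1
    have h3 : lwh d L * ((R σ E t V (0 : T d L) 0).im / t * ((R σ E t V (0 : T d L) 0).im / t)) ≤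
        ξ ^ 1000 * (uu σ E t V * uu σ E t V) :=
      mul_le_mul_of_nonneg_right H.hlw (mul_nonneg hu0 hu0)
    have h4 : ∑ x : T d L, (‖R σ E t V 0 x‖ ^ 2 * ‖R σ E t V 0 x‖ ^ 2) ≤
        ξ ^ 199 * qu σ E (ξ ^ 100) t V ^ 2 + ξ ^ 1000 * uu σ E t V ^ 2 := by
      refine h1.trans ((add_le_add le_rfl h3).trans (le_of_eq ?_))
      unfold qu
      ring
    have h5 : ∑ x : T d L, wt σ E t x V * (‖R σ E t V 0 x‖ ^ 2 * ‖R σ E t V 0 x‖ ^ 2) ≤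
        (t ^ 2)⁻¹ * ∑ x : T d L, wt σ E t x V * ‖R σ E t V 0 x‖ ^ 2 := by
      rw [Finset.mul_sum]
      refine Finset.sum_le_sum fun x _ => ?_
      have h6 : ‖R σ E t V 0 x‖ ^ 2 ≤ (t ^ 2)⁻¹ := by
        rw [← inv_pow]
        exact pow_le_pow_left₀ (norm_nonneg _) (R_bd ht V 0 x) 2
      have h9 := wt_nonneg (σ := σ) (E := E) (t := t) x V
      calc wt σ E t x V * (‖R σ E t V 0 x‖ ^ 2 * ‖R σ E t V 0 x‖ ^ 2) ≤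
          wt σ E t x V * (‖R σ E t V 0 x‖ ^ 2 * (t ^ 2)⁻¹) := by gcongr
        _ = _ := by ring
    have h10 : ∑ x : T d L, (1 + wt σ E t x V) * (‖R σ E t V 0 x‖ ^ 2 * ‖R σ E t V 0 x‖ ^ 2) =
        ∑ x : T d L, (‖R σ E t V 0 x‖ ^ 2 * ‖R σ E t V 0 x‖ ^ 2) +
        ∑ x : T d L, wt σ E t x V * (‖R σ E t V 0 x‖ ^ 2 * ‖R σ E t V 0 x‖ ^ 2) := by
      rw [← Finset.sum_add_distrib]
      exact Finset.sum_congr rfl fun x _ => by ring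
    rw [h10]
    exact add_le_add h4 h5
  have i1 := (bq.powR 2).intR.const_mul (ξ ^ 199)
  have i2 := (bu.powR 2).intR.const_mul (ξ ^ 1000)
  have i3 := bw.intR.const_mul ((t ^ 2)⁻¹)
  have h2 : ∫ V, ∑ x : T d L, (1 + wt σ E t x V) *
      (‖R σ E t V 0 x‖ ^ 2 * ‖R σ E t V 0 x‖ ^ 2)
      ∂(Γ (T d L)) ≤ ∫ V, (ξ ^ 199 * qu σ E (ξ ^ 100) t V ^ 2 + ξ ^ 1000 * uu σ E t V ^ 2 +
      (t ^ 2)⁻¹ * ∑ x : T d L, wt σ E t x V * ‖R σ E t V 0 x‖ ^ 2) ∂(Γ (T d L)) :=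
    integral_mono bS.intR ((i1.add i2).add i3) hp
  refine h2.trans ?_
  have h3 : ∫ V, (ξ ^ 199 * qu σ E (ξ ^ 100) t V ^ 2 + ξ ^ 1000 * uu σ E t V ^ 2 +
      (t ^ 2)⁻¹ * ∑ x : T d L, wt σ E t x V * ‖R σ E t V 0 x‖ ^ 2) ∂(Γ (T d L)) =
      ξ ^ 199 * ∫ V, qu σ E (ξ ^ 100) t V ^ 2 ∂(Γ (T d L)) +
      ξ ^ 1000 * ∫ V, uu σ E t V ^ 2 ∂(Γ (T d L)) +
      (t ^ 2)⁻¹ * ∫ V, ∑ x : T d L, wt σ E t x V * ‖R σ E t V 0 x‖ ^ 2 ∂(Γ (T d L)) :=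
    int3 _ _ _ (bq.powR 2).intR (bu.powR 2).intR bw.intR
  rw [h3]
  have h4 := H.Eq2 hM hC h
  have h5 := H.Eu2 hM h
  have h6 := H.Ewt hM h
  have h7 := H.tinv h
  have n3 : 0 ≤ ∫ V, ∑ x : T d L, wt σ E t x V * ‖R σ E t V 0 x‖ ^ 2 ∂(Γ (T d L)) :=
    integral_nonneg fun V => Finset.sum_nonneg fun x _ =>
      mul_nonneg (wt_nonneg x V) (by positivity)
  have e1 : ξ ^ 199 * ξ ^ 25 = ξ ^ 224 := by rw [← pow_add]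
  have e2 : ξ ^ 1000 * ((ξ ^ 8)⁻¹) ^ 2 = ξ ^ 984 := by
    rw [inv_pow, ← pow_mul, pw hξ (c := 984) (by norm_num)]
  have e3 : (ξ ^ 202)⁻¹ * ξ ^ 736 = ξ ^ 534 := by
    rw [mul_comm]
    exact pw hξ (c := 534) (by norm_num)
  have f2 : ξ ^ 984 ≤ ξ ^ 224 := pow_le_pow_of_le_one hξ.le H.x1 (by norm_num)
  have f3 : ξ ^ 534 ≤ ξ ^ 224 := pow_le_pow_of_le_one hξ.le H.x1 (by norm_num)
  have g1 : ξ ^ 199 * ∫ V, qu σ E (ξ ^ 100) t V ^ 2 ∂(Γ (T d L)) ≤ ξ ^ 199 * ξ ^ 25 :=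
    mul_le_mul_of_nonneg_left h4 (by positivity)
  have g2 : ξ ^ 1000 * ∫ V, uu σ E t V ^ 2 ∂(Γ (T d L)) ≤ ξ ^ 1000 * (4 * ((ξ ^ 8)⁻¹) ^ 2) :=
    mul_le_mul_of_nonneg_left h5 (by positivity)
  have g3 : (t ^ 2)⁻¹ * ∫ V, ∑ x : T d L, wt σ E t x V * ‖R σ E t V 0 x‖ ^ 2 ∂(Γ (T d L)) ≤
      (ξ ^ 202)⁻¹ * (4 * ξ ^ 736) := mul_le_mul h7 h6 n3 (by positivity)
  calc _ ≤ ξ ^ 199 * ξ ^ 25 + ξ ^ 1000 * (4 * ((ξ ^ 8)⁻¹) ^ 2) +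
        (ξ ^ 202)⁻¹ * (4 * ξ ^ 736) := add_le_add (add_le_add g1 g2) g3
    _ = ξ ^ 199 * ξ ^ 25 + 4 * (ξ ^ 1000 * ((ξ ^ 8)⁻¹) ^ 2) +
        4 * ((ξ ^ 202)⁻¹ * ξ ^ 736) := by ring
    _ = ξ ^ 224 + 4 * ξ ^ 984 + 4 * ξ ^ 534 := by rw [e1, e2, e3]
    _ ≤ _ := by linarith

end

end Run7.h108.GL.HD
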