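import Pool.Agent.Run7.h442.HD.Vc

/-! The Efron-Stein sums, high dimension. -/

set_option autoImplicit false
set_option linter.unusedSectionVars false

open scoped BigOperators Matrix
open MeasureTheory

namespace Run7.h108.GL.HD

open Pool.Agent.Run7.h47 hiding Hyp good
open Pool.Agent.W788.MFP.Four Pool.Agent.W788.BK
open Pool.Agent.W788.MFP.Form
open Run7.h442.HD

variable {d L : ℕ} [NeZero L] [Law]

theorem three_sq (a b c : ℝ) : (a + b + c) ^ 2 ≤ 3 * (a ^ 2 + b ^ 2 + c ^ 2) := by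
  nlinarith [sq_nonneg (a - b), sq_nonneg (a - c), sq_nonneg (b - c)]

/-- one term of the Efron-Stein sum, `F` -/
theorem dF0 {σ E t : ℝ} (ht : 0 < t) (V : T d L → ℝ) (x : T d L) (hV : |V x| ≤ Law.b)
    (p : T d L) :
    ‖Fm σ E t p V 0 0 - Fm σ E t p (Function.update V x 0) 0 0‖ ^ 2 ≤
      3 * (σ ^ 2 * Law.b ^ 2) * (‖ww σ E t x V‖ ^ 2 * (‖R σ E t V 0 x‖ ^ 2 *
          ‖Fm σ E t p V x 0‖ ^ 2) +
        ‖ww σ E t x V‖ ^ 2 * (‖R σ E t V 0 x‖ ^ 2 * ‖Fm σ E t p V 0 x‖ ^ 2) +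
        σ ^ 2 * Law.b ^ 2 * (t ^ 2)⁻¹ * ((‖ww σ E t x V‖ ^ 2 * ‖a0 σ E t x V‖ ^ 2) *
          (‖R σ E t V 0 x‖ ^ 2 * ‖R σ E t V 0 x‖ ^ 2))) := by
  have hb := (Law.hb (self := ‹Law›)).le
  have h0 : ‖(σ : ℂ) * V x * ww σ E t x V * (R σ E t V 0 x * Fm σ E t p V x x)‖ ≤
      |σ| * |V x| * ‖a0 σ E t x V‖ * t⁻¹ * ‖R σ E t V 0 x‖ := by
    have h1 : ‖(σ : ℂ) * V x * ww σ E t x V * (R σ E t V 0 x * Fm σ E t p V x x)‖ =
        |σ| * |V x| * ‖ww σ E t x V‖ * ‖Fm σ E t p V x x‖ * ‖R σ E t V 0 x‖ := by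
      rw [norm_mul, norm_mul ((σ : ℂ) * V x), norm_mul (R σ E t V 0 x), norm_mul (σ : ℂ),
        Complex.norm_real, Complex.norm_real, Real.norm_eq_abs, Real.norm_eq_abs]
      ring
    rw [h1]
    refine mul_le_mul_of_nonneg_right ?_ (norm_nonneg _)
    have h2 : ‖Fm σ E t p V x x‖ ≤ ‖R σ E t V x x‖ * t⁻¹ := by
      refine (F_diag_le ht p V x).trans ?_
      rw [div_eq_mul_inv]
      refine mul_le_mul_of_nonneg_right ?_ (by positivity)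
      exact (le_abs_self _).trans (Complex.abs_im_le_norm _)
    calc |σ| * |V x| * ‖ww σ E t x V‖ * ‖Fm σ E t p V x x‖ ≤
        |σ| * |V x| * ‖ww σ E t x V‖ * (‖R σ E t V x x‖ * t⁻¹) := by gcongr
      _ = |σ| * |V x| * ‖a0 σ E t x V‖ * t⁻¹ := by
          rw [a0_eq ht, norm_mul (ww σ E t x V)]
          ring
  rw [f4 ht p V x]
  obtain ⟨r, hr⟩ : ∃ r, r = ‖R σ E t V 0 x‖ := ⟨_, rfl⟩
  obtain ⟨f, hf⟩ : ∃ f, f = ‖Fm σ E t p V x 0‖ := ⟨_, rfl⟩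
  obtain ⟨g, hg⟩ : ∃ g, g = ‖Fm σ E t p V 0 x‖ := ⟨_, rfl⟩
  obtain ⟨w, hw⟩ : ∃ w, w = ‖ww σ E t x V‖ := ⟨_, rfl⟩
  obtain ⟨A, hA⟩ : ∃ A, A = ‖a0 σ E t x V‖ := ⟨_, rfl⟩
  obtain ⟨v, hv⟩ : ∃ v, v = |V x| := ⟨_, rfl⟩
  obtain ⟨s, hs⟩ : ∃ s, s = |σ| := ⟨_, rfl⟩
  rw [← hr, ← hA, ← hv, ← hs] at h0
  have hr0 : 0 ≤ r := by rw [hr]; exact norm_nonneg _
  have hf0 : 0 ≤ f := by rw [hf]; exact norm_nonneg _
  have hg0 : 0 ≤ g := by rw [hg]; exact norm_nonneg _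
  have hw0 : 0 ≤ w := by rw [hw]; exact norm_nonneg _
  have hA0 : 0 ≤ A := by rw [hA]; exact norm_nonneg _
  have hv0 : 0 ≤ v := by rw [hv]; exact abs_nonneg _
  have hs0 : 0 ≤ s := by rw [hs]; exact abs_nonneg _
  have hvb : v ≤ Law.b := by rw [hv]; exact hV
  have ht0 : 0 ≤ t⁻¹ := by positivity
  have h1 : ‖-(σ * V x * (ww σ E t x V * (R σ E t V 0 x * Fm σ E t p V x 0))) -
      σ * V x * ((starRingEnd ℂ) (ww σ E t x V) * ((starRingEnd ℂ) (R σ E t V 0 x) *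
        (Fm σ E t p V 0 x +
        σ * V x * ww σ E t x V * (R σ E t V 0 x * Fm σ E t p V x x))))‖ ≤
      s * v * w * r * f + s * v * w * r * g + s * v * w * r * (s * v * A * t⁻¹ * r) := by
    refine (norm_sub_le _ _).trans ?_
    have e1 : ‖-(σ * V x * (ww σ E t x V * (R σ E t V 0 x * Fm σ E t p V x 0)))‖ =
        s * v * w * r * f := by
      rw [norm_neg, norm_mul, norm_mul, norm_mul, norm_mul, Complex.norm_real,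
        Complex.norm_real, Real.norm_eq_abs, Real.norm_eq_abs, ← hs, ← hv, ← hw, ← hr, ← hf]
      ring
    have h2 : ‖Fm σ E t p V 0 x + σ * V x * ww σ E t x V *
        (R σ E t V 0 x * Fm σ E t p V x x)‖ ≤ g + s * v * A * t⁻¹ * r :=
      (norm_add_le _ _).trans (add_le_add hg.ge h0)
    have e2 : ‖(σ : ℂ) * V x * ((starRingEnd ℂ) (ww σ E t x V) *
        ((starRingEnd ℂ) (R σ E t V 0 x) * (Fm σ E t p V 0 x +
        σ * V x * ww σ E t x V * (R σ E t V 0 x * Fm σ E t p V x x))))‖ ≤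
        s * v * w * r * (g + s * v * A * t⁻¹ * r) := by
      rw [norm_mul, norm_mul, norm_mul, norm_mul, Complex.norm_real,
        Complex.norm_real, Real.norm_eq_abs, Real.norm_eq_abs, RCLike.norm_conj,
        RCLike.norm_conj, ← hs, ← hv, ← hw, ← hr]
      calc s * v * (w * (r * ‖Fm σ E t p V 0 x + σ * V x * ww σ E t x V *
          (R σ E t V 0 x * Fm σ E t p V x x)‖)) =
          s * v * w * r * ‖Fm σ E t p V 0 x + σ * V x * ww σ E t x V *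
          (R σ E t V 0 x * Fm σ E t p V x x)‖ := by ring
        _ ≤ _ := mul_le_mul_of_nonneg_left h2 (by positivity)
    rw [e1]
    refine (add_le_add le_rfl e2).trans (le_of_eq ?_)
    ring
  refine (pow_le_pow_left₀ (norm_nonneg _) h1 2).trans ?_
  refine (three_sq _ _ _).trans ?_
  have hs2 : σ ^ 2 = s ^ 2 := by rw [hs, sq_abs]
  rw [hs2, ← inv_pow, ← hr, ← hf, ← hg, ← hw, ← hA]
  have hv2 : v ^ 2 ≤ Law.b ^ 2 := by gcongr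
  have k1 : (s * v * w * r * f) ^ 2 ≤ s ^ 2 * Law.b ^ 2 * (w ^ 2 * (r ^ 2 * f ^ 2)) := by
    calc (s * v * w * r * f) ^ 2 = s ^ 2 * v ^ 2 * (w ^ 2 * (r ^ 2 * f ^ 2)) := by ring
      _ ≤ _ := by gcongr
  have k2 : (s * v * w * r * g) ^ 2 ≤ s ^ 2 * Law.b ^ 2 * (w ^ 2 * (r ^ 2 * g ^ 2)) := by
    calc (s * v * w * r * g) ^ 2 = s ^ 2 * v ^ 2 * (w ^ 2 * (r ^ 2 * g ^ 2)) := by ring
      _ ≤ _ := by gcongr
  have k3 : (s * v * w * r * (s * v * A * t⁻¹ * r)) ^ 2 ≤ s ^ 2 * Law.b ^ 2 *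
      (s ^ 2 * Law.b ^ 2 * t⁻¹ ^ 2 * ((w ^ 2 * A ^ 2) * (r ^ 2 * r ^ 2))) := by
    calc (s * v * w * r * (s * v * A * t⁻¹ * r)) ^ 2 = s ^ 2 * v ^ 2 *
        (s ^ 2 * v ^ 2 * t⁻¹ ^ 2 * ((w ^ 2 * A ^ 2) * (r ^ 2 * r ^ 2))) := by ring
      _ ≤ _ := by gcongr
  linarith

section
variable {K σ E ξ t : ℝ}

theorem pw_aux {a : ℝ} (_ha : 0 ≤ a) : a ^ 2 ≤ 1 + a ^ 8 ∧ a ^ 4 ≤ 1 + a ^ 8 := by
  constructor
  · nlinarith [sq_nonneg (a ^ 4 - 1), sq_nonneg (a ^ 2 - 1)]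
  · nlinarith [sq_nonneg (a ^ 4 - 1)]

/-- the weights -/
theorem Dx.ww_wt (H : Dx d L K σ E ξ) {V : T d L → ℝ} (hV : ∀ x, |V x| ≤ Law.b) (x : T d L) :
    ‖ww σ E t x V‖ ^ 2 ≤ 4 * K ^ 4 * (1 + wt σ E t x V) ∧
    ‖ww σ E t x V‖ ^ 2 * ‖a0 σ E t x V‖ ^ 2 ≤ 4 * K ^ 4 * (1 + wt σ E t x V) := by
  have hK := H.K0
  have hK4 : (1 : ℝ) ≤ K ^ 4 := one_le_pow₀ H.hK
  obtain ⟨A, hA⟩ : ∃ A, A = ‖a0 σ E t x V‖ := ⟨_, rfl⟩
  have hA0 : 0 ≤ A := by rw [hA]; exact norm_nonneg _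
  have h1 : ‖ww σ E t x V‖ ≤ 1 + K * K * A := by
    unfold ww
    refine (norm_add_le _ _).trans ?_
    rw [norm_one, norm_mul, norm_mul, Complex.norm_real, Complex.norm_real, Real.norm_eq_abs,
      Real.norm_eq_abs, ← hA]
    have := H.hσK
    have := (hV x).trans H.hbK
    gcongr
  have h2 : ‖ww σ E t x V‖ ^ 2 ≤ 2 * K ^ 4 * (1 + A ^ 2) := by
    calc ‖ww σ E t x V‖ ^ 2 ≤ (1 + K * K * A) ^ 2 := pow_le_pow_left₀ (norm_nonneg _) h1 2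
      _ ≤ 2 * (1 + K ^ 4 * A ^ 2) := by nlinarith [sq_nonneg (1 - K * K * A)]
      _ ≤ _ := by nlinarith
  have h3 := pw_aux hA0
  have hwt : wt σ E t x V = A ^ 8 := by rw [hA]; rfl
  rw [hwt, ← hA]
  have hK0 : 0 < K ^ 4 := by positivity
  constructor
  · calc ‖ww σ E t x V‖ ^ 2 ≤ 2 * K ^ 4 * (1 + A ^ 2) := h2
      _ ≤ 2 * K ^ 4 * (2 * (1 + A ^ 8)) := by
          refine mul_le_mul_of_nonneg_left ?_ (by positivity)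
          have : 0 ≤ A ^ 8 := by positivity
          linarith [h3.1]
      _ = _ := by ring
  · calc ‖ww σ E t x V‖ ^ 2 * A ^ 2 ≤ (2 * K ^ 4 * (1 + A ^ 2)) * A ^ 2 := by gcongr
      _ = 2 * K ^ 4 * (A ^ 2 + A ^ 4) := by ring
      _ ≤ 2 * K ^ 4 * (2 * (1 + A ^ 8)) := by
          refine mul_le_mul_of_nonneg_left ?_ (by positivity)
          linarith [h3.1, h3.2]
      _ = _ := by ring

theorem Dx.σ2 (H : Dx d L K σ E ξ) : σ ^ 2 ≤ K ^ 2 := by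
  rw [← sq_abs]
  have := H.hσK
  have := H.K0
  gcongr

theorem Dx.sb2 (H : Dx d L K σ E ξ) : σ ^ 2 * Law.b ^ 2 ≤ K ^ 4 := by
  have hb := (Law.hb (self := ‹Law›)).le
  have h1 := H.σ2
  have h2 : Law.b ^ 2 ≤ K ^ 2 := by
    have := H.hbK
    gcongr
  calc σ ^ 2 * Law.b ^ 2 ≤ K ^ 2 * K ^ 2 := by gcongr
    _ = _ := by ring

/-- the Efron-Stein sum of the diagonal -/
theorem Dx.sumR2 (H : Dx d L K σ E ξ) (ht : 0 < t) {V : T d L → ℝ}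
    (hV : ∀ x, |V x| ≤ Law.b) :
    ∑ y, ‖R σ E t V 0 0 - R σ E t (Function.update V y 0) 0 0‖ ^ 2 ≤
      (4 * K ^ 8) * ∑ x : T d L, (1 + wt σ E t x V) *
        (‖R σ E t V 0 x‖ ^ 2 * ‖R σ E t V 0 x‖ ^ 2) := by
  have hK := H.K0
  have hsb := H.sb2
  rw [Finset.mul_sum]
  refine Finset.sum_le_sum fun y _ => (dR0 ht V y (hV y)).trans ?_
  have h1 := (H.ww_wt (t := t) hV y).1
  have h2 := wt_nonneg (σ := σ) (E := E) (t := t) y V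
  calc (σ ^ 2 * Law.b ^ 2) * ‖ww σ E t y V‖ ^ 2 * (‖R σ E t V 0 y‖ ^ 2 * ‖R σ E t V 0 y‖ ^ 2) ≤
      K ^ 4 * (4 * K ^ 4 * (1 + wt σ E t y V)) *
        (‖R σ E t V 0 y‖ ^ 2 * ‖R σ E t V 0 y‖ ^ 2) := by gcongr
    _ = _ := by ring

theorem Dx.sumF2 (H : Dx d L K σ E ξ) (ht : 0 < t) (p : T d L) {V : T d L → ℝ}
    (hV : ∀ x, |V x| ≤ Law.b) :
    ∑ y, ‖Fm σ E t p V 0 0 - Fm σ E t p (Function.update V y 0) 0 0‖ ^ 2 ≤
      (12 * K ^ 8) * ∑ x : T d L, (1 + wt σ E t x V) *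
        (‖R σ E t V 0 x‖ ^ 2 * ‖Fm σ E t p V x 0‖ ^ 2) +
      (12 * K ^ 8) * ∑ x : T d L, (1 + wt σ E t x V) *
        (‖R σ E t V 0 x‖ ^ 2 * ‖Fm σ E t p V 0 x‖ ^ 2) +
      (12 * K ^ 12 * (t ^ 2)⁻¹) * ∑ x : T d L, (1 + wt σ E t x V) *
        (‖R σ E t V 0 x‖ ^ 2 * ‖R σ E t V 0 x‖ ^ 2) := by
  have hK := H.K0
  have hsb := H.sb2
  rw [Finset.mul_sum, Finset.mul_sum, Finset.mul_sum, ← Finset.sum_add_distrib,
    ← Finset.sum_add_distrib]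
  refine Finset.sum_le_sum fun y _ => (dF0 ht V y (hV y) p).trans ?_
  have h1 := (H.ww_wt (t := t) hV y).1
  have h3 := (H.ww_wt (t := t) hV y).2
  have h2 := wt_nonneg (σ := σ) (E := E) (t := t) y V
  have hsb0 : 0 ≤ σ ^ 2 * Law.b ^ 2 := by positivity
  have ht2 : 0 ≤ (t ^ 2)⁻¹ := by positivity
  obtain ⟨W, hW⟩ : ∃ W, W = 4 * K ^ 4 * (1 + wt σ E t y V) := ⟨_, rfl⟩
  rw [← hW] at h1 h3
  have hW0 : 0 ≤ W := by rw [hW]; positivity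
  calc _ ≤ 3 * K ^ 4 * (W * (‖R σ E t V 0 y‖ ^ 2 * ‖Fm σ E t p V y 0‖ ^ 2) +
        W * (‖R σ E t V 0 y‖ ^ 2 * ‖Fm σ E t p V 0 y‖ ^ 2) +
        K ^ 4 * (t ^ 2)⁻¹ * (W * (‖R σ E t V 0 y‖ ^ 2 * ‖R σ E t V 0 y‖ ^ 2))) := by
        gcongr
    _ = _ := by rw [hW]; ring

theorem Dx.W1_2 (H : Dx d L K σ E ξ) (hM : S_MOM) (hC : S_CC) (h : Tt ξ t) :
    W1 d L σ E t ≤ 36 * K ^ 8 * ξ ^ 224 := by
  have hξ := H.hξ
  have hK := H.K0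
  have ht := H.t0 h
  have bS : BC fun V : T d L → ℝ => ∑ x : T d L, (1 + wt σ E t x V) *
      (‖R σ E t V 0 x‖ ^ 2 * ‖R σ E t V 0 x‖ ^ 2) := BC.sum _ fun x _ =>
    ((BC.const 1).add (wt_BC ht x)).mulR ((R_BC ht 0 x).nsq.mulR (R_BC ht 0 x).nsq)
  have h1 := W1_es (σ := σ) (E := E) ht ((BC.const (4 * K ^ 8)).mulR bS) (fun V hV =>
    H.sumR2 ht hV)
  rw [integral_const_mul] at h1
  have h2 := H.E4 hM hC h
  refine h1.trans ?_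
  calc (4 * K ^ 8) * _ ≤ (4 * K ^ 8) * (9 * ξ ^ 224) := mul_le_mul_of_nonneg_left h2 (by positivity)
    _ = _ := by ring

end

end Run7.h108.GL.HD
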