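import Pool.Agent.Run7.h442.HD.Vd

/-! The variance of `R A R*`, high dimension. -/

set_option autoImplicit false
set_option linter.unusedSectionVars false

open scoped BigOperators Matrix ComplexConjugate
open MeasureTheory

namespace Run7.h108.GL.HD

open Pool.Agent.Run7.h47 hiding Hyp good
open Pool.Agent.W788.MFP.Four Pool.Agent.W788.BK
open Pool.Agent.W788.MFP.Form
open Run7.h442.HD

variable {d L : ℕ} [NeZero L] [Law]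

section
variable {K σ E ξ t : ℝ}

theorem Fcol_BC (ht : 0 < t) (p x : T d L) : BC fun V : T d L → ℝ => Fm σ E t p V x 0 :=
  F_BC ht p x 0

theorem Frow_BC (ht : 0 < t) (p x : T d L) : BC fun V : T d L → ℝ => Fm σ E t p V 0 x :=
  F_BC ht p 0 x

/-- the columns of `F` -/
theorem Dx.Fq (H : Dx d L K σ E ξ) (h : Tt ξ t) (p : T d L) (V : T d L → ℝ) :
    ((∀ x, |V x| ≤ Law.b) → qc (J E (ξ ^ 100)) (fun x => Fm σ E t p V x 0) ≤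
      32 * K ^ 2 * ((t ^ 2)⁻¹ * uu σ E t V)) ∧
    nsq (fun x => Fm σ E t p V x 0) ≤ (t ^ 2)⁻¹ * uu σ E t V := by
  have ht := H.t0 h
  have hn0 : nsq (fun x => (starRingEnd ℂ) (R σ E t V 0 x)) = uu σ E t V := by
    unfold nsq uu
    simp only [RCLike.norm_conj]
    exact R_ward ht V 0
  obtain ⟨g, hg⟩ : ∃ g : T d L → ℂ, g = fun w => e p w * (starRingEnd ℂ) (R σ E t V 0 w) :=
    ⟨_, rfl⟩
  have n1 : nsq g = uu σ E t V := by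
    rw [← hn0]
    unfold nsq
    refine Finset.sum_congr rfl fun w _ => ?_
    rw [hg]
    simp only [norm_mul, norm_e, one_mul]
  have f1 : (fun y => Fm σ E t p V y 0) = R σ E t V *ᵥ g := by
    funext y
    unfold Fm Matrix.mulVec dotProduct
    exact Finset.sum_congr rfl fun w _ => by rw [hg]; ring
  rw [f1, ← n1]
  refine ⟨fun hV => ?_, R_mul_nsq ht V g⟩
  refine (H.D.gen ht (H.tδ h) hV g).trans (le_of_eq ?_)
  ring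

/-- the rows of `F`, up to conjugation -/
theorem Dx.Fq' (H : Dx d L K σ E ξ) (h : Tt ξ t) (p : T d L) (V : T d L → ℝ) :
    ((∀ x, |V x| ≤ Law.b) → qc (J E (ξ ^ 100))
      (fun x => (starRingEnd ℂ) (Fm σ E t p V 0 x)) ≤
      32 * K ^ 2 * ((t ^ 2)⁻¹ * uu σ E t V)) ∧
    nsq (fun x => (starRingEnd ℂ) (Fm σ E t p V 0 x)) ≤ (t ^ 2)⁻¹ * uu σ E t V := by
  have ht := H.t0 h
  have hn0 : nsq (fun x => (starRingEnd ℂ) (R σ E t V 0 x)) = uu σ E t V := by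
    unfold nsq uu
    simp only [RCLike.norm_conj]
    exact R_ward ht V 0
  obtain ⟨g, hg⟩ : ∃ g : T d L → ℂ, g = fun w => (starRingEnd ℂ) (R σ E t V 0 w * e p w) :=
    ⟨_, rfl⟩
  have n1 : nsq g = uu σ E t V := by
    rw [← hn0]
    unfold nsq
    refine Finset.sum_congr rfl fun w _ => ?_
    rw [hg]
    simp only [norm_mul, RCLike.norm_conj, norm_e, mul_one]
  have f1 : (fun y => (starRingEnd ℂ) (Fm σ E t p V 0 y)) = R σ E t V *ᵥ g := by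
    funext y
    unfold Fm Matrix.mulVec dotProduct
    rw [map_sum]
    refine Finset.sum_congr rfl fun w _ => ?_
    rw [hg, map_mul, Complex.conj_conj]
    ring
  rw [f1, ← n1]
  refine ⟨fun hV => ?_, R_mul_nsq ht V g⟩
  refine (H.D.gen ht (H.tδ h) hV g).trans (le_of_eq ?_)
  ring

theorem Dx.EF1 (H : Dx d L K σ E ξ) (hM : S_MOM) (hC : S_CC) (h : Tt ξ t) (p : T d L) :
    ∫ V, ∑ x : T d L, (1 + wt σ E t x V) * (‖R σ E t V 0 x‖ ^ 2 * ‖Fm σ E t p V x 0‖ ^ 2)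
      ∂(Γ (T d L)) ≤ 40 * K ^ 2 * ξ ^ 22 :=
  H.Ebl hM hC h (fun V x => Fm σ E t p V x 0) (fun x => F_BC (H.t0 h) p x 0)
    (fun V => (H.Fq h p V).1) (fun V => (H.Fq h p V).2)

theorem Dx.EF2 (H : Dx d L K σ E ξ) (hM : S_MOM) (hC : S_CC) (h : Tt ξ t) (p : T d L) :
    ∫ V, ∑ x : T d L, (1 + wt σ E t x V) * (‖R σ E t V 0 x‖ ^ 2 * ‖Fm σ E t p V 0 x‖ ^ 2)
      ∂(Γ (T d L)) ≤ 40 * K ^ 2 * ξ ^ 22 := by
  have h1 := H.Ebl hM hC h (fun V x => (starRingEnd ℂ) (Fm σ E t p V 0 x))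
    (fun x => (F_BC (H.t0 h) p 0 x).conj)
    (fun V => (H.Fq' h p V).1) (fun V => (H.Fq' h p V).2)
  simpa only [RCLike.norm_conj] using h1

theorem Dx.W2_2 (H : Dx d L K σ E ξ) (hM : S_MOM) (hC : S_CC) (h : Tt ξ t) (p : T d L) :
    W2 σ E t p ≤ 1068 * K ^ 12 * ξ ^ 22 := by
  have hξ := H.hξ
  have hK := H.K0
  have ht := H.t0 h
  have bw : ∀ x : T d L, BC fun V : T d L → ℝ => 1 + wt σ E t x V := fun x =>
    (BC.const 1).add (wt_BC ht x)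
  have b1 : BC fun V : T d L → ℝ => ∑ x : T d L, (1 + wt σ E t x V) *
      (‖R σ E t V 0 x‖ ^ 2 * ‖Fm σ E t p V x 0‖ ^ 2) := BC.sum _ fun x _ =>
    (bw x).mulR ((R_BC ht 0 x).nsq.mulR (F_BC ht p x 0).nsq)
  have b2 : BC fun V : T d L → ℝ => ∑ x : T d L, (1 + wt σ E t x V) *
      (‖R σ E t V 0 x‖ ^ 2 * ‖Fm σ E t p V 0 x‖ ^ 2) := BC.sum _ fun x _ =>
    (bw x).mulR ((R_BC ht 0 x).nsq.mulR (F_BC ht p 0 x).nsq)
  have b3 : BC fun V : T d L → ℝ => ∑ x : T d L, (1 + wt σ E t x V) *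
      (‖R σ E t V 0 x‖ ^ 2 * ‖R σ E t V 0 x‖ ^ 2) := BC.sum _ fun x _ =>
    (bw x).mulR ((R_BC ht 0 x).nsq.mulR (R_BC ht 0 x).nsq)
  have bb : ∀ y : T d L, BC fun V : T d L → ℝ =>
      ‖Fm σ E t p V 0 0 - Fm σ E t p (Function.update V y 0) 0 0‖ ^ 2 := fun y =>
    ((F_BC ht p 0 0).sub ((F_BC ht p 0 0).upd y)).nsq
  have h1 : W2 σ E t p ≤ ∫ V, ((12 * K ^ 8) * (∑ x : T d L, (1 + wt σ E t x V) *
        (‖R σ E t V 0 x‖ ^ 2 * ‖Fm σ E t p V x 0‖ ^ 2)) +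
      (12 * K ^ 8) * (∑ x : T d L, (1 + wt σ E t x V) *
        (‖R σ E t V 0 x‖ ^ 2 * ‖Fm σ E t p V 0 x‖ ^ 2)) +
      (12 * K ^ 12 * (t ^ 2)⁻¹) * (∑ x : T d L, (1 + wt σ E t x V) *
        (‖R σ E t V 0 x‖ ^ 2 * ‖R σ E t V 0 x‖ ^ 2))) ∂(Γ (T d L)) := by
    refine (es (Pool.Agent.Run7.h47.F_BC (σ := σ) (E := E) ht p (0 : T d L) 0)).trans ?_
    rw [← integral_finsetSum _ fun y _ => (bb y).intR]
    refine integral_mono_ae (BC.sum _ fun y _ => bb y).intR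
      (((b1.intR.const_mul _).add (b2.intR.const_mul _)).add (b3.intR.const_mul _)) ?_
    filter_upwards [ae_cube (κ := T d L)] with V hV
    exact H.sumF2 ht p hV
  rw [int3 _ _ _ b1.intR b2.intR b3.intR] at h1
  have h2 := H.EF1 hM hC h p
  have h3 := H.EF2 hM hC h p
  have h4 := H.E4 hM hC h
  have h5 := H.tinv h
  have ht2 : 0 ≤ (t ^ 2)⁻¹ := by positivity
  have n3 : 0 ≤ ∫ V, ∑ x : T d L, (1 + wt σ E t x V) *
        (‖R σ E t V 0 x‖ ^ 2 * ‖R σ E t V 0 x‖ ^ 2) ∂(Γ (T d L)) :=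
    integral_nonneg fun V => Finset.sum_nonneg fun x _ => by
      have := wt_nonneg (σ := σ) (E := E) (t := t) x V
      positivity
  have g1 := mul_le_mul_of_nonneg_left h2 (show 0 ≤ 12 * K ^ 8 by positivity)
  have g2 := mul_le_mul_of_nonneg_left h3 (show 0 ≤ 12 * K ^ 8 by positivity)
  have g3 : (12 * K ^ 12 * (t ^ 2)⁻¹) * ∫ V, ∑ x : T d L, (1 + wt σ E t x V) *
        (‖R σ E t V 0 x‖ ^ 2 * ‖R σ E t V 0 x‖ ^ 2) ∂(Γ (T d L)) ≤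
      (12 * K ^ 12 * (ξ ^ 202)⁻¹) * (9 * ξ ^ 224) :=
    mul_le_mul (mul_le_mul_of_nonneg_left h5 (by positivity)) h4 n3 (by positivity)
  have e1 : ξ ^ 224 * (ξ ^ 202)⁻¹ = ξ ^ 22 := pw hξ (c := 22) (by norm_num)
  have e2 : (12 * K ^ 12 * (ξ ^ 202)⁻¹) * (9 * ξ ^ 224) = 108 * K ^ 12 * ξ ^ 22 := by
    rw [← e1]
    ring
  have e3 : K ^ 10 * ξ ^ 22 ≤ K ^ 12 * ξ ^ 22 := by
    have : K ^ 10 ≤ K ^ 12 := pow_le_pow_right₀ H.hK (by norm_num)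
    gcongr
  rw [e2] at g3
  have e4 : 12 * K ^ 8 * (40 * K ^ 2 * ξ ^ 22) = 480 * (K ^ 10 * ξ ^ 22) := by ring
  rw [e4] at g1 g2
  calc W2 σ E t p ≤ _ := h1
    _ ≤ 480 * (K ^ 10 * ξ ^ 22) + 480 * (K ^ 10 * ξ ^ 22) + 108 * K ^ 12 * ξ ^ 22 :=
        add_le_add (add_le_add g1 g2) g3
    _ ≤ _ := by linarith

/-- the first coefficient of the third order -/
theorem Dx.rA2 (H : Dx d L K σ E ξ) (h : Tt ξ t) {V : T d L → ℝ} (hV : ∀ x, |V x| ≤ Law.b) :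
    ‖rA σ E t 0 V‖ ^ 2 ≤
      18 * K ^ 6 * (ξ ^ 93) ^ 4 * (yf σ E ξ V ^ 4 + yf σ E ξ V ^ 6) := by
  have hK := H.K0
  have hξ := H.hξ
  have hb := (Law.hb (self := ‹Law›)).le
  obtain ⟨y, hy⟩ : ∃ y, y = yf σ E ξ V := ⟨_, rfl⟩
  obtain ⟨η, hη⟩ : ∃ η, η = ξ ^ 93 := ⟨_, rfl⟩
  have hη0 : 0 < η := by rw [hη]; positivity
  have hη1 : K * K * η ≤ 1 := by
    have h3 := H.sm (c := 1) (by norm_num) (n := 2) (by norm_num)
    have h4 : ξ ^ 93 ≤ ξ := by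
      calc ξ ^ 93 ≤ ξ ^ 1 := pow_le_pow_of_le_one hξ.le H.x1 (by norm_num)
        _ = ξ := pow_one _
    rw [hη]
    calc K * K * ξ ^ 93 ≤ K * K * ξ := by gcongr
      _ = 1 * K ^ 2 * ξ := by ring
      _ ≤ 1 := h3
  have hr := H.aR h hV
  have ha := H.aA h hV
  have hy0 := H.y_nonneg V
  rw [← hy, ← hη] at hr ha
  rw [← hy] at hy0 ⊢
  rw [← hη]
  obtain ⟨A, hA⟩ : ∃ A, A = ‖a0 σ E t 0 V‖ := ⟨_, rfl⟩
  obtain ⟨r, hr'⟩ : ∃ r, r = ‖R σ E t V (0 : T d L) 0‖ := ⟨_, rfl⟩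
  obtain ⟨v, hv⟩ : ∃ v, v = |V 0| := ⟨_, rfl⟩
  have hA0 : 0 ≤ A := by rw [hA]; exact norm_nonneg _
  have hr0 : 0 ≤ r := by rw [hr']; exact norm_nonneg _
  have hv0 : 0 ≤ v := by rw [hv]; exact abs_nonneg _
  have hvK : v ≤ K := by rw [hv]; exact (hV 0).trans H.hbK
  have h1 : ‖rA σ E t 0 V‖ ≤ v ^ 3 * A ^ 2 + r * (2 * v * A + |σ| * v ^ 2 * A ^ 2) := by
    unfold rA
    refine (norm_sub_le _ _).trans (add_le_add (le_of_eq ?_) ?_)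
    · rw [norm_mul, norm_pow, norm_pow, Complex.norm_real, Real.norm_eq_abs, ← hv, ← hA]
    · rw [norm_mul, ← hr']
      refine mul_le_mul_of_nonneg_left ((norm_add_le _ _).trans (add_le_add (le_of_eq ?_)
        (le_of_eq ?_))) hr0
      · rw [norm_mul, norm_mul, Complex.norm_real, Real.norm_eq_abs, ← hv, ← hA]
        norm_num
      · rw [norm_mul, norm_mul, norm_pow, norm_pow, Complex.norm_real, Complex.norm_real,
          Real.norm_eq_abs, Real.norm_eq_abs, ← hv, ← hA]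
  rw [← hA] at ha
  rw [← hr'] at hr
  have h2 : ‖rA σ E t 0 V‖ ≤ K ^ 3 * η ^ 2 * (3 * y ^ 2 + y ^ 3) := by
    have hσ := H.hσK
    calc _ ≤ v ^ 3 * A ^ 2 + r * (2 * v * A + |σ| * v ^ 2 * A ^ 2) := h1
      _ ≤ K ^ 3 * (η * y) ^ 2 + (η * y) * (2 * K * (η * y) + K * K ^ 2 * (η * y) ^ 2) := by
          gcongr
      _ = K ^ 3 * η ^ 2 * y ^ 2 + 2 * (K * (η ^ 2 * y ^ 2)) +
          (K * K * η) * (K * (η ^ 2 * y ^ 3)) := by ring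
      _ ≤ K ^ 3 * η ^ 2 * y ^ 2 + 2 * (K ^ 3 * (η ^ 2 * y ^ 2)) +
          1 * (K ^ 3 * (η ^ 2 * y ^ 3)) := by
          have hK3 : K ≤ K ^ 3 := by nlinarith [mul_nonneg (sub_nonneg.2 H.hK) (sub_nonneg.2 H.hK), H.hK]
          gcongr
      _ = _ := by ring
  have h3 : (3 * y ^ 2 + y ^ 3) ^ 2 ≤ 18 * (y ^ 4 + y ^ 6) := by
    nlinarith [sq_nonneg (3 * y ^ 2 - y ^ 3), sq_nonneg (y ^ 3)]
  calc ‖rA σ E t 0 V‖ ^ 2 ≤ (K ^ 3 * η ^ 2 * (3 * y ^ 2 + y ^ 3)) ^ 2 :=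
        pow_le_pow_left₀ (norm_nonneg _) h2 2
    _ = K ^ 6 * η ^ 4 * (3 * y ^ 2 + y ^ 3) ^ 2 := by ring
    _ ≤ K ^ 6 * η ^ 4 * (18 * (y ^ 4 + y ^ 6)) := mul_le_mul_of_nonneg_left h3 (by positivity)
    _ = _ := by ring

theorem p6 {y : ℝ} (hy : 0 ≤ y) : (1 + y) ^ 6 ≤ 32 * (1 + y ^ 6) := by
  have h1 : (1 + y) ^ 2 ≤ 2 * (1 + y ^ 2) := by nlinarith [sq_nonneg (1 - y)]
  have h2 : (1 + y ^ 2) ^ 3 ≤ 4 * (1 + (y ^ 2) ^ 3) := by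
    have hz : 0 ≤ y ^ 2 := by positivity
    nlinarith [mul_nonneg hz (sq_nonneg (y ^ 2 - 1)), sq_nonneg (y ^ 2 - 1)]
  calc (1 + y) ^ 6 = ((1 + y) ^ 2) ^ 3 := by ring
    _ ≤ (2 * (1 + y ^ 2)) ^ 3 := by gcongr
    _ = 8 * (1 + y ^ 2) ^ 3 := by ring
    _ ≤ 8 * (4 * (1 + (y ^ 2) ^ 3)) := by gcongr
    _ = _ := by ring

/-- the second coefficient of the third order -/
theorem Dx.rB2 (H : Dx d L K σ E ξ) (h : Tt ξ t) {V : T d L → ℝ} (hV : ∀ x, |V x| ≤ Law.b) :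
    ‖rB σ E t 0 V‖ ≤ 10 * K ^ 5 * ξ ^ 93 * (yf σ E ξ V * (1 + yf σ E ξ V) ^ 3) := by
  have hK := H.K0
  have hξ := H.hξ
  have hb := (Law.hb (self := ‹Law›)).le
  have hw := H.aW h hV
  obtain ⟨y, hy⟩ : ∃ y, y = yf σ E ξ V := ⟨_, rfl⟩
  obtain ⟨η, hη⟩ : ∃ η, η = ξ ^ 93 := ⟨_, rfl⟩
  have hη0 : 0 < η := by rw [hη]; positivity
  have hη1 : η ≤ 1 := by rw [hη]; exact pow_le_one₀ hξ.le H.x1
  have hr := H.aR h hV
  have ha := H.aA h hV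
  have hy0 := H.y_nonneg V
  rw [← hy, ← hη] at hr ha
  rw [← hy] at hy0 hw ⊢
  rw [← hη]
  obtain ⟨A, hA⟩ : ∃ A, A = ‖a0 σ E t 0 V‖ := ⟨_, rfl⟩
  obtain ⟨r, hr'⟩ : ∃ r, r = ‖R σ E t V (0 : T d L) 0‖ := ⟨_, rfl⟩
  obtain ⟨w, hw'⟩ : ∃ w, w = ‖ww σ E t 0 V‖ := ⟨_, rfl⟩
  obtain ⟨v, hv⟩ : ∃ v, v = |V 0| := ⟨_, rfl⟩
  have hA0 : 0 ≤ A := by rw [hA]; exact norm_nonneg _
  have hr0 : 0 ≤ r := by rw [hr']; exact norm_nonneg _
  have hw0 : 0 ≤ w := by rw [hw']; exact norm_nonneg _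
  have hv0 : 0 ≤ v := by rw [hv]; exact abs_nonneg _
  have hvK : v ≤ K := by rw [hv]; exact (hV 0).trans H.hbK
  have nv : ‖((V 0 : ℝ) : ℂ)‖ = v := by rw [Complex.norm_real, Real.norm_eq_abs, hv]
  have ns : ‖((σ : ℝ) : ℂ)‖ = |σ| := by rw [Complex.norm_real, Real.norm_eq_abs]
  rw [← hA] at ha
  rw [← hr'] at hr
  rw [← hw'] at hw
  obtain ⟨a, haa⟩ : ∃ a, a = a0 σ E t 0 V := ⟨_, rfl⟩
  obtain ⟨ω, hωω⟩ : ∃ ω, ω = ww σ E t 0 V := ⟨_, rfl⟩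
  have na : ‖a‖ = A := by rw [haa, hA]
  have nω : ‖ω‖ = w := by rw [hωω, hw']
  have t1 : ‖((V 0 : ℝ) : ℂ) ^ 3 * (ω * conj ω) * (a + conj a)‖ ≤ v ^ 3 * (w * w) * (2 * A) := by
    rw [norm_mul, norm_mul, norm_mul, norm_pow, nv, RCLike.norm_conj, nω]
    refine mul_le_mul_of_nonneg_left ?_ (by positivity)
    refine (norm_add_le _ _).trans ?_
    rw [RCLike.norm_conj, na]
    linarith
  have t2 : ‖((V 0 : ℝ) : ℂ) * R σ E t V 0 0 * ω * (ω * conj ω)‖ ≤ v * r * w * (w * w) := by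
    rw [norm_mul, norm_mul, norm_mul, norm_mul, nv, RCLike.norm_conj, nω, ← hr']
  have t3 : ‖((V 0 : ℝ) : ℂ) * (2 * conj a + a)‖ ≤ v * (3 * A) := by
    rw [norm_mul, nv]
    refine mul_le_mul_of_nonneg_left ?_ hv0
    refine (norm_add_le _ _).trans ?_
    rw [norm_mul, RCLike.norm_conj, na, Complex.norm_ofNat]
    linarith
  have t4 : ‖(σ : ℂ) * ((V 0 : ℝ) : ℂ) ^ 2 * (conj a ^ 2 + 2 * (a * conj a))‖ ≤
      |σ| * v ^ 2 * (3 * A ^ 2) := by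
    rw [norm_mul, norm_mul, norm_pow, nv, ns]
    refine mul_le_mul_of_nonneg_left ?_ (by positivity)
    refine (norm_add_le _ _).trans ?_
    rw [norm_mul, norm_mul, norm_pow, RCLike.norm_conj, na, Complex.norm_ofNat]
    nlinarith
  have t5 : ‖(σ : ℂ) ^ 2 * ((V 0 : ℝ) : ℂ) ^ 3 * (a * conj a ^ 2)‖ ≤
      |σ| ^ 2 * v ^ 3 * (A * A ^ 2) := by
    rw [norm_mul, norm_mul, norm_mul, norm_pow, norm_pow, norm_pow, nv, ns, RCLike.norm_conj, na]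
  have h1 : ‖rB σ E t 0 V‖ ≤ v ^ 3 * (w * w) * (2 * A) + (v * r * w * (w * w) + v * (3 * A) +
      |σ| * v ^ 2 * (3 * A ^ 2) + |σ| ^ 2 * v ^ 3 * (A * A ^ 2)) := by
    unfold rB
    rw [← haa, ← hωω]
    exact (norm_sub_le _ _).trans (add_le_add t1 ((norm_add_le _ _).trans (add_le_add
      ((norm_add_le _ _).trans (add_le_add ((norm_add_le _ _).trans (add_le_add t2 t3)) t4)) t5)))
  have hσ := H.hσK
  have hηy : 0 ≤ η * y := by positivity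
  have k1 : (1 : ℝ) ≤ (1 + y) := by linarith
  have hK1 := H.hK
  have c1 : K ^ 3 * ((1 + y) * (1 + y)) * (2 * (η * y)) ≤
      2 * (K ^ 5 * (η * y) * (1 + y) ^ 3) := by
    have e1 : K ^ 3 ≤ K ^ 5 := pow_le_pow_right₀ hK1 (by norm_num)
    have e2 : (1 + y) ^ 2 ≤ (1 + y) ^ 3 := pow_le_pow_right₀ k1 (by norm_num)
    calc K ^ 3 * ((1 + y) * (1 + y)) * (2 * (η * y)) = 2 * (K ^ 3 * (η * y) * (1 + y) ^ 2) := by
          ring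
      _ ≤ _ := by gcongr
  have c2 : K * (η * y) * (1 + y) * ((1 + y) * (1 + y)) ≤ K ^ 5 * (η * y) * (1 + y) ^ 3 := by
    have e1 : K ^ 1 ≤ K ^ 5 := pow_le_pow_right₀ hK1 (by norm_num)
    calc K * (η * y) * (1 + y) * ((1 + y) * (1 + y)) = K ^ 1 * (η * y) * (1 + y) ^ 3 := by ring
      _ ≤ _ := by gcongr
  have c3 : K * (3 * (η * y)) ≤ 3 * (K ^ 5 * (η * y) * (1 + y) ^ 3) := by
    have e1 : K ^ 1 ≤ K ^ 5 := pow_le_pow_right₀ hK1 (by norm_num)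
    have e2 : (1 + y) ^ 0 ≤ (1 + y) ^ 3 := pow_le_pow_right₀ k1 (by norm_num)
    calc K * (3 * (η * y)) = 3 * (K ^ 1 * (η * y) * (1 + y) ^ 0) := by ring
      _ ≤ _ := by gcongr
  have c4 : K * K ^ 2 * (3 * (η * y) ^ 2) ≤ 3 * (K ^ 5 * (η * y) * (1 + y) ^ 3) := by
    have e1 : K ^ 3 ≤ K ^ 5 := pow_le_pow_right₀ hK1 (by norm_num)
    have e2 : η * y ≤ (1 + y) ^ 3 := by
      calc η * y ≤ 1 * y := by gcongr
        _ ≤ (1 + y) ^ 1 := by linarith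
        _ ≤ (1 + y) ^ 3 := pow_le_pow_right₀ k1 (by norm_num)
    calc K * K ^ 2 * (3 * (η * y) ^ 2) = 3 * (K ^ 3 * (η * y) * (η * y)) := by ring
      _ ≤ _ := by gcongr
  have c5 : K ^ 2 * K ^ 3 * ((η * y) * (η * y) ^ 2) ≤ K ^ 5 * (η * y) * (1 + y) ^ 3 := by
    have e2 : (η * y) ^ 2 ≤ (1 + y) ^ 3 := by
      calc (η * y) ^ 2 ≤ (1 * (1 + y)) ^ 2 := by
            gcongr
            linarith
        _ = (1 + y) ^ 2 := by ring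
        _ ≤ (1 + y) ^ 3 := pow_le_pow_right₀ k1 (by norm_num)
    calc K ^ 2 * K ^ 3 * ((η * y) * (η * y) ^ 2) = K ^ 5 * (η * y) * (η * y) ^ 2 := by ring
      _ ≤ _ := by gcongr
  calc _ ≤ _ := h1
    _ ≤ K ^ 3 * ((1 + y) * (1 + y)) * (2 * (η * y)) +
        (K * (η * y) * (1 + y) * ((1 + y) * (1 + y)) + K * (3 * (η * y)) +
        K * K ^ 2 * (3 * (η * y) ^ 2) + K ^ 2 * K ^ 3 * ((η * y) * (η * y) ^ 2)) := by gcongr
    _ ≤ 10 * (K ^ 5 * (η * y) * (1 + y) ^ 3) := by linarith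
    _ = _ := by ring

end

end Run7.h108.GL.HD
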