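import Pool.Agent.Run7.h442.HD.Ve

/-! The estimates on the torus, high dimension. -/

set_option autoImplicit false
set_option linter.unusedSectionVars false

open scoped BigOperators Matrix ComplexConjugate
open MeasureTheory

namespace Run7.h108.GL.HD

open Pool.Agent.Run7.h47 hiding Hyp good
open Pool.Agent.W788.MFP.Four Pool.Agent.W788.BK
open Pool.Agent.W788.MFP.Form
open Run7.h442.HD

variable {d L : ℕ} [NeZero L] [Law]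

theorem sqq (a b : ℂ) (s : ℝ) : ‖a - s * b‖ ^ 2 ≤ 2 * ‖a‖ ^ 2 + 2 * s ^ 2 * ‖b‖ ^ 2 := by
  have h1 : ‖a - s * b‖ ≤ ‖a‖ + |s| * ‖b‖ := by
    refine (norm_sub_le _ _).trans (le_of_eq ?_)
    rw [norm_mul, Complex.norm_real, Real.norm_eq_abs]
  refine (pow_le_pow_left₀ (norm_nonneg _) h1 2).trans ?_
  rw [← sq_abs s]
  nlinarith [sq_nonneg (‖a‖ - |s| * ‖b‖)]

section
variable {K σ E ξ t : ℝ}

theorem Dx.one8 (H : Dx d L K σ E ξ) (n : ℕ) : (1 : ℝ) ≤ K ^ n := one_le_pow₀ H.hK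

/-- **the first variance** -/
theorem Dx.V1f (H : Dx d L K σ E ξ) (hM : S_MOM) (hC : S_CC) (h : Tt ξ t) :
    V1 d L σ E t ≤ ξ ^ 223 := by
  have hξ := H.hξ
  have hK := H.K0
  have ht := H.t0 h
  have h1 := H.iy ((rA_BC ht (0 : T d L)).nsq) (c := 18 * K ^ 6 * (ξ ^ 93) ^ 4) hM
    (by positivity) (n := 4) (m := 6) (by norm_num) (by norm_num) (fun V hV => H.rA2 h hV)
  have h2 := V1_le ht h1
  have h3 := H.W1_2 hM hC h
  have h4 := H.σ2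
  have e1 : (ξ ^ 93) ^ 4 = ξ ^ 372 := by rw [← pow_mul]
  have e2 : ξ ^ 372 ≤ ξ ^ 224 := pow_le_pow_of_le_one hξ.le H.x1 (by norm_num)
  have e3 := H.sm (c := 216) (by norm_num) (n := 8) (by norm_num)
  have e4 : ξ ^ 224 = ξ * ξ ^ 223 := by rw [← pow_succ']
  calc V1 d L σ E t ≤ 2 * W1 d L σ E t + 2 * σ ^ 2 * (4 * (18 * K ^ 6 * (ξ ^ 93) ^ 4)) := h2
    _ ≤ 2 * (36 * K ^ 8 * ξ ^ 224) + 2 * K ^ 2 * (4 * (18 * K ^ 6 * ξ ^ 224)) := by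
        rw [e1]
        gcongr
    _ = (216 * K ^ 8) * ξ ^ 224 := by ring
    _ = (216 * K ^ 8 * ξ) * ξ ^ 223 := by rw [e4]; ring
    _ ≤ 1 * ξ ^ 223 := by gcongr
    _ = _ := one_mul _

/-- **the second variance** -/
theorem Dx.V2f (H : Dx d L K σ E ξ) (hM : S_MOM) (hC : S_CC) (h : Tt ξ t) (p : T d L) :
    V2 σ E t p ≤ ξ ^ 21 := by
  have hξ := H.hξ
  have hK := H.K0
  have ht := H.t0 h
  have b0 := (rB_BC (σ := σ) (E := E) ht (0 : T d L)).mul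
    (F_BC (σ := σ) (E := E) ht p (0 : T d L) 0)
  have h1 := H.iy (b0.nsq) (c := 3200 * K ^ 10 * ((ξ ^ 93) ^ 2 * ((ξ ^ 8)⁻¹) ^ 2)) hM
    (by positivity) (n := 4) (m := 10) (by norm_num) (by norm_num) (fun V hV => by
      have h2 := H.rB2 h hV
      have h3 := H.aU h hV
      have h4 : ‖Fm σ E t p V 0 0‖ ≤ (ξ ^ 8)⁻¹ * yf σ E ξ V :=
        (F_diag_le (σ := σ) (E := E) ht p V 0).trans h3
      have hy0 := H.y_nonneg V
      obtain ⟨y, hy⟩ : ∃ y, y = yf σ E ξ V := ⟨_, rfl⟩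
      rw [← hy] at h2 h4 hy0 ⊢
      rw [norm_mul]
      calc (‖rB σ E t 0 V‖ * ‖Fm σ E t p V 0 0‖) ^ 2 ≤
          ((10 * K ^ 5 * ξ ^ 93 * (y * (1 + y) ^ 3)) * ((ξ ^ 8)⁻¹ * y)) ^ 2 := by gcongr
        _ = 100 * K ^ 10 * ((ξ ^ 93) ^ 2 * ((ξ ^ 8)⁻¹) ^ 2) * (y ^ 4 * (1 + y) ^ 6) := by ring
        _ ≤ 100 * K ^ 10 * ((ξ ^ 93) ^ 2 * ((ξ ^ 8)⁻¹) ^ 2) * (y ^ 4 * (32 * (1 + y ^ 6))) := by
            have := p6 hy0
            gcongr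
        _ = _ := by ring)
  have b1 := ((F_BC (σ := σ) (E := E) ht p (0 : T d L) 0).sub (BC.const (ff σ E t p))).nsq
  have h5 : V2m σ E t p ≤ 2 * W2 σ E t p +
      2 * σ ^ 2 * ∫ V, ‖rB σ E t (0 : T d L) V * Fm σ E t p V 0 0‖ ^ 2 ∂(Γ (T d L)) := by
    unfold V2m W2
    rw [← integral_const_mul, ← integral_const_mul, ← integral_add (b1.intR.const_mul _)
      (b0.nsq.intR.const_mul _)]
    refine integral_mono (D2_BC ht p 0 _).nsq.intR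
      ((b1.intR.const_mul _).add (b0.nsq.intR.const_mul _)) fun V => ?_
    exact sqq _ _ _
  have h6 := H.W2_2 hM hC h p
  have h7 := H.σ2
  have e1 : (ξ ^ 93) ^ 2 * ((ξ ^ 8)⁻¹) ^ 2 = ξ ^ 170 := by
    rw [inv_pow, ← pow_mul, ← pow_mul]
    exact pw hξ (c := 170) (by norm_num)
  rw [e1] at h1
  have e2 : ξ ^ 170 ≤ ξ ^ 22 := pow_le_pow_of_le_one hξ.le H.x1 (by norm_num)
  have e3 := H.sm (c := 28804) (by norm_num) (n := 12) (by norm_num)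
  have e4 : ξ ^ 22 = ξ * ξ ^ 21 := by rw [← pow_succ']
  have n0 : 0 ≤ ∫ V, ‖rB σ E t (0 : T d L) V * Fm σ E t p V 0 0‖ ^ 2 ∂(Γ (T d L)) :=
    integral_nonneg fun V => by positivity
  have h8 : 2 * σ ^ 2 * ∫ V, ‖rB σ E t (0 : T d L) V * Fm σ E t p V 0 0‖ ^ 2 ∂(Γ (T d L)) ≤
      2 * K ^ 2 * (4 * (3200 * K ^ 10 * ξ ^ 22)) := by
    calc _ ≤ 2 * K ^ 2 * (4 * (3200 * K ^ 10 * ξ ^ 170)) := by gcongr
      _ ≤ _ := by gcongr
  unfold V2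
  calc V2m σ E t p + W2 σ E t p ≤ 3 * (1068 * K ^ 12 * ξ ^ 22) +
        2 * K ^ 2 * (4 * (3200 * K ^ 10 * ξ ^ 22)) := by linarith
    _ = (28804 * K ^ 12) * ξ ^ 22 := by ring
    _ = (28804 * K ^ 12 * ξ) * ξ ^ 21 := by rw [e4]; ring
    _ ≤ 1 * ξ ^ 21 := by gcongr
    _ = _ := one_mul _

theorem Dx.mm3 (H : Dx d L K σ E ξ) (hM : S_MOM) (h : Tt ξ t) :
    ‖mm d L σ E t‖ ≤ 3 * ξ := by
  have hξ := H.hξ
  have ht := H.t0 h
  have h1 := H.iy ((R_BC (σ := σ) (E := E) ht (0 : T d L) 0).norm) (c := ξ ^ 93) hM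
    (by positivity) (n := 1) (m := 1) (by norm_num) (by norm_num) (fun V hV => by
      have h2 := H.aR h hV
      have hy0 := H.y_nonneg V
      rw [pow_one]
      have : 0 ≤ ξ ^ 93 * yf σ E ξ V := by positivity
      linarith)
  have h2 : ‖mm d L σ E t‖ ≤ ∫ V, ‖R σ E t V (0 : T d L) 0‖ ∂(Γ (T d L)) := by
    unfold mm
    exact norm_integral_le_integral_norm _
  have h3 : ξ ^ 93 ≤ ξ ^ 2 := pow_le_pow_of_le_one hξ.le H.x1 (by norm_num)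
  have h4 := H.sm1
  nlinarith

/-- **the mean** -/
theorem Dx.mf2 (H : Dx d L K σ E ξ) (hM : S_MOM) (hC : S_CC) (h : Tt ξ t) :
    ‖mm d L σ E t - mf d L σ E t‖ ≤ ξ ^ 106 := by
  have hξ := H.hξ
  have hK := H.K0
  have ht := H.t0 h
  have ht2 : t ≤ 1 / 2 := by
    refine (H.tu h).trans ?_
    have := pow_le_one₀ (n := 97) hξ.le H.x1
    linarith
  have hmf := H.ze1 h.lo ht2 (H.mm3 hM h)
  have h2 := m_sub (d := d) (L := L) (σ := σ) (E := E) ht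
  have hze := ze_im_ge (d := d) (L := L) (σ := σ) (E := E) ht
  have hti : t⁻¹ ≤ (ξ ^ 101)⁻¹ := inv_anti₀ (by positivity) h.lo
  have hg2 : g2 d L σ E t ≤ K * ξ ^ 100 * (ξ ^ 101)⁻¹ := by
    unfold g2
    have h3 : (mf d L σ E t).im ≤ K * ξ ^ 100 :=
      ((le_abs_self _).trans (Complex.abs_im_le_norm _)).trans hmf
    have h4 : 0 ≤ (mf d L σ E t).im := GG_im_nonneg (ze_pos ht)
    rw [div_eq_mul_inv]
    have h5 : ((ze d L σ E t).im)⁻¹ ≤ (ξ ^ 101)⁻¹ :=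
      inv_anti₀ (by positivity) (h.lo.trans hze)
    exact mul_le_mul h3 h5 (inv_nonneg.2 (ht.le.trans hze)) (by positivity)
  have hX : (mm d L σ E t).im / t ≤ 4 * (ξ ^ 8)⁻¹ := by
    have h3 := H.Eu hM h
    have h4 : (mm d L σ E t).im / t = ∫ V, uu σ E t V ∂(Γ (T d L)) := by
      unfold uu
      simp only [div_eq_mul_inv]
      rw [integral_mul_const, mm_im ht]
    rw [h4]
    exact h3
  have hX0 : 0 ≤ (mm d L σ E t).im / t :=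
    div_nonneg (mm_im_nonneg (d := d) (L := L) (σ := σ) (E := E) ht) ht.le
  have hg0 := g2_nonneg (d := d) (L := L) (σ := σ) (E := E) ht
  have hV10 := V1_nonneg (d := d) (L := L) (σ := σ) (E := E) (t := t)
  have hV1 := H.V1f hM hC h
  have hσ4 : σ ^ 4 ≤ K ^ 4 := by
    have := H.σ2
    calc σ ^ 4 = (σ ^ 2) ^ 2 := by ring
      _ ≤ (K ^ 2) ^ 2 := by gcongr
      _ = K ^ 4 := by ring
  have e1 : ξ ^ 223 * (ξ ^ 8)⁻¹ = ξ ^ 215 := pw hξ (c := 215) (by norm_num)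
  have e2 : ξ ^ 100 * ξ ^ 215 = ξ ^ 315 := by rw [← pow_add]
  have e3 : ξ ^ 315 * (ξ ^ 101)⁻¹ = ξ ^ 214 := pw hξ (c := 214) (by norm_num)
  have e4 := H.sm (c := 4) (by norm_num) (n := 5) (by norm_num)
  have e5 : ξ ^ 214 = ξ * ξ ^ 213 := by rw [← pow_succ']
  have e6 : ξ ^ 213 ≤ (ξ ^ 106) ^ 2 := by
    rw [← pow_mul]
    exact pow_le_pow_of_le_one hξ.le H.x1 (by norm_num)
  refine abs_le_of_sq_le_sq' ?_ (by positivity) |>.2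
  calc _ ≤ σ ^ 4 * (g2 d L σ E t * V1 d L σ E t) * ((mm d L σ E t).im / t) := h2
    _ ≤ K ^ 4 * ((K * ξ ^ 100 * (ξ ^ 101)⁻¹) * ξ ^ 223) * (4 * (ξ ^ 8)⁻¹) := by gcongr
    _ = 4 * K ^ 5 * ((ξ ^ 100 * (ξ ^ 223 * (ξ ^ 8)⁻¹)) * (ξ ^ 101)⁻¹) := by ring
    _ = 4 * K ^ 5 * ξ ^ 214 := by rw [e1, e2, e3]
    _ = (4 * K ^ 5 * ξ) * ξ ^ 213 := by rw [e5]; ring
    _ ≤ 1 * (ξ ^ 106) ^ 2 := by gcongr
    _ = _ := one_mul _

end

end Run7.h108.GL.HD
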