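import Pool.Agent.Run7.h442.HD.Gr

/-! The bound for the diagonal at small distance from the axis, high dimension. -/

set_option autoImplicit false
set_option linter.unusedSectionVars false

open scoped BigOperators Matrix
open MeasureTheory

namespace Run7.h108.GL.HD

open Pool.Agent.Run7.h47 hiding Hyp good
open Pool.Agent.W788.MFP.Four Pool.Agent.W788.BK
open Pool.Agent.W788.MFP.Form
open Run7.h442.HD

variable {d L : ℕ} [NeZero L] [Law]

/-- the imaginary part of the diagonal with one variable switched off -/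
theorem a0_im {σ E t : ℝ} (ht : 0 < t) (V : T d L → ℝ) (x : T d L) :
    (a0 σ E t x V).im = ‖ww σ E t x V‖ ^ 2 * (R σ E t V x x).im := by
  have h1 := R_ward (σ := σ) (E := E) ht (Function.update V x 0) x
  have h2 := R_ward (σ := σ) (E := E) ht V x
  have h3 : ∑ b, ‖R σ E t (Function.update V x 0) x b‖ ^ 2 =
      ‖ww σ E t x V‖ ^ 2 * ∑ b, ‖R σ E t V x b‖ ^ 2 := by
    rw [Finset.mul_sum]
    refine Finset.sum_congr rfl fun b _ => ?_
    rw [r3 ht, norm_mul, mul_pow]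
  rw [h3, h2] at h1
  have h4 : (R σ E t (Function.update V x 0) x x).im = (a0 σ E t x V).im := rfl
  rw [h4] at h1
  field_simp at h1
  linarith

/-- the normalized majorant -/
noncomputable def yf (σ E ξ : ℝ) (V : T d L → ℝ) : ℝ :=
  (ξ ^ 98)⁻¹ * ∑ j ∈ Finset.range 98, gf σ E (ξ ^ 99) (sj ξ j) V

section
variable {K σ E ξ : ℝ}

theorem Dx.y_BC (H : Dx d L K σ E ξ) : BC fun V : T d L → ℝ => yf σ E ξ V :=
  (BC.const _).mulR (BC.sum _ fun j _ => gf_BC (H.sj0 j))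

theorem Dx.y_nonneg (H : Dx d L K σ E ξ) (V : T d L → ℝ) : 0 ≤ yf σ E ξ V := by
  have hξ := H.hξ
  unfold yf
  exact mul_nonneg (by positivity) (Finset.sum_nonneg fun j _ =>
    gf_nonneg (H.sj0 j) (by positivity) V)

/-- the moments of the majorant -/
theorem Dx.y16 (H : Dx d L K σ E ξ) (hM : S_MOM) : ∫ V, yf σ E ξ V ^ 16 ∂(Γ (T d L)) ≤ 1 := by
  have hξ := H.hξ
  have hp : ∀ V : T d L → ℝ, yf σ E ξ V ^ 16 ≤ ((ξ ^ 98)⁻¹) ^ 16 * (98 ^ 15 *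
      ∑ j ∈ Finset.range 98, gf σ E (ξ ^ 99) (sj ξ j) V ^ 16) := by
    intro V
    unfold yf
    rw [mul_pow]
    refine mul_le_mul_of_nonneg_left ?_ (by positivity)
    have h1 := pow_sum_div_card_le_sum_pow (s := Finset.range 98)
      (f := fun j => gf σ E (ξ ^ 99) (sj ξ j) V) (fun j _ =>
        gf_nonneg (H.sj0 j) (by positivity) V) 15
    rw [Finset.card_range, div_le_iff₀ (by norm_num)] at h1
    norm_num at h1 ⊢
    linarith
  have b1 : ∀ j ∈ Finset.range 98, BC fun V : T d L → ℝ => gf σ E (ξ ^ 99) (sj ξ j) V ^ 16 :=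
    fun j _ => (gf_BC (H.sj0 j)).powR 16
  refine (integral_mono (H.y_BC.powR 16).intR
    ((((BC.sum _ b1).intR).const_mul _).const_mul _) hp).trans ?_
  rw [integral_const_mul, integral_const_mul, integral_finsetSum _ fun j hj => (b1 j hj).intR]
  have h2 : ∑ j ∈ Finset.range 98, ∫ V, gf σ E (ξ ^ 99) (sj ξ j) V ^ 16 ∂(Γ (T d L)) ≤
      98 * (2 ^ 31 * (ξ ^ 99) ^ 16) := by
    refine (Finset.sum_le_sum fun j hj => H.mom hM j (by
      have := Finset.mem_range.1 hj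
      omega)).trans (le_of_eq ?_)
    rw [Finset.sum_const, Finset.card_range, nsmul_eq_mul]
    norm_num
  have h3 := H.sm (c := 392) (by norm_num) (n := 0) (by norm_num)
  rw [pow_zero, mul_one] at h3
  calc _ ≤ ((ξ ^ 98)⁻¹) ^ 16 * (98 ^ 15 * (98 * (2 ^ 31 * (ξ ^ 99) ^ 16))) := by gcongr
    _ = 98 ^ 16 * 2 ^ 31 * ξ ^ 16 := by
        field_simp
    _ ≤ (392 * ξ) ^ 16 := by
        rw [mul_pow]
        refine mul_le_mul_of_nonneg_right (by norm_num) (by positivity)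
    _ ≤ 1 ^ 16 := by gcongr
    _ = 1 := one_pow _

theorem Dx.yn (H : Dx d L K σ E ξ) (hM : S_MOM) {n : ℕ} (hn : n ≤ 16) :
    ∫ V, yf σ E ξ V ^ n ∂(Γ (T d L)) ≤ 2 := by
  have h1 : ∀ V : T d L → ℝ, yf σ E ξ V ^ n ≤ 1 + yf σ E ξ V ^ 16 := by
    intro V
    have h0 := H.y_nonneg V
    rcases le_total (yf σ E ξ V) 1 with h | h
    · have := pow_le_one₀ (n := n) h0 h
      have : 0 ≤ yf σ E ξ V ^ 16 := by positivity
      linarith
    · have := pow_le_pow_right₀ h hn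
      linarith
  have h2 : ∫ V, yf σ E ξ V ^ n ∂(Γ (T d L)) ≤ ∫ V, (1 + yf σ E ξ V ^ 16) ∂(Γ (T d L)) :=
    integral_mono (H.y_BC.powR n).intR ((integrable_const _).add (H.y_BC.powR 16).intR) h1
  refine h2.trans ?_
  rw [integral_add (integrable_const _) (H.y_BC.powR 16).intR]
  have := H.y16 hM
  simp only [integral_const, probReal_univ, one_smul]
  linarith

theorem Dx.chain0 (H : Dx d L K σ E ξ) {W : T d L → ℝ} (hW : ∀ x, |W x| ≤ Law.b) (x : T d L)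
    (n : ℕ) : ‖R σ E (sj ξ n) W x x‖ ≤ 48 * K ^ 2 * ξ ^ 99 +
      ξ⁻¹ * ∑ j ∈ Finset.range n, (R σ E (sj ξ j) W x x).im := by
  have hξ := H.hξ
  induction n with
  | zero =>
    rw [Finset.range_zero, Finset.sum_empty, mul_zero, add_zero]
    refine (H.D.diagR (H.sj0 0) ((H.sj_le 0).trans H.half_le) hW x).trans (le_of_eq ?_)
    unfold sj
    rw [pow_zero]
    ring
  | succ n ih =>
    have hss : sj ξ (n + 1) ≤ sj ξ n := by
      unfold sj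
      have : ξ ^ (n + 1) ≤ ξ ^ n := pow_le_pow_of_le_one hξ.le H.x1 (Nat.le_succ n)
      linarith
    have h1 := (H.hGrid d L σ E (sj ξ n) (sj ξ (n + 1)) W x (H.sj0 _) hss).2.2
    rw [H.ratio] at h1
    have h2 := norm_add_le (R σ E (sj ξ (n + 1)) W x x - R σ E (sj ξ n) W x x)
      (R σ E (sj ξ n) W x x)
    rw [sub_add_cancel] at h2
    rw [Finset.sum_range_succ, mul_add]
    linarith

theorem Dx.chain (H : Dx d L K σ E ξ) {W : T d L → ℝ} (hW : ∀ x, |W x| ≤ Law.b) (x : T d L)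
    {t : ℝ} (ht1 : ξ ^ 101 ≤ t) (ht2 : t ≤ ξ ^ 97 / 2) :
    ‖R σ E t W x x‖ ≤ 48 * K ^ 2 * ξ ^ 99 +
      (ξ ^ 4)⁻¹ * ∑ j ∈ Finset.range 98, (R σ E (sj ξ j) W x x).im := by
  have hξ := H.hξ
  have ht : 0 < t := lt_of_lt_of_le (by positivity) ht1
  have h0 := H.chain0 hW x 97
  have hss : t ≤ sj ξ 97 := ht2
  have h1 := (H.hGrid d L σ E (sj ξ 97) t W x ht hss).2.2
  have h2 := norm_add_le (R σ E t W x x - R σ E (sj ξ 97) W x x) (R σ E (sj ξ 97) W x x)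
  rw [sub_add_cancel] at h2
  have hi : ∀ j, 0 ≤ (R σ E (sj ξ j) W x x).im := fun j => R_im_nonneg (H.sj0 j) W x
  have h3 : sj ξ 97 / t ≤ (ξ ^ 4)⁻¹ := by
    have h5 : (0 : ℝ) < ξ ^ 101 := by positivity
    calc sj ξ 97 / t ≤ sj ξ 97 / ξ ^ 101 :=
          div_le_div_of_nonneg_left (H.sj0 97).le h5 ht1
      _ = (ξ ^ 4)⁻¹ / 2 := by
          have e1 : ξ ^ 101 = ξ ^ 97 * ξ ^ 4 := by rw [← pow_add]
          have e2 : 0 < ξ ^ 97 := by positivity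
          unfold sj
          rw [e1]
          field_simp
      _ ≤ (ξ ^ 4)⁻¹ := by
          have : 0 < (ξ ^ 4)⁻¹ := by positivity
          linarith
  have h4 : ξ⁻¹ ≤ (ξ ^ 4)⁻¹ := by
    refine inv_anti₀ (by positivity) ?_
    calc ξ ^ 4 ≤ ξ ^ 1 := pow_le_pow_of_le_one hξ.le H.x1 (by norm_num)
      _ = ξ := pow_one _
  have hs : 0 ≤ ∑ j ∈ Finset.range 97, (R σ E (sj ξ j) W x x).im :=
    Finset.sum_nonneg fun j _ => hi j
  have h5 := mul_le_mul_of_nonneg_right h4 hs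
  have h6 := mul_le_mul_of_nonneg_right h3 (hi 97)
  rw [Finset.sum_range_succ _ 97, mul_add]
  linarith

theorem Dx.comb (H : Dx d L K σ E ξ) {V : T d L → ℝ} {r : ℝ}
    (h : r ≤ 48 * K ^ 2 * ξ ^ 99 + (ξ ^ 4)⁻¹ *
      ∑ j ∈ Finset.range 98, 3 * (R σ E (sj ξ j) V (0 : T d L) 0).im) :
    r ≤ ξ ^ 93 * yf σ E ξ V := by
  have hξ := H.hξ
  have hK := H.K0
  obtain ⟨S, hS⟩ : ∃ S, S = ∑ j ∈ Finset.range 98, gf σ E (ξ ^ 99) (sj ξ j) V := ⟨_, rfl⟩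
  have h1 : ∑ j ∈ Finset.range 98, 3 * (R σ E (sj ξ j) V (0 : T d L) 0).im ≤ 3 * S := by
    rw [hS, Finset.mul_sum]
    refine Finset.sum_le_sum fun j _ => ?_
    unfold gf
    have : 0 < ξ ^ 99 := by positivity
    linarith
  have h2 : ξ ^ 99 ≤ S := by
    have h3 : ξ ^ 99 ≤ gf σ E (ξ ^ 99) (sj ξ 0) V := by
      unfold gf
      have := R_im_nonneg (σ := σ) (E := E) (H.sj0 0) V (0 : T d L)
      linarith
    refine h3.trans ?_
    rw [hS]
    exact Finset.single_le_sum (f := fun j => gf σ E (ξ ^ 99) (sj ξ j) V)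
      (fun j _ => gf_nonneg (H.sj0 j) (by positivity) V) (Finset.mem_range.2 (by norm_num))
  have h3 : ξ ^ 93 * yf σ E ξ V = (ξ ^ 5)⁻¹ * S := by
    unfold yf
    rw [← hS]
    field_simp
  rw [h3]
  have hS0 : 0 ≤ S := by
    have : 0 < ξ ^ 99 := by positivity
    linarith
  have h4 := H.sm (c := 51) (by norm_num) (n := 2) (by norm_num)
  have h5 : 48 * K ^ 2 + 3 * (ξ ^ 4)⁻¹ ≤ (ξ ^ 5)⁻¹ := by
    have e1 : (48 * K ^ 2 + 3 * (ξ ^ 4)⁻¹) = (48 * K ^ 2 * ξ ^ 5 + 3 * ξ) * (ξ ^ 5)⁻¹ := by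
      field_simp
    rw [e1]
    have e2 : 48 * K ^ 2 * ξ ^ 5 + 3 * ξ ≤ 1 := by
      have e3 : ξ ^ 5 ≤ ξ := by
        calc ξ ^ 5 ≤ ξ ^ 1 := pow_le_pow_of_le_one hξ.le H.x1 (by norm_num)
          _ = ξ := pow_one _
      have e4 : 48 * K ^ 2 * ξ ^ 5 ≤ 48 * K ^ 2 * ξ := by gcongr
      have e5 : 3 * ξ ≤ 3 * K ^ 2 * ξ := by
        have : (1 : ℝ) ≤ K ^ 2 := one_le_pow₀ H.hK
        nlinarith
      linarith
    have e6 : 0 < (ξ ^ 5)⁻¹ := by positivity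
    nlinarith
  have h6 : 0 < (ξ ^ 4)⁻¹ := by positivity
  calc r ≤ 48 * K ^ 2 * ξ ^ 99 + (ξ ^ 4)⁻¹ *
        ∑ j ∈ Finset.range 98, 3 * (R σ E (sj ξ j) V (0 : T d L) 0).im := h
    _ ≤ 48 * K ^ 2 * S + (ξ ^ 4)⁻¹ * (3 * S) := by gcongr
    _ = (48 * K ^ 2 + 3 * (ξ ^ 4)⁻¹) * S := by ring
    _ ≤ _ := mul_le_mul_of_nonneg_right h5 hS0

/-- **the diagonal** -/
theorem Dx.R_le (H : Dx d L K σ E ξ) {V : T d L → ℝ} (hV : ∀ x, |V x| ≤ Law.b)
    {t : ℝ} (ht1 : ξ ^ 101 ≤ t) (ht2 : t ≤ ξ ^ 97 / 2) :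
    ‖R σ E t V (0 : T d L) 0‖ ≤ ξ ^ 93 * yf σ E ξ V := by
  have hξ := H.hξ
  refine H.comb ((H.chain hV 0 ht1 ht2).trans ?_)
  have h6 : 0 < (ξ ^ 4)⁻¹ := by positivity
  refine add_le_add le_rfl (mul_le_mul_of_nonneg_left (Finset.sum_le_sum fun j _ => ?_) h6.le)
  have := R_im_nonneg (σ := σ) (E := E) (H.sj0 j) V (0 : T d L)
  linarith

/-- **the diagonal with one variable switched off** -/
theorem Dx.a_le (H : Dx d L K σ E ξ) {V : T d L → ℝ} (hV : ∀ x, |V x| ≤ Law.b)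
    {t : ℝ} (ht1 : ξ ^ 101 ≤ t) (ht2 : t ≤ ξ ^ 97 / 2) :
    ‖a0 σ E t (0 : T d L) V‖ ≤ ξ ^ 93 * yf σ E ξ V := by
  have hξ := H.hξ
  have hb := (Law.hb (self := ‹Law›))
  refine H.comb ((H.chain (upd_bd hb hV 0) 0 ht1 ht2).trans ?_)
  have h6 : 0 < (ξ ^ 4)⁻¹ := by positivity
  refine add_le_add le_rfl (mul_le_mul_of_nonneg_left (Finset.sum_le_sum fun j hj => ?_) h6.le)
  have hj' : j ≤ 97 := by
    have := Finset.mem_range.1 hj
    omega
  have h1 := a0_im (σ := σ) (E := E) (H.sj0 j) V (0 : T d L)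
  have h2 := ww_le H.D (H.sj0 j) ((H.sj_le j).trans H.half_le) (H.al2 (H.sj_ge hj')) hV 0
  have h3 := R_im_nonneg (σ := σ) (E := E) (H.sj0 j) V (0 : T d L)
  have h4 : (R σ E (sj ξ j) (Function.update V 0 0) (0 : T d L) 0).im =
      (a0 σ E (sj ξ j) 0 V).im := rfl
  rw [h4, h1]
  refine mul_le_mul_of_nonneg_right ?_ h3
  exact (pow_le_pow_left₀ (norm_nonneg _) h2 2).trans (by norm_num)

end

end Run7.h108.GL.HD
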