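import Pool.Agent.Run7.h973.HD_ZM
import Pool.Agent.Run7.h442.HD.DXB
import Pool.Agent.Run7.h47.Zx
import Pool.Agent.W788.Gen3

/-! High dimension, coupling of order one: from the torus to the lattice, laws with growing support (after Run7.h973.HD_ZM). -/

set_option autoImplicit false
set_option linter.unusedSectionVars false

open scoped BigOperators Matrix Topology
open MeasureTheory ProbabilityTheory

namespace Run7.h442.HD

open Pool.Agent.Run7.h47 hiding mm mf ze V1 V2 ff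
open Pool.Agent.W788.MFP.Four Pool.Agent.W788.BK
open Pool.Agent.W788.MFP.Form
open Run7.h108.GL (Law Γ gz mm mf ze V1 V2 ff ww a0 W2 V2m_nonneg)
open Pool.Agent.H4R2.LO (Zd)
open Pool.Agent.H695R3.AN (lf lf_inj lf_add lf_sub)
open Run7.h973.HD_ZM

theorem qdB : S_TORB → S_QDB := by
  intro HT K A M ε hK hM hε
  obtain ⟨e, he⟩ : ∃ e, e = min 1 (ε / 16) := ⟨_, rfl⟩
  have he0 : 0 < e := by rw [he]; positivity
  have he1 : e ≤ 1 := by rw [he]; exact min_le_left _ _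
  have he2 : e ≤ ε / 16 := by rw [he]; exact min_le_right _ _
  have hK0 : 0 < K := by linarith
  obtain ⟨w, hw0, hw1, d0, H⟩ := HT K A (K * M + 1) e hK (by positivity) he0
  obtain ⟨D, hD⟩ := exists_nat_ge ((18 + 4 * K ^ 2 * (2 * (K * M) + 1)) / e)
  refine ⟨w, hw0, hw1, max d0 (max 3 D), ?_⟩
  intro _ d hd hb σ E t hσl hσu hE htl htu P hP G hG
  have hdd0 : d0 ≤ d := (le_max_left _ _).trans hd
  have hd3 : 3 ≤ d := ((le_max_left _ _).trans (le_max_right _ _)).trans hd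
  have hdD : D ≤ d := ((le_max_right _ _).trans (le_max_right _ _)).trans hd
  have hd1 : (3 : ℝ) ≤ d := by exact_mod_cast hd3
  have hdR : (0 : ℝ) < d := by linarith
  have hsm : (18 + 4 * K ^ 2 * (2 * (K * M) + 1)) / d ≤ e := by
    have h1 : (D : ℝ) ≤ d := by exact_mod_cast hdD
    have h2 := hD.trans h1
    rw [div_le_iff₀ he0] at h2
    rw [div_le_iff₀ hdR]
    linarith
  obtain ⟨htd, hrt⟩ := scl hd3 htl
  have ht : 0 < t := lt_of_lt_of_le (by positivity) htd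
  have hsd : 0 < Real.sqrt d := Real.sqrt_pos.2 hdR
  have hsd1 : 1 ≤ Real.sqrt d := by
    rw [Real.one_le_sqrt]
    linarith
  obtain ⟨τ, hτ⟩ : ∃ τ, τ = Real.sqrt d * t := ⟨_, rfl⟩
  have hτ0 : 0 < τ := by rw [hτ]; positivity
  have hτ1 : τ ≤ 1 := by
    rw [hτ, mul_comm]
    exact htu.trans hw1
  have hσ0 : 0 < |σ| := lt_of_lt_of_le (by positivity) hσl
  have hσsq : K⁻¹ ^ 2 ≤ σ ^ 2 := by
    rw [← sq_abs σ]
    refine pow_le_pow_left₀ (by positivity) ?_ 2
    rwa [one_div] at hσl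
  -- the size of the torus
  obtain ⟨L, hL⟩ : ∃ L, L = d ^ 10 := ⟨_, rfl⟩
  have hL0 : L ≠ 0 := by rw [hL]; positivity
  have hNZ : NeZero L := ⟨hL0⟩
  have hLc : (L : ℝ) = (d : ℝ) ^ 10 := by rw [hL]; push_cast; ring
  have hLR : (0 : ℝ) < L := by rw [hLc]; positivity
  have hL8 : (d : ℝ) ^ 8 ≤ L := by
    rw [hLc]
    exact pow_le_pow_right₀ (by linarith) (by norm_num)
  have hLℓ : 4 * (d : ℝ) ^ 5 + 4 < L := by
    rw [hLc]
    have h1 : (243 : ℝ) ≤ (d : ℝ) ^ 5 := by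
      calc (243 : ℝ) = 3 ^ 5 := by norm_num
        _ ≤ _ := by gcongr
    have h2 : (d : ℝ) ^ 10 = (d : ℝ) ^ 5 * (d : ℝ) ^ 5 := by ring
    rw [h2]
    nlinarith
  obtain ⟨θ, hθ⟩ : ∃ θ : Fin d → ℝ, θ = fun i => |σ| * Real.sqrt (t / Real.sqrt d) * P i :=
    ⟨_, rfl⟩
  obtain ⟨j, hj⟩ := round_mom L θ
  rw [← hθ, ← hτ]
  obtain ⟨q, hq⟩ : ∃ q, q = Real.pi / L := ⟨_, rfl⟩
  rw [← hq] at hj
  have hq0 : 0 ≤ q := by
    have := Real.pi_pos
    rw [hq]
    positivity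
  have hq4 : q ≤ 4 / (d : ℝ) ^ 10 := by
    rw [hq, hLc]
    have := Real.pi_le_four
    gcongr
  have hdq : d * q ≤ (d : ℝ)⁻¹ := by
    have h1 : (4 : ℝ) ≤ (d : ℝ) ^ 8 := by
      calc (4 : ℝ) ≤ 3 ^ 8 := by norm_num
        _ ≤ _ := by gcongr
    calc d * q ≤ d * (4 / (d : ℝ) ^ 10) := by gcongr
      _ ≤ d * ((d : ℝ) ^ 8 / (d : ℝ) ^ 10) := by gcongr
      _ = (d : ℝ)⁻¹ := by field_simp
  have hmeas : Measurable fun ω => Qz θ (G ω) := Qz_meas (by omega) ht θ hG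
  obtain ⟨Lm, hLm⟩ : ∃ Lm, Lm = Pr (Ga d E) (∑ i, P i ^ 2) := ⟨_, rfl⟩
  rw [← hLm]
  -- the momentum
  obtain ⟨r, hr⟩ : ∃ r, r = Real.sqrt (t / Real.sqrt d) := ⟨_, rfl⟩
  have hr0 : 0 ≤ r := by rw [hr]; exact Real.sqrt_nonneg _
  have hr2 : r ^ 2 = t / Real.sqrt d := by rw [hr]; exact Real.sq_sqrt (by positivity)
  have hr1 : r ≤ 1 := by
    have h1 : r ^ 2 ≤ 1 ^ 2 := by
      rw [hr2, div_le_iff₀ hsd]
      have h2 : t ≤ 1 := by
        have h3 : t * 1 ≤ t * Real.sqrt d := by gcongr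
        linarith
      linarith
    rw [one_pow] at h1
    exact (sq_le_one_iff₀ hr0).1 h1
  have hθs : ∑ i, |θ i| ≤ K * M * r := by
    have h1 : ∀ i, |θ i| = |σ| * r * |P i| := by
      intro i
      rw [hθ]
      simp only
      rw [← hr, abs_mul, abs_of_nonneg (by positivity : 0 ≤ |σ| * r)]
    rw [Finset.sum_congr rfl fun i _ => h1 i, ← Finset.mul_sum]
    calc |σ| * r * ∑ i, |P i| ≤ K * r * M := by gcongr
      _ = _ := by ring
  have hsz : sz L j ≤ (K * M + 1) * Real.sqrt (t / Real.sqrt d) := by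
    rw [← hr]
    unfold sz
    have h1 : ∀ i, |ang L j i| ≤ |θ i| + q := by
      intro i
      have h2 : ang L j i = θ i - (θ i - ang L j i) := by ring
      rw [h2]
      exact (abs_sub _ _).trans (add_le_add le_rfl (hj i))
    refine (Finset.sum_le_sum fun i _ => h1 i).trans ?_
    rw [Finset.sum_add_distrib, Finset.sum_const, Finset.card_univ, Fintype.card_fin,
      nsmul_eq_mul]
    have h2 : d * q ≤ r := hdq.trans (by rw [hr]; exact hrt)
    linarith
  obtain ⟨hV2, hT⟩ := H d L hdd0 hL8 hb σ E t hσl hσu hE htl htu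
  have hT' := hT j hsz
  obtain ⟨lj, hlj⟩ : ∃ lj, lj = Pr (Ga d E) ((∑ i, ang L j i ^ 2) * Real.sqrt d / (σ ^ 2 * t)) :=
    ⟨_, rfl⟩
  rw [← hlj, ← hτ] at hT'
  have hσ2 : 0 < σ ^ 2 := lt_of_lt_of_le (by positivity) hσsq
  -- the limit
  have hlim : |lj - Lm| ≤ e := by
    rw [hlj, hLm]
    refine (Pr_lip (Ga_pos d E) (by positivity) (by positivity)).trans ?_
    have h1 : (∑ i, ang L j i ^ 2) * Real.sqrt d / (σ ^ 2 * t) - ∑ i, P i ^ 2 =
        (∑ i, (ang L j i ^ 2 - θ i ^ 2)) * (Real.sqrt d / (σ ^ 2 * t)) := by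
      have h2 : ∑ i, θ i ^ 2 = σ ^ 2 * (t / Real.sqrt d) * ∑ i, P i ^ 2 := by
        rw [Finset.mul_sum]
        refine Finset.sum_congr rfl fun i _ => ?_
        rw [hθ]
        simp only
        rw [← hr, mul_pow, mul_pow, sq_abs, hr2]
      have h3 : σ ^ 2 * (t / Real.sqrt d) * (∑ i, P i ^ 2) * (Real.sqrt d / (σ ^ 2 * t)) =
          ∑ i, P i ^ 2 := by
        have e1 : σ ^ 2 * (t / Real.sqrt d) * (Real.sqrt d / (σ ^ 2 * t)) = 1 := by
          have a1 : σ ^ 2 ≠ 0 := hσ2.ne'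
          have a2 := hsd.ne'
          have a3 := ht.ne'
          rw [div_eq_mul_inv, div_eq_mul_inv, mul_inv]
          calc σ ^ 2 * (t * (Real.sqrt d)⁻¹) * (Real.sqrt d * ((σ ^ 2)⁻¹ * t⁻¹)) =
              (σ ^ 2 * (σ ^ 2)⁻¹) * (t * t⁻¹) * (Real.sqrt d * (Real.sqrt d)⁻¹) := by ring
            _ = 1 := by rw [mul_inv_cancel₀ a1, mul_inv_cancel₀ a2, mul_inv_cancel₀ a3]; norm_num
        calc _ = (σ ^ 2 * (t / Real.sqrt d) * (Real.sqrt d / (σ ^ 2 * t))) * ∑ i, P i ^ 2 := by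
              ring
          _ = _ := by rw [e1, one_mul]
      rw [Finset.sum_sub_distrib, h2, sub_mul, h3, mul_div_assoc]
    rw [h1, abs_mul, abs_of_pos (by positivity : 0 < Real.sqrt d / (σ ^ 2 * t))]
    have h2 : |∑ i, (ang L j i ^ 2 - θ i ^ 2)| ≤ q * (2 * (K * M) + 1) := by
      calc |∑ i, (ang L j i ^ 2 - θ i ^ 2)| ≤ ∑ i, |ang L j i ^ 2 - θ i ^ 2| :=
            Finset.abs_sum_le_sum_abs _ _
        _ ≤ ∑ i, q * (2 * |θ i| + q) := by
            refine Finset.sum_le_sum fun i _ => ?_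
            have h2 : ang L j i ^ 2 - θ i ^ 2 = (ang L j i - θ i) * (ang L j i + θ i) := by ring
            rw [h2, abs_mul]
            have h3 : |ang L j i - θ i| ≤ q := by
              rw [abs_sub_comm]
              exact hj i
            have h4 : |ang L j i + θ i| ≤ 2 * |θ i| + q := by
              have h5 : ang L j i + θ i = (ang L j i - θ i) + 2 * θ i := by ring
              rw [h5]
              refine (abs_add_le _ _).trans ?_
              rw [abs_mul, abs_two]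
              linarith
            exact mul_le_mul h3 h4 (abs_nonneg _) hq0
        _ = q * (2 * ∑ i, |θ i| + d * q) := by
            rw [← Finset.mul_sum, Finset.sum_add_distrib, ← Finset.mul_sum, Finset.sum_const,
              Finset.card_univ, Fintype.card_fin, nsmul_eq_mul]
        _ ≤ q * (2 * (K * M) + 1) := by
            apply mul_le_mul_of_nonneg_left _ hq0
            have h6 : K * M * r ≤ K * M := mul_le_of_le_one_right (by positivity) hr1
            have h7 : (d : ℝ)⁻¹ ≤ 1 := inv_le_one_of_one_le₀ (by linarith)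
            linarith
    have h3 : Real.sqrt d / (σ ^ 2 * t) ≤ K ^ 2 * (d : ℝ) ^ 2 := by
      rw [div_le_iff₀ (by positivity)]
      have h4 : Real.sqrt d ≤ d := by
        rw [Real.sqrt_le_left (by linarith)]
        nlinarith
      have h5 : K⁻¹ ^ 2 * (d : ℝ)⁻¹ ≤ σ ^ 2 * t := by gcongr
      calc Real.sqrt d ≤ d := h4
        _ = K ^ 2 * (d : ℝ) ^ 2 * (K⁻¹ ^ 2 * (d : ℝ)⁻¹) := by field_simp
        _ ≤ _ := by gcongr
    have h4 : 0 ≤ 2 * (K * M) + 1 := by positivity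
    calc |∑ i, (ang L j i ^ 2 - θ i ^ 2)| * (Real.sqrt d / (σ ^ 2 * t)) ≤
        q * (2 * (K * M) + 1) * (K ^ 2 * (d : ℝ) ^ 2) := by gcongr
      _ ≤ 4 / (d : ℝ) ^ 10 * (2 * (K * M) + 1) * (K ^ 2 * (d : ℝ) ^ 2) := by gcongr
      _ = 4 * K ^ 2 * (2 * (K * M) + 1) / (d : ℝ) ^ 8 := by field_simp
      _ ≤ 4 * K ^ 2 * (2 * (K * M) + 1) / d := by
          apply div_le_div_of_nonneg_left (by positivity) hdR
          calc (d : ℝ) = (d : ℝ) ^ 1 := (pow_one _).symm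
            _ ≤ (d : ℝ) ^ 8 := pow_le_pow_right₀ (by linarith) (by norm_num)
      _ ≤ (18 + 4 * K ^ 2 * (2 * (K * M) + 1)) / d := by
          apply div_le_div_of_nonneg_right _ hdR.le
          linarith
      _ ≤ e := hsm
  -- the torus against the lattice
  have hpath : ∀ ω, ‖(τ : ℂ) * (Qz θ (G ω) - Fm σ E t (mom d L j) (fun y => ω (lf y)) 0 0)‖ ≤
      e := by
    intro ω
    have h1 := trans (L := L) (by omega) ht (ℓ := (d : ℝ) ^ 5) (by positivity) hLℓ (hG ω) θ j _ hj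
    rw [norm_mul, Complex.norm_real, Real.norm_of_nonneg hτ0.le]
    have hti : t⁻¹ ≤ d := by
      rw [inv_le_comm₀ ht hdR]
      exact htd
    have h2 : 10 * d / ((d : ℝ) ^ 5 * t ^ 3) ≤ 10 / d := by
      calc 10 * d / ((d : ℝ) ^ 5 * t ^ 3) = 10 * d / (d : ℝ) ^ 5 * (t⁻¹) ^ 3 := by
            rw [inv_pow]
            field_simp
        _ ≤ 10 * d / (d : ℝ) ^ 5 * (d : ℝ) ^ 3 := by gcongr
        _ = 10 / d := by field_simp
    have h3 : 2 * d * q * (d : ℝ) ^ 5 / t ^ 2 ≤ 8 / d := by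
      calc 2 * d * q * (d : ℝ) ^ 5 / t ^ 2 = 2 * d * q * (d : ℝ) ^ 5 * (t⁻¹) ^ 2 := by
            rw [inv_pow]
            field_simp
        _ ≤ 2 * d * (4 / (d : ℝ) ^ 10) * (d : ℝ) ^ 5 * (d : ℝ) ^ 2 := by gcongr
        _ = 8 / (d : ℝ) ^ 2 := by
            field_simp
            norm_num
        _ ≤ 8 / d := by
            apply div_le_div_of_nonneg_left (by norm_num) hdR
            nlinarith
    have h4 : (10 : ℝ) / d + 8 / d ≤ e := by
      refine le_trans ?_ hsm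
      rw [← add_div]
      apply div_le_div_of_nonneg_right _ hdR.le
      have : 0 ≤ 4 * K ^ 2 * (2 * (K * M) + 1) := by positivity
      linarith
    calc τ * ‖Qz θ (G ω) - Fm σ E t (mom d L j) (fun y => ω (lf y)) 0 0‖ ≤
        1 * (10 * d / ((d : ℝ) ^ 5 * t ^ 3) + 2 * d * q * (d : ℝ) ^ 5 / t ^ 2) := by gcongr
      _ ≤ 1 * (10 / d + 8 / d) := by gcongr
      _ ≤ e := by rw [one_mul]; exact h4
  have hpt : ∀ ω, ‖(τ : ℂ) * Qz θ (G ω) - ((Lm : ℝ) : ℂ)‖ ^ 2 ≤ 12 * e +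
      4 * (τ ^ 2 * ‖Fm σ E t (mom d L j) (fun y => ω (lf y)) 0 0 - ff σ E t (mom d L j)‖ ^ 2) := by
    intro ω
    have e1 : (τ : ℂ) * Qz θ (G ω) - ((Lm : ℝ) : ℂ) =
        (τ : ℂ) * (Qz θ (G ω) - Fm σ E t (mom d L j) (fun y => ω (lf y)) 0 0) +
        (τ : ℂ) * (Fm σ E t (mom d L j) (fun y => ω (lf y)) 0 0 - ff σ E t (mom d L j)) +
        ((τ : ℂ) * ff σ E t (mom d L j) - ((lj : ℝ) : ℂ)) + ((lj - Lm : ℝ) : ℂ) := by
      push_cast
      ring
    have h1 : ‖(τ : ℂ) * Qz θ (G ω) - ((Lm : ℝ) : ℂ)‖ ≤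
        e + τ * ‖Fm σ E t (mom d L j) (fun y => ω (lf y)) 0 0 - ff σ E t (mom d L j)‖ +
          e + e := by
      rw [e1]
      refine (norm_add_le _ _).trans (add_le_add ((norm_add_le _ _).trans (add_le_add
        ((norm_add_le _ _).trans (add_le_add (hpath ω) (le_of_eq ?_))) hT')) ?_)
      · rw [norm_mul, Complex.norm_real, Real.norm_of_nonneg hτ0.le]
      · rw [Complex.norm_real]
        exact hlim
    have h2 := pow_le_pow_left₀ (norm_nonneg _) h1 2
    have h3 := sq_four' e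
      (τ * ‖Fm σ E t (mom d L j) (fun y => ω (lf y)) 0 0 - ff σ E t (mom d L j)‖) e e
    have h4 : e ^ 2 ≤ e := by
      rw [sq]
      exact mul_le_of_le_one_left he0.le he1
    rw [mul_pow] at h3
    linarith
  have hbc : ∃ C, ∀ V : T d L → ℝ, ‖Fm σ E t (mom d L j) V 0 0‖ ≤ C :=
    (Pool.Agent.Run7.h47.F_BC ht _ 0 0).2
  obtain ⟨C, hC⟩ := hbc
  have hFm : Measurable fun V : T d L → ℝ => τ ^ 2 *
      ‖Fm σ E t (mom d L j) V 0 0 - ff σ E t (mom d L j)‖ ^ 2 := by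
    have h1 : Continuous fun V : T d L → ℝ => Fm σ E t (mom d L j) V 0 0 :=
      (Pool.Agent.Run7.h47.F_BC ht _ 0 0).1
    exact (((h1.sub continuous_const).norm.pow 2).const_mul (τ ^ 2)).measurable
  have hlaw := law_tor' hFm
  have hV2i : ∫ V, τ ^ 2 * ‖Fm σ E t (mom d L j) V 0 0 - ff σ E t (mom d L j)‖ ^ 2
      ∂(Γ (T d L)) ≤ e := by
    rw [integral_const_mul]
    have h1 : W2 σ E t (mom d L j) ≤ V2 σ E t (mom d L j) :=
      le_add_of_nonneg_left (V2m_nonneg _)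
    have h2 := hV2 (mom d L j)
    rw [← hτ] at h2
    have h3 : τ ^ 2 * W2 σ E t (mom d L j) ≤ τ ^ 2 * (e * τ) := by
      gcongr
      exact h1.trans h2
    refine (show _ ≤ _ from h3).trans ?_
    calc τ ^ 2 * (e * τ) = e * τ ^ 3 := by ring
      _ ≤ e * 1 := by
          gcongr
          exact pow_le_one₀ hτ0.le hτ1
      _ = e := mul_one _
  have hFi : Integrable (fun ω : Zd d → ℝ => τ ^ 2 *
      ‖Fm σ E t (mom d L j) (fun y => ω (lf y)) 0 0 - ff σ E t (mom d L j)‖ ^ 2)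
      (Measure.infinitePi fun _ : Zd d => Law.μ) := by
    have hm : Measurable fun ω : Zd d → ℝ => τ ^ 2 *
        ‖Fm σ E t (mom d L j) (fun y => ω (lf y)) 0 0 - ff σ E t (mom d L j)‖ ^ 2 :=
      hFm.comp (g := fun V : T d L → ℝ => τ ^ 2 *
        ‖Fm σ E t (mom d L j) V 0 0 - ff σ E t (mom d L j)‖ ^ 2)
        (f := fun (ω : Zd d → ℝ) (y : T d L) => ω (lf y))
        (measurable_pi_iff.2 fun y => measurable_pi_apply _)
    refine Integrable.of_bound (C := τ ^ 2 * (C + ‖ff σ E t (mom d L j)‖) ^ 2)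
      hm.aestronglyMeasurable (Filter.Eventually.of_forall fun ω => ?_)
    rw [Real.norm_of_nonneg (by positivity)]
    gcongr
    exact (norm_sub_le _ _).trans (add_le_add (hC _) le_rfl)
  have hmeas2 : Measurable fun ω => ‖(τ : ℂ) * Qz θ (G ω) - ((Lm : ℝ) : ℂ)‖ ^ 2 :=
    (((hmeas.const_mul _).sub_const _).norm).pow_const 2
  have hint : Integrable (fun ω => ‖(τ : ℂ) * Qz θ (G ω) - ((Lm : ℝ) : ℂ)‖ ^ 2)
      (Measure.infinitePi fun _ : Zd d => Law.μ) := by
    refine Integrable.mono' ((integrable_const (12 * e)).add (hFi.const_mul 4))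
      hmeas2.aestronglyMeasurable (Filter.Eventually.of_forall fun ω => ?_)
    rw [Real.norm_of_nonneg (by positivity)]
    exact hpt ω
  refine ⟨hint, ?_⟩
  refine (integral_mono hint ((integrable_const (12 * e)).add (hFi.const_mul 4)) hpt).trans ?_
  have h5 : ∫ ω, (12 * e + 4 * (τ ^ 2 *
      ‖Fm σ E t (mom d L j) (fun y => ω (lf y)) 0 0 - ff σ E t (mom d L j)‖ ^ 2))
      ∂(Measure.infinitePi fun _ : Zd d => Law.μ) ≤ 16 * e := by
    rw [integral_add (integrable_const _) (hFi.const_mul 4), integral_const, probReal_univ,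
      one_smul, integral_const_mul, hlaw]
    linarith
  refine le_trans h5 ?_
  linarith

/-- quantum diffusion, laws with growing support -/
theorem all_qdB : S_QDB := qdB all_torB

end Run7.h442.HD
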